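import Mathlib

/-!
# Coherent configurations: definitions, statements
-/

namespace Pool.Agent.N726.CC

open Finset

/-- `c p q` is the colour of the pair `(p, q)`; the colour classes are the classes of a coherent
configuration. -/
structure Coherent {Ω κ : Type} (c : Ω → Ω → κ) : Prop where
  diag : ∀ p q r, c p p = c q r → q = r
  symm : ∀ p q p' q', c p q = c p' q' → c q p = c q' p'
  count : ∀ p q p' q', c p q = c p' q' → ∀ x y,
    Nat.card {r // c p r = x ∧ c r q = y} = Nat.card {r // c p' r = x ∧ c r q' = y}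

theorem Coherent.sum_eq {Ω κ : Type} [Fintype Ω] {c : Ω → Ω → κ} (hc : Coherent c)
    {M N : Matrix Ω Ω ℂ} (hM : ∀ p q p' q', c p q = c p' q' → M p q = M p' q')
    (hN : ∀ p q p' q', c p q = c p' q' → N p q = N p' q') {p q p' q' : Ω}
    (h : c p q = c p' q') : ∑ r, M p r * N r q = ∑ r, M p' r * N r q' := by
  classical
  have key : ∃ e : Ω ≃ Ω, ∀ r, c p r = c p' (e r) ∧ c r q = c (e r) q' := by
    have h1 : ∀ z : κ × κ, Nonempty ({r // (c p r, c r q) = z} ≃ {r // (c p' r, c r q') = z}) := by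
      rintro ⟨x, y⟩
      have h2 := hc.count p q p' q' h x y
      have e1 : {r // (c p r, c r q) = (x, y)} ≃ {r // c p r = x ∧ c r q = y} :=
        Equiv.subtypeEquivRight fun r => by rw [Prod.mk.injEq]
      have e2 : {r // (c p' r, c r q') = (x, y)} ≃ {r // c p' r = x ∧ c r q' = y} :=
        Equiv.subtypeEquivRight fun r => by rw [Prod.mk.injEq]
      exact ⟨e1.trans ((Finite.card_eq.1 h2).some.trans e2.symm)⟩
    let f := fun z => (h1 z).some
    refine ⟨(Equiv.sigmaFiberEquiv fun r => (c p r, c r q)).symm.trans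
      ((Equiv.sigmaCongrRight f).trans (Equiv.sigmaFiberEquiv fun r => (c p' r, c r q'))), ?_⟩
    intro r
    have h3 := (f (c p r, c r q) ⟨r, rfl⟩).2
    rw [Prod.mk.injEq] at h3
    exact ⟨h3.1.symm, h3.2.symm⟩
  obtain ⟨e, he⟩ := key
  refine Fintype.sum_equiv e _ _ fun r => ?_
  rw [hM p r p' (e r) (he r).1, hN r q (e r) q' (he r).2]

/-- The adjacency algebra of a coherent configuration: the complex matrices which are constant on
the colour classes. -/
def adj {Ω κ : Type} [Fintype Ω] [DecidableEq Ω] {c : Ω → Ω → κ} (hc : Coherent c) :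
    Subalgebra ℂ (Matrix Ω Ω ℂ) where
  carrier := {M | ∀ p q p' q', c p q = c p' q' → M p q = M p' q'}
  mul_mem' := by
    intro M N hM hN p q p' q' h
    rw [Matrix.mul_apply, Matrix.mul_apply]
    exact hc.sum_eq hM hN h
  add_mem' := by
    intro M N hM hN p q p' q' h
    rw [Matrix.add_apply, Matrix.add_apply, hM p q p' q' h, hN p q p' q' h]
  algebraMap_mem' := by
    intro a p q p' q' h
    rw [Matrix.algebraMap_matrix_apply, Matrix.algebraMap_matrix_apply]
    by_cases h1 : p = q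
    · subst h1
      rw [hc.diag p p' q' h]
      simp
    · have h2 : p' ≠ q' := by
        rintro rfl
        exact h1 (hc.diag p' p q h.symm)
      rw [if_neg h1, if_neg h2]

/-- leaf ADK -/
def S_ADK : Prop := ∀ (Ω κ : Type) [Fintype Ω] [DecidableEq Ω] (c : Ω → Ω → κ)
  (hc : Coherent c) (n : ℕ) (d : Fin n → ℕ),
  Nonempty (adj hc ≃ₐ[ℂ] ∀ j, Matrix (Fin (d j)) (Fin (d j)) ℂ) →
  ∑ j, d j * d j = Nat.card (Set.range fun e : Ω × Ω => c e.1 e.2)

/-- leaf DEK -/
def S_DEK : Prop := ∀ (Ω κ : Type) [Fintype Ω] [DecidableEq Ω] (c : Ω → Ω → κ)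
  (hc : Coherent c), ∃ (k : ℕ) (d : Fin k → ℕ), (∀ j, 0 < d j) ∧
    Nonempty (adj hc ≃ₐ[ℂ] ∀ j, Matrix (Fin (d j)) (Fin (d j)) ℂ)

/-- leaf ORC: the orbits of a group on pairs are the classes of a coherent configuration -/
def S_ORC : Prop := ∀ (G Ω : Type) [Group G] [MulAction G Ω] [Finite Ω],
  Coherent (fun p q : Ω => (Quotient.mk (MulAction.orbitRel G (Ω × Ω)) (p, q)))

end Pool.Agent.N726.CC
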