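import Mathlib
import Pool.Agent.N726.CC.Stm5

/-!
# The adjacency algebra of a coherent configuration: dimension, semisimplicity
-/

set_option autoImplicit false

namespace Pool.Agent.N726.CC

namespace Adk

open Matrix
open scoped ComplexOrder

variable {Ω κ : Type} [Fintype Ω] [DecidableEq Ω] {c : Ω → Ω → κ}

/-- The adjacency algebra is linearly equivalent to the functions on the colours. -/
noncomputable def equivFun (hc : Coherent c) :
    adj hc ≃ₗ[ℂ] ((Set.range fun e : Ω × Ω => c e.1 e.2) → ℂ) where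
  toFun M := fun x => M.1 x.2.choose.1 x.2.choose.2
  map_add' M N := by
    funext x
    rfl
  map_smul' r M := by
    funext x
    rfl
  invFun f := ⟨fun p q => f ⟨c p q, (p, q), rfl⟩, by
    intro p q p' q' h
    change f ⟨c p q, (p, q), rfl⟩ = f ⟨c p' q', (p', q'), rfl⟩
    congr 1
    exact Subtype.ext h⟩
  left_inv M := by
    apply Subtype.ext
    funext p q
    have hx : c p q ∈ Set.range fun e : Ω × Ω => c e.1 e.2 := ⟨(p, q), rfl⟩
    exact M.2 _ _ _ _ hx.choose_spec
  right_inv f := by
    funext x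
    change f ⟨c x.2.choose.1 x.2.choose.2, _⟩ = f x
    congr 1
    exact Subtype.ext x.2.choose_spec

/-- A hermitian nilpotent matrix is zero. -/
theorem herm_nil {x : Matrix Ω Ω ℂ} (hx : xᴴ = x) {n : ℕ}
    (h : x ^ n = 0) : x = 0 := by
  have key : ∀ k : ℕ, x ^ (2 ^ k) = 0 → x = 0 := by
    intro k
    induction k with
    | zero => intro h; simpa using h
    | succ k ih =>
      intro h
      apply ih
      rw [← conjTranspose_mul_self_eq_zero, conjTranspose_pow, hx, ← pow_add, ← two_mul,
        ← pow_succ']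
      exact h
  apply key n
  obtain ⟨m, hm⟩ := Nat.exists_eq_add_of_le (Nat.lt_two_pow_self (n := n)).le
  rw [hm, pow_add, h, zero_mul]

/-- The conjugate transpose on the adjacency algebra. -/
def st {hc : Coherent c} (a : adj hc) : adj hc :=
  ⟨(a : Matrix Ω Ω ℂ)ᴴ, fun p q p' q' h => by
    rw [conjTranspose_apply, conjTranspose_apply, a.2 q p q' p' (hc.symm p q p' q' h)]⟩

theorem semisimple (hc : Coherent c) : IsSemisimpleRing (adj hc) := by
  have hfin : Module.Finite ℂ (adj hc) := inferInstance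
  have hart : IsArtinianRing (adj hc) := IsArtinianRing.of_finite ℂ _
  rw [IsArtinianRing.isSemisimpleRing_iff_jacobson, eq_bot_iff]
  intro a ha
  obtain ⟨n, hn⟩ := IsSemiprimaryRing.isNilpotent (R := adj hc)
  have hmem : st a * a ∈ Ring.jacobson (adj hc) := Ideal.mul_mem_left _ _ ha
  have hpow : (st a * a) ^ n = 0 := by
    have h1 : (st a * a) ^ n ∈ (Ring.jacobson (adj hc)) ^ n := Ideal.pow_mem_pow hmem n
    rw [hn] at h1
    exact h1
  have h2 : ((st a * a : adj hc) : Matrix Ω Ω ℂ) ^ n = 0 := by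
    have := congrArg (Subtype.val) hpow
    simpa using this
  have h3 : ((st a * a : adj hc) : Matrix Ω Ω ℂ) = (a : Matrix Ω Ω ℂ)ᴴ * a := rfl
  rw [h3] at h2
  have h4 := herm_nil (isHermitian_conjTranspose_mul_self _) h2
  have h5 := conjTranspose_mul_self_eq_zero.mp h4
  rw [Submodule.mem_bot]
  exact Subtype.ext h5

end Adk

theorem adk : S_ADK := by
  intro Ω κ _ _ c hc n d ⟨e⟩
  classical
  have hfin : Finite (Set.range fun e : Ω × Ω => c e.1 e.2) := Set.finite_range _
  have : Fintype (Set.range fun e : Ω × Ω => c e.1 e.2) := Fintype.ofFinite _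
  have h1 : Module.finrank ℂ (adj hc) =
      Module.finrank ℂ (∀ j, Matrix (Fin (d j)) (Fin (d j)) ℂ) :=
    LinearEquiv.finrank_eq e.toLinearEquiv
  have h2 : Module.finrank ℂ (adj hc) =
      Nat.card (Set.range fun e : Ω × Ω => c e.1 e.2) := by
    rw [LinearEquiv.finrank_eq (Adk.equivFun hc), Module.finrank_fintype_fun_eq_card,
      Nat.card_eq_fintype_card]
  have h3 : Module.finrank ℂ (∀ j, Matrix (Fin (d j)) (Fin (d j)) ℂ) = ∑ j, d j * d j := by
    rw [Module.finrank_pi_fintype]
    refine Finset.sum_congr rfl fun j _ => ?_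
    rw [Module.finrank_matrix, Fintype.card_fin, Module.finrank_self, mul_one]
  rw [← h3, ← h1, h2]

theorem dek : S_DEK := by
  intro Ω κ _ _ c hc
  have h1 := Adk.semisimple hc
  obtain ⟨n, d, hd, e⟩ :=
    IsSemisimpleRing.exists_algEquiv_pi_matrix_of_isAlgClosed ℂ (adj hc)
  exact ⟨n, d, fun i => Nat.pos_of_ne_zero (hd i).out, e⟩

end Pool.Agent.N726.CC
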