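import Mathlib
import Pool.Agent.N726.BG.Deg

/-!
# Barriers for association schemes: definitions, statements of the leaves

A finite group `G` with a subgroup `Φ` acts transitively on `G / Φ`; the classes of the association
scheme are the double cosets `Φ g Φ`.
-/

namespace Pool.Agent.N726.CC

open Finset
open Pool.Agent.N726.BG

/-- The double cosets of `x i a b`, `y i b c`, `z i c a` (`a ∈ A i`, `b ∈ B i`, `c ∈ C i`) realize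
simultaneously matrix multiplications; there are at most `Q` representations of the identity. -/
structure HF {G : Type*} [Group G] {I : Type*} (Φ : Subgroup G) (A B C : I → Finset ℕ)
    (x y z : I → ℕ → ℕ → G) (Q : ℕ) : Prop where
  mat : ∀ i, ∀ a ∈ A i, ∀ b ∈ B i, ∀ c ∈ C i, ∃ s ∈ Φ, ∃ t ∈ Φ, ∃ r ∈ Φ,
    s * x i a b * t * y i b c * r * z i c a = 1
  only : ∀ i j k, ∀ a ∈ A i, ∀ b ∈ B i, ∀ b' ∈ B j, ∀ c ∈ C j, ∀ c' ∈ C k, ∀ a' ∈ A k,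
    ∀ s ∈ Φ, ∀ t ∈ Φ, ∀ r ∈ Φ, s * x i a b * t * y j b' c * r * z k c' a' = 1 →
    i = j ∧ j = k ∧ a = a' ∧ b = b' ∧ c = c'
  few : ∀ i, ∀ a ∈ A i, ∀ b ∈ B i, ∀ c ∈ C i,
    Nat.card {q : Φ × Φ × Φ //
      (q.1 : G) * x i a b * q.2.1 * y i b c * q.2.2 * z i c a = 1} ≤ Q

/-- a bound for degenerations which is stable under powers -/
def PB (G : Type) [Group G] [Fintype G] (ρ : ℝ) : Prop :=
  ∀ (κ : Type) [Fintype κ] [DecidableEq κ] (I : Type) [Fintype I] (A B C : I → Finset (κ → G))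
    (u v w : (κ → G) → ℤ), DSTPP A B C u v w →
    ∑ i, (((A i).card * (B i).card * (C i).card : ℕ) : ℝ) ^ ((2 : ℝ) / 3) ≤
      (ρ * Fintype.card G) ^ Fintype.card κ

/-- leaf PB -/
def S_PB : Prop := ∀ (G : Type) [Group G] [Fintype G] (H : Subgroup G) (K : Subgroup H),
  K.Normal → ∀ p r : ℕ, p.Prime → (∀ x y : H, x * y * x⁻¹ * y⁻¹ ∈ K) → (∀ x : H, x ^ p ∈ K) →
  p ^ r ≤ K.index → PB G (Real.exp (-(r : ℝ) / 360))

/-- leaf IND -/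
def S_IND : Prop := ∀ (G : Type) [Group G] [Fintype G] [DecidableEq G] (Ψ : Subgroup G)
  (F : Finset G), ∃ A : Finset G, (∀ a ∈ A, a ∈ Ψ) ∧ Nat.card Ψ ≤ A.card * (2 * F.card + 1) ∧
    ∀ a ∈ A, ∀ a' ∈ A, a * a'⁻¹ ∈ F → a = a'

/-- leaf EQ: blocks of equal size -/
def S_EQ : Prop := ∀ (G : Type) [Group G] [Fintype G] (Ψ : Subgroup G) (ι : Type) [Fintype ι]
  (m Q : ℕ) (X Y Z : ι → Fin m → Fin m → G) (R : ℝ),
  (∀ (D : Type) [Fintype D] (A B C : D → Finset G) (u v w : G → ℤ), DSTPP A B C u v w →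
    ∑ i, (((A i).card * (B i).card * (C i).card : ℕ) : ℝ) ^ ((2 : ℝ) / 3) ≤ R) →
  (∀ i α β γ, ∃ s ∈ Ψ, ∃ t ∈ Ψ, ∃ r ∈ Ψ, s * X i α β * t * Y i β γ * r * Z i γ α = 1) →
  (∀ i j k α β β' γ γ' α', ∀ s ∈ Ψ, ∀ t ∈ Ψ, ∀ r ∈ Ψ,
    s * X i α β * t * Y j β' γ * r * Z k γ' α' = 1 →
    i = j ∧ j = k ∧ α = α' ∧ β = β' ∧ γ = γ') →
  (∀ i α β γ, Nat.card {q : Ψ × Ψ × Ψ //
    (q.1 : G) * X i α β * q.2.1 * Y i β γ * q.2.2 * Z i γ α = 1} ≤ Q) →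
  (Fintype.card ι : ℝ) * (m : ℝ) ^ 2 * (Nat.card Ψ : ℝ) ^ 2 ≤
    3 * R * (2 * (Q : ℝ) + 1) ^ ((4 : ℝ) / 3)

/-- leaf CLS: powers, one type -/
def S_CLS : Prop := ∀ (G : Type) [Group G] [Fintype G] (Φ : Subgroup G) (ρ : ℝ), 0 < ρ →
  PB G ρ → ∀ (I : Type) [Fintype I] [DecidableEq I] (A B C : I → Finset ℕ)
  (x y z : I → ℕ → ℕ → G) (Q : ℕ), HF Φ A B C x y z Q →
  ∀ (N : ℕ) (τ : I → Fin (N + 1)) (w₀ : Fin N → I), N580.typ w₀ = τ →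
  ((Finset.univ.filter fun w : Fin N → I => N580.typ w = τ).card : ℝ) ^ 3 *
    (((∏ t, (A (w₀ t)).card) * (∏ t, (B (w₀ t)).card) * (∏ t, (C (w₀ t)).card) : ℕ) : ℝ) ^ 2 *
    (Nat.card Φ : ℝ) ^ (6 * N) ≤
  3 * (ρ * Fintype.card G) ^ (3 * N) * (2 * (Q : ℝ) ^ (3 * N) + 1) ^ ((4 : ℝ) / 3)

/-- leaf DC -/
def S_DC : Prop := ∀ (G : Type) [Group G] [Finite G] (Φ : Subgroup G),
  Nat.card G ≤ Nat.card (DoubleCoset.Quotient (Φ : Set G) (Φ : Set G)) * Nat.card Φ ^ 2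

/-- the main inequality -/
def S_MAIN : Prop := ∀ (G : Type) [Group G] [Fintype G] (Φ : Subgroup G) (ρ : ℝ), 0 < ρ →
  PB G ρ → ∀ (I : Type) [Fintype I] (A B C : I → Finset ℕ) (x y z : I → ℕ → ℕ → G) (Q : ℕ),
  1 ≤ Q → HF Φ A B C x y z Q →
  (∑ i, (((A i).card * (B i).card * (C i).card : ℕ) : ℝ) ^ ((2 : ℝ) / 3)) *
    (Nat.card Φ : ℝ) ^ 2 ≤ (Q : ℝ) ^ ((4 : ℝ) / 3) * ρ * Fintype.card G

end Pool.Agent.N726.CC
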