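import Mathlib
import Pool.Agent.N726.BG.Stm
import Pool.Agent.N580.Power

/-!
# Barriers for colourings and coherent configurations: statements

`H` acts on `Ω`; the colour classes are `H`-invariant sets of pairs.
-/

namespace Pool.Agent.N726.CC

open Finset
open Pool.Agent.N726.BG

/-- leaf PVO: the pivot theorem for a free action -/
def S_PVO : Prop := ∀ (Ω H F : Type) [Fintype Ω] [DecidableEq Ω] [Group H] [Fintype H]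
  [DecidableEq H] [MulAction H Ω] [Field F], (∀ (h : H) (p : Ω), h • p = p → h = 1) →
  ∀ (J : Submodule F (H → F)), Iso J → ∀ (X Y Z : Finset (Ω × Ω)) (kx ky kz : Ω × Ω → ℤ),
  (∀ (h : H), ∀ e ∈ X, h • e ∈ X) → (∀ (h : H), ∀ e ∈ Y, h • e ∈ Y) →
  (∀ (h : H), ∀ e ∈ Z, h • e ∈ Z) →
  (∀ (h : H) (e : Ω × Ω), kx (h • e) = kx e) → (∀ (h : H) (e : Ω × Ω), ky (h • e) = ky e) →
  (∀ (h : H) (e : Ω × Ω), kz (h • e) = kz e) →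
  (∀ p q r, (p, q) ∈ X → (q, r) ∈ Y → (r, p) ∈ Z → kx (p, q) + ky (q, r) + kz (r, p) ≤ 0) →
  (∀ e ∈ X, ∀ e' ∈ X, kx e = kx e' → ∃ h : H, e' = h • e) →
  ∀ (T : Finset (Ω × Ω × Ω)), (∀ t ∈ T, (t.1, t.2.1) ∈ X ∧ (t.2.1, t.2.2) ∈ Y ∧
    (t.2.2, t.1) ∈ Z ∧ kx (t.1, t.2.1) + ky (t.2.1, t.2.2) + kz (t.2.2, t.1) = 0) →
  (∀ t ∈ T, ∀ r, (t.2.1, r) ∈ Y → (r, t.1) ∈ Z →
    kx (t.1, t.2.1) + ky (t.2.1, r) + kz (r, t.1) = 0 → r = t.2.2) →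
  (∀ t ∈ T, ∀ t' ∈ T, t.2 = t'.2 → t = t') →
  (∀ t ∈ T, ∀ t' ∈ T, t.1 = t'.1 → t.2.2 = t'.2.2 → t = t') →
  T.card * Fintype.card H ≤
    3 * Fintype.card Ω ^ 2 * (Fintype.card H - Module.finrank F J)

/-- The sets of pairs `X i a b`, `Y i b c`, `Z i c a` (`a ∈ A i`, `b ∈ B i`, `c ∈ C i`) realize
matrix multiplications, with structure constants one. -/
structure CF (H : Type*) [Group H] {Ω : Type*} [MulAction H Ω] {I α : Type*}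
    (A B C : I → Finset α) (X Y Z : I → α → α → Set (Ω × Ω)) : Prop where
  invX : ∀ i, ∀ a ∈ A i, ∀ b ∈ B i, ∀ e ∈ X i a b, ∀ h : H, h • e ∈ X i a b
  invY : ∀ i, ∀ b ∈ B i, ∀ c ∈ C i, ∀ e ∈ Y i b c, ∀ h : H, h • e ∈ Y i b c
  invZ : ∀ i, ∀ c ∈ C i, ∀ a ∈ A i, ∀ e ∈ Z i c a, ∀ h : H, h • e ∈ Z i c a
  freeX : ∀ i, ∀ a ∈ A i, ∀ b ∈ B i, ∀ e ∈ X i a b, ∀ h : H, h • e = e → h = 1
  freeY : ∀ i, ∀ b ∈ B i, ∀ c ∈ C i, ∀ e ∈ Y i b c, ∀ h : H, h • e = e → h = 1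
  freeZ : ∀ i, ∀ c ∈ C i, ∀ a ∈ A i, ∀ e ∈ Z i c a, ∀ h : H, h • e = e → h = 1
  only : ∀ i j k, ∀ a ∈ A i, ∀ b ∈ B i, ∀ b' ∈ B j, ∀ c ∈ C j, ∀ c' ∈ C k, ∀ a' ∈ A k,
    ∀ p q r, (p, q) ∈ X i a b → (q, r) ∈ Y j b' c → (r, p) ∈ Z k c' a' →
    i = j ∧ j = k ∧ a = a' ∧ b = b' ∧ c = c'
  oneX : ∀ i, ∀ a ∈ A i, ∀ b ∈ B i, ∀ c ∈ C i, ∀ p q, (p, q) ∈ X i a b →
    ∃! r, (q, r) ∈ Y i b c ∧ (r, p) ∈ Z i c a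
  oneY : ∀ i, ∀ a ∈ A i, ∀ b ∈ B i, ∀ c ∈ C i, ∀ q r, (q, r) ∈ Y i b c →
    ∃! p, (r, p) ∈ Z i c a ∧ (p, q) ∈ X i a b
  oneZ : ∀ i, ∀ a ∈ A i, ∀ b ∈ B i, ∀ c ∈ C i, ∀ r p, (r, p) ∈ Z i c a →
    ∃! q, (p, q) ∈ X i a b ∧ (q, r) ∈ Y i b c

/-- a diagonal family of triangles with weights -/
structure DF (H : Type*) [Group H] {Ω : Type*} [MulAction H Ω] {D : Type*}
    (X Y Z : D → Set (Ω × Ω)) (u v w : Ω × Ω → ℤ) : Prop where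
  invX : ∀ d, ∀ e ∈ X d, ∀ h : H, h • e ∈ X d
  invY : ∀ d, ∀ e ∈ Y d, ∀ h : H, h • e ∈ Y d
  invZ : ∀ d, ∀ e ∈ Z d, ∀ h : H, h • e ∈ Z d
  invu : ∀ (h : H) (e : Ω × Ω), u (h • e) = u e
  invv : ∀ (h : H) (e : Ω × Ω), v (h • e) = v e
  invw : ∀ (h : H) (e : Ω × Ω), w (h • e) = w e
  freeX : ∀ d, ∀ e ∈ X d, ∀ h : H, h • e = e → h = 1
  freeY : ∀ d, ∀ e ∈ Y d, ∀ h : H, h • e = e → h = 1
  freeZ : ∀ d, ∀ e ∈ Z d, ∀ h : H, h • e = e → h = 1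
  zero : ∀ d p q r, (p, q) ∈ X d → (q, r) ∈ Y d → (r, p) ∈ Z d →
    u (p, q) + v (q, r) + w (r, p) = 0
  neg : ∀ d d' d'' p q r, (p, q) ∈ X d → (q, r) ∈ Y d' → (r, p) ∈ Z d'' →
    ¬ (d = d' ∧ d' = d'') → u (p, q) + v (q, r) + w (r, p) < 0
  oneX : ∀ d p q, (p, q) ∈ X d → ∃! r, (q, r) ∈ Y d ∧ (r, p) ∈ Z d
  oneY : ∀ d q r, (q, r) ∈ Y d → ∃! p, (r, p) ∈ Z d ∧ (p, q) ∈ X d
  oneZ : ∀ d r p, (r, p) ∈ Z d → ∃! q, (p, q) ∈ X d ∧ (q, r) ∈ Y d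

/-- leaf BK2: the bound for diagonal families -/
def S_BK2 : Prop := ∀ (Ω H F : Type) [Fintype Ω] [Group H] [Fintype H] [MulAction H Ω] [Field F]
  (J : Submodule F (H → F)), Iso J → ∀ (D : Type) [Fintype D] (s : ℕ) (X Y Z : D → Set (Ω × Ω))
  (u v w : Ω × Ω → ℤ), DF H X Y Z u v w → (∀ d, s ≤ Nat.card (X d)) →
  Fintype.card D * s * Fintype.card H ≤
    9 * Fintype.card Ω ^ 2 * (Fintype.card H - Module.finrank F J)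

/-- leaf BKO: blocks of equal size -/
def S_BKO : Prop := ∀ (Ω H F : Type) [Fintype Ω] [Group H] [Fintype H] [MulAction H Ω] [Field F]
  (J : Submodule F (H → F)), Iso J → ∀ (ι : Type) [Fintype ι] (m s : ℕ)
  (X Y Z : ι → Fin m → Fin m → Set (Ω × Ω)),
  CF H (fun _ : ι => (univ : Finset (Fin m))) (fun _ => univ) (fun _ => univ) X Y Z →
  (∀ i a b, s ≤ Nat.card (X i a b)) →
  Fintype.card ι * m ^ 2 * s * Fintype.card H ≤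
    27 * Fintype.card Ω ^ 2 * (Fintype.card H - Module.finrank F J)

/-- leaf CLO: powers, one type -/
def S_CLO : Prop := ∀ (Ω H : Type) [Fintype Ω] [Group H] [Fintype H] [MulAction H Ω] (N : ℕ)
  (t : ℝ), 0 ≤ t → Good (Fin 3 × Fin N → H) t → ∀ (I : Type) [Fintype I] [DecidableEq I]
  (A B C : I → Finset ℕ) (X Y Z : I → ℕ → ℕ → Set (Ω × Ω)) (s : I → ℕ), CF H A B C X Y Z →
  (∀ i, ∀ a ∈ A i, ∀ b ∈ B i, s i ≤ Nat.card (X i a b)) →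
  (∀ i, ∀ b ∈ B i, ∀ c ∈ C i, s i ≤ Nat.card (Y i b c)) →
  (∀ i, ∀ c ∈ C i, ∀ a ∈ A i, s i ≤ Nat.card (Z i c a)) →
  ∀ (τ : I → Fin (N + 1)) (w₀ : Fin N → I), N580.typ w₀ = τ →
  ((Finset.univ.filter fun w : Fin N → I => N580.typ w = τ).card : ℝ) ^ 3 *
    (((∏ t, (A (w₀ t)).card) * (∏ t, (B (w₀ t)).card) * (∏ t, (C (w₀ t)).card) : ℕ) : ℝ) ^ 2 *
    (∏ t, (s (w₀ t) : ℝ)) ^ 3 ≤ 27 * (Fintype.card Ω : ℝ) ^ (6 * N) * t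

/-- leaf MNO: the main inequality from powers -/
def S_MNO : Prop := ∀ (Ω H : Type) [Fintype Ω] [Group H] [Fintype H] [MulAction H Ω] (ρ : ℝ),
  0 < ρ → (∀ N : ℕ, 1 ≤ N → Good (Fin 3 × Fin N → H) (ρ ^ (3 * N))) →
  ∀ (I : Type) [Fintype I] (A B C : I → Finset ℕ) (X Y Z : I → ℕ → ℕ → Set (Ω × Ω))
  (s : I → ℕ), CF H A B C X Y Z →
  (∀ i, ∀ a ∈ A i, ∀ b ∈ B i, s i ≤ Nat.card (X i a b)) →
  (∀ i, ∀ b ∈ B i, ∀ c ∈ C i, s i ≤ Nat.card (Y i b c)) →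
  (∀ i, ∀ c ∈ C i, ∀ a ∈ A i, s i ≤ Nat.card (Z i c a)) →
  ∑ i, (((A i).card * (B i).card * (C i).card : ℕ) : ℝ) ^ ((2 : ℝ) / 3) * s i ≤
    ρ * (Fintype.card Ω : ℝ) ^ 2

/-- leaf GDS: good subgroups -/
def S_GDS : Prop := ∀ (H : Type) [Group H] [Fintype H] (K : Subgroup H), K.Normal →
  ∀ p r : ℕ, p.Prime → (∀ x y : H, x * y * x⁻¹ * y⁻¹ ∈ K) → (∀ x : H, x ^ p ∈ K) →
  p ^ r ≤ K.index → ∃ (P : Type) (_ : Group P) (_ : Fintype P) (φ : P →* H),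
    Function.Injective φ ∧ ∀ N : ℕ, 1 ≤ N →
      Good (Fin 3 × Fin N → P) (Real.exp (-(r : ℝ) / 360) ^ (3 * N))

end Pool.Agent.N726.CC
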