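import Mathlib
import Pool.Agent.N726.CC.Stm4
import Pool.Agent.N726.CC.Stm5
import Pool.Agent.N726.BG.Strong

/-!
# Barriers for colourings and coherent configurations: assembly
-/

set_option autoImplicit false

namespace Pool.Agent.N726.CC

open Finset
open Pool.Agent.N726.BG

/-- The classes of the colours `R i a b`, `S i b e`, `T i e a` realize matrix multiplications, with
structure constants one. -/
structure RealizesC {Ω κ : Type} (c : Ω → Ω → κ) {I : Type} (l m n : I → ℕ)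
    (R : ∀ i, Fin (l i) → Fin (m i) → κ) (S : ∀ i, Fin (m i) → Fin (n i) → κ)
    (T : ∀ i, Fin (n i) → Fin (l i) → κ) : Prop where
  only : ∀ i j k (a : Fin (l i)) (b : Fin (m i)) (b' : Fin (m j)) (e : Fin (n j))
    (e' : Fin (n k)) (a' : Fin (l k)) (p q r : Ω), c p q = R i a b → c q r = S j b' e →
    c r p = T k e' a' → i = j ∧ j = k ∧ (a : ℕ) = a' ∧ (b : ℕ) = b' ∧ (e : ℕ) = e'
  oneX : ∀ i a b e p q, c p q = R i a b → ∃! r, c q r = S i b e ∧ c r p = T i e a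
  oneY : ∀ i a b e q r, c q r = S i b e → ∃! p, c r p = T i e a ∧ c p q = R i a b
  oneZ : ∀ i a b e r p, c r p = T i e a → ∃! q, c p q = R i a b ∧ c q r = S i b e

/-- The pairs of colour `x` which are fixed only by `1`. -/
def freePairs (H : Type) [Group H] {Ω κ : Type} [MulAction H Ω] (c : Ω → Ω → κ) (x : κ) :
    Set (Ω × Ω) := {e | c e.1 e.2 = x ∧ ∀ h : H, h • e = e → h = 1}

theorem CF.comp {H P : Type} [Group H] [Group P] {Ω : Type} [MulAction H Ω] {I α : Type}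
    {A B C : I → Finset α} {X Y Z : I → α → α → Set (Ω × Ω)} (h : CF H A B C X Y Z)
    (φ : P →* H) (hφ : Function.Injective φ) :
    letI := MulAction.compHom Ω φ
    CF P A B C X Y Z := by
  letI := MulAction.compHom Ω φ
  exact
  { invX := fun i a ha b hb e he g => h.invX i a ha b hb e he (φ g)
    invY := fun i a ha b hb e he g => h.invY i a ha b hb e he (φ g)
    invZ := fun i a ha b hb e he g => h.invZ i a ha b hb e he (φ g)
    freeX := fun i a ha b hb e he g hg => hφ ((h.freeX i a ha b hb e he (φ g) hg).trans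
      φ.map_one.symm)
    freeY := fun i a ha b hb e he g hg => hφ ((h.freeY i a ha b hb e he (φ g) hg).trans
      φ.map_one.symm)
    freeZ := fun i a ha b hb e he g hg => hφ ((h.freeZ i a ha b hb e he (φ g) hg).trans
      φ.map_one.symm)
    only := h.only
    oneX := h.oneX
    oneY := h.oneY
    oneZ := h.oneZ }

section cards

variable {H : Type} [Group H] {Ω : Type} [MulAction H Ω] [Finite Ω] {I α : Type}
    {A B C : I → Finset α} {X Y Z : I → α → α → Set (Ω × Ω)}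

theorem CF.card_le_Y (h : CF H A B C X Y Z) {i : I} {a b c : α} (ha : a ∈ A i) (hb : b ∈ B i)
    (hc : c ∈ C i) : Nat.card (X i a b) ≤ Nat.card (Y i b c) := by
  have h1 : ∀ e : X i a b, ∃ r, (e.1.2, r) ∈ Y i b c ∧ (r, e.1.1) ∈ Z i c a := fun e =>
    (h.oneX i a ha b hb c hc e.1.1 e.1.2 e.2).exists
  choose r hr using h1
  refine Nat.card_le_card_of_injective (fun e : X i a b => (⟨(e.1.2, r e), (hr e).1⟩ : Y i b c)) ?_
  intro e e' he
  have h2 : (e.1.2, r e) = (e'.1.2, r e') := congrArg Subtype.val he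
  have h3 : e.1.2 = e'.1.2 := congrArg Prod.fst h2
  have h4 : r e = r e' := congrArg Prod.snd h2
  have h5 := (h.oneY i a ha b hb c hc e.1.2 (r e) (hr e).1).unique
    (y₁ := e.1.1) (y₂ := e'.1.1) ⟨(hr e).2, e.2⟩ ⟨by rw [h4]; exact (hr e').2, by
      rw [h3]; exact e'.2⟩
  exact Subtype.ext (Prod.ext h5 h3)

theorem CF.card_le_Z (h : CF H A B C X Y Z) {i : I} {a b c : α} (ha : a ∈ A i) (hb : b ∈ B i)
    (hc : c ∈ C i) : Nat.card (X i a b) ≤ Nat.card (Z i c a) := by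
  have h1 : ∀ e : X i a b, ∃ r, (e.1.2, r) ∈ Y i b c ∧ (r, e.1.1) ∈ Z i c a := fun e =>
    (h.oneX i a ha b hb c hc e.1.1 e.1.2 e.2).exists
  choose r hr using h1
  refine Nat.card_le_card_of_injective (fun e : X i a b => (⟨(r e, e.1.1), (hr e).2⟩ : Z i c a)) ?_
  intro e e' he
  have h2 : (r e, e.1.1) = (r e', e'.1.1) := congrArg Subtype.val he
  have h3 : e.1.1 = e'.1.1 := congrArg Prod.snd h2
  have h4 : r e = r e' := congrArg Prod.fst h2
  have h5 := (h.oneZ i a ha b hb c hc (r e) e.1.1 (hr e).2).unique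
    (y₁ := e.1.2) (y₂ := e'.1.2) ⟨e.2, (hr e).1⟩ ⟨by rw [h3]; exact e'.2, by
      rw [h4]; exact (hr e').1⟩
  exact Subtype.ext (Prod.ext h3 h5)

end cards

/-- arrays of sets indexed by natural numbers -/
noncomputable def arrS {α I : Type} {l m : I → ℕ} (f : ∀ i, Fin (l i) → Fin (m i) → Set α) :
    I → ℕ → ℕ → Set α := fun i a b =>
  if h : a < l i ∧ b < m i then f i ⟨a, h.1⟩ ⟨b, h.2⟩ else ∅

theorem arrS_eq {α I : Type} {l m : I → ℕ} (f : ∀ i, Fin (l i) → Fin (m i) → Set α) (i : I)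
    {a b : ℕ} (ha : a < l i) (hb : b < m i) : arrS f i a b = f i ⟨a, ha⟩ ⟨b, hb⟩ := by
  unfold arrS
  rw [dif_pos ⟨ha, hb⟩]

theorem toCF {H : Type} [Group H] {Ω κ : Type} [MulAction H Ω] {c : Ω → Ω → κ}
    (hH : ∀ (h : H) (p q : Ω), c (h • p) (h • q) = c p q) {I : Type} {l m n : I → ℕ}
    {R : ∀ i, Fin (l i) → Fin (m i) → κ} {S : ∀ i, Fin (m i) → Fin (n i) → κ}
    {T : ∀ i, Fin (n i) → Fin (l i) → κ} (h : RealizesC c l m n R S T) :
    CF H (fun i => range (l i)) (fun i => range (m i)) (fun i => range (n i))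
      (arrS fun i a b => freePairs H c (R i a b)) (arrS fun i b e => freePairs H c (S i b e))
      (arrS fun i e a => freePairs H c (T i e a)) := by
  have hinv : ∀ x, ∀ e ∈ freePairs H c x, ∀ g : H, g • e ∈ freePairs H c x := by
    rintro x ⟨p, q⟩ ⟨h1, h2⟩ g
    refine ⟨(hH g p q).trans h1, fun g' hg' => ?_⟩
    have h3 := h2 (g⁻¹ * g' * g) (by
      rw [mul_smul, mul_smul, hg', inv_smul_smul])
    have h4 : g' = g * (g⁻¹ * g' * g) * g⁻¹ := by group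
    rw [h4, h3]
    group
  have hsm : ∀ (g : H) (p q : Ω), g • (p, q) = (p, q) ↔ g • p = p ∧ g • q = q := by
    intro g p q
    rw [Prod.smul_mk, Prod.mk.injEq]
  constructor
  · intro i a ha b hb e he g
    rw [arrS_eq _ i (mem_range.1 ha) (mem_range.1 hb)] at he ⊢
    exact hinv _ e he g
  · intro i a ha b hb e he g
    rw [arrS_eq _ i (mem_range.1 ha) (mem_range.1 hb)] at he ⊢
    exact hinv _ e he g
  · intro i a ha b hb e he g
    rw [arrS_eq _ i (mem_range.1 ha) (mem_range.1 hb)] at he ⊢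
    exact hinv _ e he g
  · intro i a ha b hb e he g hg
    rw [arrS_eq _ i (mem_range.1 ha) (mem_range.1 hb)] at he
    exact he.2 g hg
  · intro i a ha b hb e he g hg
    rw [arrS_eq _ i (mem_range.1 ha) (mem_range.1 hb)] at he
    exact he.2 g hg
  · intro i a ha b hb e he g hg
    rw [arrS_eq _ i (mem_range.1 ha) (mem_range.1 hb)] at he
    exact he.2 g hg
  · intro i j k a ha b hb b' hb' e he e' he' a' ha' p q r h1 h2 h3
    rw [arrS_eq _ i (mem_range.1 ha) (mem_range.1 hb)] at h1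
    rw [arrS_eq _ j (mem_range.1 hb') (mem_range.1 he)] at h2
    rw [arrS_eq _ k (mem_range.1 he') (mem_range.1 ha')] at h3
    exact h.only i j k _ _ _ _ _ _ p q r h1.1 h2.1 h3.1
  · intro i a ha b hb e he p q h1
    rw [arrS_eq _ i (mem_range.1 ha) (mem_range.1 hb)] at h1
    rw [arrS_eq _ i (mem_range.1 hb) (mem_range.1 he), arrS_eq _ i (mem_range.1 he)
      (mem_range.1 ha)]
    obtain ⟨r, ⟨hr1, hr2⟩, hr3⟩ := h.oneX i _ _ ⟨e, mem_range.1 he⟩ p q h1.1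
    refine ⟨r, ⟨⟨hr1, fun g hg => ?_⟩, ⟨hr2, fun g hg => ?_⟩⟩, fun r' hr' =>
      hr3 r' ⟨hr'.1.1, hr'.2.1⟩⟩
    · rw [hsm] at hg
      refine h1.2 g ((hsm g p q).2 ⟨?_, hg.1⟩)
      refine (h.oneY i ⟨a, mem_range.1 ha⟩ _ _ q r hr1).unique ⟨?_, ?_⟩ ⟨hr2, h1.1⟩
      · conv_lhs => rw [← hg.2]
        rw [hH]; exact hr2
      · conv_lhs => rw [← hg.1]
        rw [hH]; exact h1.1
    · rw [hsm] at hg
      refine h1.2 g ((hsm g p q).2 ⟨hg.2, ?_⟩)
      refine (h.oneZ i _ ⟨b, mem_range.1 hb⟩ _ r p hr2).unique ⟨?_, ?_⟩ ⟨h1.1, hr1⟩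
      · conv_lhs => rw [← hg.2]
        rw [hH]; exact h1.1
      · conv_lhs => rw [← hg.1]
        rw [hH]; exact hr1
  · intro i a ha b hb e he q r h1
    rw [arrS_eq _ i (mem_range.1 hb) (mem_range.1 he)] at h1
    rw [arrS_eq _ i (mem_range.1 he) (mem_range.1 ha), arrS_eq _ i (mem_range.1 ha)
      (mem_range.1 hb)]
    obtain ⟨p, ⟨hr1, hr2⟩, hr3⟩ := h.oneY i ⟨a, mem_range.1 ha⟩ _ _ q r h1.1
    refine ⟨p, ⟨⟨hr1, fun g hg => ?_⟩, ⟨hr2, fun g hg => ?_⟩⟩, fun r' hr' =>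
      hr3 r' ⟨hr'.1.1, hr'.2.1⟩⟩
    · rw [hsm] at hg
      refine h1.2 g ((hsm g q r).2 ⟨?_, hg.1⟩)
      refine (h.oneZ i _ ⟨b, mem_range.1 hb⟩ _ r p hr1).unique ⟨?_, ?_⟩ ⟨hr2, h1.1⟩
      · conv_lhs => rw [← hg.2]
        rw [hH]; exact hr2
      · conv_lhs => rw [← hg.1]
        rw [hH]; exact h1.1
    · rw [hsm] at hg
      refine h1.2 g ((hsm g q r).2 ⟨hg.2, ?_⟩)
      refine (h.oneX i _ _ ⟨e, mem_range.1 he⟩ p q hr2).unique ⟨?_, ?_⟩ ⟨h1.1, hr1⟩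
      · conv_lhs => rw [← hg.2]
        rw [hH]; exact h1.1
      · conv_lhs => rw [← hg.1]
        rw [hH]; exact hr1
  · intro i a ha b hb e he r p h1
    rw [arrS_eq _ i (mem_range.1 he) (mem_range.1 ha)] at h1
    rw [arrS_eq _ i (mem_range.1 ha) (mem_range.1 hb), arrS_eq _ i (mem_range.1 hb)
      (mem_range.1 he)]
    obtain ⟨q, ⟨hr1, hr2⟩, hr3⟩ := h.oneZ i _ ⟨b, mem_range.1 hb⟩ _ r p h1.1
    refine ⟨q, ⟨⟨hr1, fun g hg => ?_⟩, ⟨hr2, fun g hg => ?_⟩⟩, fun r' hr' =>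
      hr3 r' ⟨hr'.1.1, hr'.2.1⟩⟩
    · rw [hsm] at hg
      refine h1.2 g ((hsm g r p).2 ⟨?_, hg.1⟩)
      refine (h.oneX i _ _ ⟨e, mem_range.1 he⟩ p q hr1).unique ⟨?_, ?_⟩ ⟨hr2, h1.1⟩
      · conv_lhs => rw [← hg.2]
        rw [hH]; exact hr2
      · conv_lhs => rw [← hg.1]
        rw [hH]; exact h1.1
    · rw [hsm] at hg
      refine h1.2 g ((hsm g r p).2 ⟨hg.2, ?_⟩)
      refine (h.oneY i ⟨a, mem_range.1 ha⟩ _ _ q r hr2).unique ⟨?_, ?_⟩ ⟨h1.1, hr1⟩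
      · conv_lhs => rw [← hg.2]
        rw [hH]; exact h1.1
      · conv_lhs => rw [← hg.1]
        rw [hH]; exact hr1

/-- the weighted inequality, from the leaves -/
theorem weighted (hG : S_GDS) (hM : S_MNO) {Ω κ : Type} [Fintype Ω] {c : Ω → Ω → κ} {H : Type}
    [Group H] [Finite H] [MulAction H Ω] (hH : ∀ (h : H) (p q : Ω), c (h • p) (h • q) = c p q)
    (K : Subgroup H) (hK : K.Normal) {p r : ℕ} (hp : p.Prime)
    (hcomm : ∀ x y : H, x * y * x⁻¹ * y⁻¹ ∈ K) (hpow : ∀ x : H, x ^ p ∈ K)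
    (hr : p ^ r ≤ K.index) {I : Type} [Fintype I] {l m n : I → ℕ}
    {R : ∀ i, Fin (l i) → Fin (m i) → κ} {S : ∀ i, Fin (m i) → Fin (n i) → κ}
    {T : ∀ i, Fin (n i) → Fin (l i) → κ} (h : RealizesC c l m n R S T) (s : I → ℕ)
    (hs : ∀ i a b, s i ≤ Nat.card (freePairs H c (R i a b))) :
    Real.exp ((r : ℝ) / 360) * ∑ i, ((l i * m i * n i : ℕ) : ℝ) ^ ((2 : ℝ) / 3) * s i ≤
      (Fintype.card Ω : ℝ) ^ 2 := by
  classical
  have hfin : Fintype H := Fintype.ofFinite H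
  obtain ⟨P, hP1, hP2, φ, hφ, hgood⟩ := hG H K hK p r hp hcomm hpow hr
  have hCF := toCF hH h
  set s' : I → ℕ := fun i => if l i * m i * n i = 0 then 0 else s i with hs'
  have hpos : ∀ i, s' i ≠ 0 → 0 < l i ∧ 0 < m i ∧ 0 < n i := by
    intro i hi
    have h1 : l i * m i * n i ≠ 0 := by
      intro h0
      apply hi
      simp only [hs']
      rw [if_pos h0]
    refine ⟨?_, ?_, ?_⟩ <;> refine Nat.pos_of_ne_zero fun h0 => h1 ?_ <;> rw [h0] <;> ring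
  have hle : ∀ i, s' i ≤ s i := by
    intro i
    simp only [hs']
    split_ifs
    · exact Nat.zero_le _
    · exact le_refl _
  have hX : ∀ i, ∀ a ∈ range (l i), ∀ b ∈ range (m i),
      s' i ≤ Nat.card (arrS (fun i a b => freePairs H c (R i a b)) i a b) := by
    intro i a ha b hb
    rw [arrS_eq _ i (mem_range.1 ha) (mem_range.1 hb)]
    exact (hle i).trans (hs i _ _)
  have hY : ∀ i, ∀ b ∈ range (m i), ∀ e ∈ range (n i),
      s' i ≤ Nat.card (arrS (fun i b e => freePairs H c (S i b e)) i b e) := by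
    intro i b hb e he
    by_cases h0 : s' i = 0
    · rw [h0]; exact Nat.zero_le _
    · have h1 := hpos i h0
      exact (hX i 0 (mem_range.2 h1.1) b hb).trans
        (hCF.card_le_Y (mem_range.2 h1.1) hb he)
  have hZ : ∀ i, ∀ e ∈ range (n i), ∀ a ∈ range (l i),
      s' i ≤ Nat.card (arrS (fun i e a => freePairs H c (T i e a)) i e a) := by
    intro i e he a ha
    by_cases h0 : s' i = 0
    · rw [h0]; exact Nat.zero_le _
    · have h1 := hpos i h0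
      exact (hX i a ha 0 (mem_range.2 h1.2.1)).trans
        (hCF.card_le_Z ha (mem_range.2 h1.2.1) he)
  letI := MulAction.compHom Ω φ
  have h1 := hM Ω P (Real.exp (-(r : ℝ) / 360)) (Real.exp_pos _) hgood I _ _ _ _ _ _ s'
    (hCF.comp φ hφ) hX hY hZ
  simp only [card_range] at h1
  have h2 : ∑ i, ((l i * m i * n i : ℕ) : ℝ) ^ ((2 : ℝ) / 3) * s' i =
      ∑ i, ((l i * m i * n i : ℕ) : ℝ) ^ ((2 : ℝ) / 3) * s i := by
    refine Finset.sum_congr rfl fun i _ => ?_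
    simp only [hs']
    split_ifs with h0
    · rw [h0, Nat.cast_zero, Real.zero_rpow (by norm_num)]
      ring
    · rfl
  rw [h2] at h1
  have h3 : Real.exp ((r : ℝ) / 360) * Real.exp (-(r : ℝ) / 360) = 1 := by
    rw [← Real.exp_add]
    have : (r : ℝ) / 360 + -(r : ℝ) / 360 = 0 := by ring
    rw [this, Real.exp_zero]
  calc Real.exp ((r : ℝ) / 360) * ∑ i, ((l i * m i * n i : ℕ) : ℝ) ^ ((2 : ℝ) / 3) * s i
      ≤ Real.exp ((r : ℝ) / 360) * (Real.exp (-(r : ℝ) / 360) * (Fintype.card Ω : ℝ) ^ 2) :=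
        mul_le_mul_of_nonneg_left h1 (Real.exp_pos _).le
    _ = _ := by rw [← mul_assoc, h3, one_mul]

/-- the size of a class -/
noncomputable def size {Ω κ : Type} (c : Ω → Ω → κ) (x : κ) : ℕ :=
  Nat.card {e : Ω × Ω // c e.1 e.2 = x}

theorem sq_le_classes {Ω κ : Type} [Fintype Ω] (c : Ω → Ω → κ) (M : ℕ)
    (hM : ∀ x, size c x ≤ M) :
    Fintype.card Ω ^ 2 ≤ Nat.card (Set.range fun e : Ω × Ω => c e.1 e.2) * M := by
  classical
  have hfin : Fintype (Set.range fun e : Ω × Ω => c e.1 e.2) := Fintype.ofFinite _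
  have h1 : Fintype.card (Ω × Ω) = ∑ x : Set.range fun e : Ω × Ω => c e.1 e.2,
      Nat.card {e : Ω × Ω // c e.1 e.2 = x.1} := by
    have e1 : (Σ x : Set.range fun e : Ω × Ω => c e.1 e.2, {e : Ω × Ω // c e.1 e.2 = x.1}) ≃
        Ω × Ω :=
      { toFun := fun y => y.2.1
        invFun := fun e => ⟨⟨c e.1 e.2, e, rfl⟩, e, rfl⟩
        left_inv := by
          rintro ⟨⟨x, hx⟩, e, he⟩
          change c e.1 e.2 = x at he
          subst he
          rfl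
        right_inv := fun e => rfl }
    rw [← Nat.card_eq_fintype_card, ← Nat.card_congr e1, Nat.card_sigma]
  rw [Fintype.card_prod, ← sq] at h1
  rw [h1, Nat.card_eq_fintype_card]
  calc _ ≤ ∑ _x : Set.range fun e : Ω × Ω => c e.1 e.2, M :=
        Finset.sum_le_sum fun x _ => hM x.1
    _ = _ := by rw [Finset.sum_const, Finset.card_univ, smul_eq_mul]

theorem classes_bound (hG : S_GDS) (hM : S_MNO) {Ω κ : Type} [Fintype Ω] [Nonempty Ω]
    {c : Ω → Ω → κ} {H : Type}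
    [Group H] [Finite H] [MulAction H Ω] (hH : ∀ (h : H) (p q : Ω), c (h • p) (h • q) = c p q)
    (K : Subgroup H) (hK : K.Normal) {p r : ℕ} (hp : p.Prime)
    (hcomm : ∀ x y : H, x * y * x⁻¹ * y⁻¹ ∈ K) (hpow : ∀ x : H, x ^ p ∈ K)
    (hr : p ^ r ≤ K.index) {I : Type} [Fintype I] {l m n : I → ℕ}
    {R : ∀ i, Fin (l i) → Fin (m i) → κ} {S : ∀ i, Fin (m i) → Fin (n i) → κ}
    {T : ∀ i, Fin (n i) → Fin (l i) → κ} (h : RealizesC c l m n R S T) (s : I → ℕ)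
    (hs : ∀ i a b, s i ≤ Nat.card (freePairs H c (R i a b))) {Q : ℝ} (hQ : 1 ≤ Q)
    (hQs : ∀ i x, (size c x : ℝ) ≤ Q * s i) :
    (∑ i, ((l i * m i * n i : ℕ) : ℝ) ^ ((2 : ℝ) / 3)) * (Real.exp ((r : ℝ) / 360) / Q) ≤
      (Nat.card (Set.range fun e : Ω × Ω => c e.1 e.2) : ℝ) := by
  classical
  have h1 := weighted hG hM hH K hK hp hcomm hpow hr h s hs
  obtain ⟨e₀, -, he₀⟩ := Finset.exists_max_image (Finset.univ : Finset (Ω × Ω))
    (fun e => size c (c e.1 e.2)) ⟨Classical.arbitrary _, Finset.mem_univ _⟩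
  set M := size c (c e₀.1 e₀.2) with hMdef
  have hM1 : ∀ x, size c x ≤ M := by
    intro x
    by_cases hx : ∃ e : Ω × Ω, c e.1 e.2 = x
    · obtain ⟨e, rfl⟩ := hx
      exact he₀ e (Finset.mem_univ _)
    · have : IsEmpty {e : Ω × Ω // c e.1 e.2 = x} := ⟨fun e => hx ⟨e.1, e.2⟩⟩
      have h0 : size c x = 0 := Nat.card_of_isEmpty
      rw [h0]
      exact Nat.zero_le _
  have hM0 : 0 < M := by
    have : Nonempty {e : Ω × Ω // c e.1 e.2 = c e₀.1 e₀.2} := ⟨⟨e₀, rfl⟩⟩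
    exact Nat.card_pos
  have h2 := sq_le_classes c M hM1
  set D : ℝ := (Nat.card (Set.range fun e : Ω × Ω => c e.1 e.2) : ℝ) with hD
  have h3 : (Fintype.card Ω : ℝ) ^ 2 ≤ D * M := by
    rw [hD]
    exact_mod_cast h2
  have hM' : (0 : ℝ) < M := by exact_mod_cast hM0
  have hQ0 : (0 : ℝ) < Q := by linarith
  have hE : (0 : ℝ) < Real.exp ((r : ℝ) / 360) := Real.exp_pos _
  have h4 : (∑ i, ((l i * m i * n i : ℕ) : ℝ) ^ ((2 : ℝ) / 3)) * (M : ℝ) ≤
      Q * ∑ i, ((l i * m i * n i : ℕ) : ℝ) ^ ((2 : ℝ) / 3) * s i := by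
    rw [Finset.sum_mul, Finset.mul_sum]
    refine Finset.sum_le_sum fun i _ => ?_
    have h5 : (M : ℝ) ≤ Q * s i := hQs i _
    calc ((l i * m i * n i : ℕ) : ℝ) ^ ((2 : ℝ) / 3) * (M : ℝ)
        ≤ ((l i * m i * n i : ℕ) : ℝ) ^ ((2 : ℝ) / 3) * (Q * s i) :=
          mul_le_mul_of_nonneg_left h5 (by positivity)
      _ = _ := by ring
  have h6 : ((∑ i, ((l i * m i * n i : ℕ) : ℝ) ^ ((2 : ℝ) / 3)) *
      (Real.exp ((r : ℝ) / 360) / Q)) * (M : ℝ) ≤ D * M := by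
    calc ((∑ i, ((l i * m i * n i : ℕ) : ℝ) ^ ((2 : ℝ) / 3)) *
        (Real.exp ((r : ℝ) / 360) / Q)) * (M : ℝ)
        = ((∑ i, ((l i * m i * n i : ℕ) : ℝ) ^ ((2 : ℝ) / 3)) * (M : ℝ)) *
          (Real.exp ((r : ℝ) / 360) / Q) := by ring
      _ ≤ (Q * ∑ i, ((l i * m i * n i : ℕ) : ℝ) ^ ((2 : ℝ) / 3) * s i) *
          (Real.exp ((r : ℝ) / 360) / Q) :=
          mul_le_mul_of_nonneg_right h4 (by positivity)
      _ = Real.exp ((r : ℝ) / 360) * ∑ i, ((l i * m i * n i : ℕ) : ℝ) ^ ((2 : ℝ) / 3) * s i := by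
          field_simp
      _ ≤ D * M := h1.trans h3
  exact le_of_mul_le_mul_right h6 hM'

theorem degrees_bound (hG : S_GDS) (hM : S_MNO) (hA : S_ADK) {Ω κ : Type} [Fintype Ω]
    [DecidableEq Ω] [Nonempty Ω] {c : Ω → Ω → κ} (hc : Coherent c) {H : Type}
    [Group H] [Finite H] [MulAction H Ω] (hH : ∀ (h : H) (p q : Ω), c (h • p) (h • q) = c p q)
    (K : Subgroup H) (hK : K.Normal) {p r : ℕ} (hp : p.Prime)
    (hcomm : ∀ x y : H, x * y * x⁻¹ * y⁻¹ ∈ K) (hpow : ∀ x : H, x ^ p ∈ K)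
    (hr : p ^ r ≤ K.index) {I : Type} [Fintype I] {l m n : I → ℕ}
    {R : ∀ i, Fin (l i) → Fin (m i) → κ} {S : ∀ i, Fin (m i) → Fin (n i) → κ}
    {T : ∀ i, Fin (n i) → Fin (l i) → κ} (h : RealizesC c l m n R S T) (s : I → ℕ)
    (hs : ∀ i a b, s i ≤ Nat.card (freePairs H c (R i a b))) {Q : ℝ} (hQ : 1 ≤ Q)
    (hQs : ∀ i x, (size c x : ℝ) ≤ Q * s i) (k : ℕ) (d : Fin k → ℕ)
    (hd : Nonempty (adj hc ≃ₐ[ℂ] ∀ j, Matrix (Fin (d j)) (Fin (d j)) ℂ)) {ω : ℝ}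
    (hω : 2 ≤ ω) :
    (∑ i, ((l i * m i * n i : ℕ) : ℝ) ^ (ω / 3)) * (Real.exp ((r : ℝ) / 360) / Q) ^ (ω / 2) ≤
      (k : ℝ) ^ (ω / 2 - 1) * ∑ j, (d j : ℝ) ^ ω :=
  pwr2 k k _ d I _ _ ω (hA Ω κ c hc k d hd) ((card_filter_le _ _).trans (by simp)) hω
    (div_pos (Real.exp_pos _) (by linarith))
    (classes_bound hG hM hH K hK hp hcomm hpow hr h s hs hQ hQs)

end Pool.Agent.N726.CC
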