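import Mathlib
import Pool.Agent.N726.CC.Stm4

/-!
# Quasirandom groups of automorphisms of coherent configurations: statements
-/

namespace Pool.Agent.N726.CC

open Finset
open Pool.Agent.N726.BG

/-- the number of the `h` such that `(p, h q)` is in one of the sets -/
noncomputable def nfr (H : Type) [Group H] {Ω : Type} [MulAction H Ω] {I α : Type}
    (A B : I → Finset α) (X : I → α → α → Set (Ω × Ω)) (p q : Ω) : ℕ :=
  Nat.card {h : H // ∃ i, ∃ a ∈ A i, ∃ b ∈ B i, (p, h • q) ∈ X i a b}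

/-- leaf SLI: the bound for the slices -/
def S_SLI : Prop := ∀ (Ω H : Type) [Fintype Ω] [Group H] [Fintype H] [DecidableEq H]
  [MulAction H Ω] (D : ℕ), 1 ≤ D → D ≤ Fintype.card H → Mixing H D →
  ∀ (I α : Type) [Fintype I] (A B C : I → Finset α) (X Y Z : I → α → α → Set (Ω × Ω)),
  CF H A B C X Y Z → ∀ p q r : Ω,
  nfr H A B X p q * nfr H B C Y q r * nfr H C A Z r p * D ≤ 4 * Fintype.card H ^ 3

/-- leaf AVO: averaging over the triangles -/
def S_AVO : Prop := ∀ (Ω H : Type) [Fintype Ω] [Group H] [Fintype H] [MulAction H Ω] (D : ℕ),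
  1 ≤ D → ∀ (I α : Type) [Fintype I] (A B C : I → Finset α)
  (X Y Z : I → α → α → Set (Ω × Ω)), CF H A B C X Y Z →
  (∀ p q r : Ω, nfr H A B X p q * nfr H B C Y q r * nfr H C A Z r p * D ≤
    4 * Fintype.card H ^ 3) → ∀ s : I → ℕ,
  (∀ i, ∀ a ∈ A i, ∀ b ∈ B i, s i ≤ Nat.card (X i a b)) →
  (∀ i, ∀ b ∈ B i, ∀ c ∈ C i, s i ≤ Nat.card (Y i b c)) →
  (∀ i, ∀ c ∈ C i, ∀ a ∈ A i, s i ≤ Nat.card (Z i c a)) →
  ∑ i, (((A i).card * (B i).card * (C i).card : ℕ) : ℝ) ^ ((2 : ℝ) / 3) * s i ≤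
    ((4 : ℝ) / D) ^ ((1 : ℝ) / 3) * (Fintype.card Ω : ℝ) ^ 2

end Pool.Agent.N726.CC
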