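import Mathlib
import Pool.Agent.N726.CC.Asm5
import Pool.Agent.N726.CC.Stm6
import Pool.Agent.N726.BG.Mix

/-!
# Quasirandom groups of automorphisms of coherent configurations: assembly
-/

set_option autoImplicit false

namespace Pool.Agent.N726.CC

open Finset
open Pool.Agent.N726.BG

theorem quasi_weighted (hS : S_SLI) (hA : S_AVO) {Ω κ : Type} [Fintype Ω] {c : Ω → Ω → κ}
    {H : Type} [Group H] [Finite H] [Nontrivial H] [MulAction H Ω]
    (hH : ∀ (h : H) (p q : Ω), c (h • p) (h • q) = c p q) {D : ℕ} (hD : Quasirandom H D)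
    {I : Type} [Fintype I] {l m n : I → ℕ}
    {R : ∀ i, Fin (l i) → Fin (m i) → κ} {S : ∀ i, Fin (m i) → Fin (n i) → κ}
    {T : ∀ i, Fin (n i) → Fin (l i) → κ} (h : RealizesC c l m n R S T) (s : I → ℕ)
    (hs : ∀ i a b, s i ≤ Nat.card (freePairs H c (R i a b))) :
    ((D : ℝ) / 4) ^ ((1 : ℝ) / 3) * ∑ i, ((l i * m i * n i : ℕ) : ℝ) ^ ((2 : ℝ) / 3) * s i ≤
      (Fintype.card Ω : ℝ) ^ 2 := by
  classical
  rcases Nat.eq_zero_or_pos D with hD0 | hD1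
  · subst hD0
    have h0 : (((0 : ℕ) : ℝ) / 4) ^ ((1 : ℝ) / 3) = 0 := by
      rw [Nat.cast_zero, zero_div, Real.zero_rpow (by norm_num)]
    rw [h0, zero_mul]
    positivity
  have hfin : Fintype H := Fintype.ofFinite H
  obtain ⟨hDH, hmix⟩ := mix H D inferInstance hD
  have hCF := toCF hH h
  set s' : I → ℕ := fun i => if l i * m i * n i = 0 then 0 else s i with hs'
  have hpos : ∀ i, s' i ≠ 0 → 0 < l i ∧ 0 < m i ∧ 0 < n i := by
    intro i hi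
    have h1 : l i * m i * n i ≠ 0 := by
      intro h0
      apply hi
      simp only [hs']
      rw [if_pos h0]
    refine ⟨?_, ?_, ?_⟩ <;> refine Nat.pos_of_ne_zero fun h0 => h1 ?_ <;> rw [h0] <;> ring
  have hle : ∀ i, s' i ≤ s i := by
    intro i
    simp only [hs']
    split_ifs
    · exact Nat.zero_le _
    · exact le_refl _
  have hX : ∀ i, ∀ a ∈ range (l i), ∀ b ∈ range (m i),
      s' i ≤ Nat.card (arrS (fun i a b => freePairs H c (R i a b)) i a b) := by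
    intro i a ha b hb
    rw [arrS_eq _ i (mem_range.1 ha) (mem_range.1 hb)]
    exact (hle i).trans (hs i _ _)
  have hY : ∀ i, ∀ b ∈ range (m i), ∀ e ∈ range (n i),
      s' i ≤ Nat.card (arrS (fun i b e => freePairs H c (S i b e)) i b e) := by
    intro i b hb e he
    by_cases h0 : s' i = 0
    · rw [h0]; exact Nat.zero_le _
    · have h1 := hpos i h0
      exact (hX i 0 (mem_range.2 h1.1) b hb).trans
        (hCF.card_le_Y (mem_range.2 h1.1) hb he)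
  have hZ : ∀ i, ∀ e ∈ range (n i), ∀ a ∈ range (l i),
      s' i ≤ Nat.card (arrS (fun i e a => freePairs H c (T i e a)) i e a) := by
    intro i e he a ha
    by_cases h0 : s' i = 0
    · rw [h0]; exact Nat.zero_le _
    · have h1 := hpos i h0
      exact (hX i a ha 0 (mem_range.2 h1.2.1)).trans
        (hCF.card_le_Z ha (mem_range.2 h1.2.1) he)
  have h1 := hA Ω H D hD1 I ℕ _ _ _ _ _ _ hCF
    (hS Ω H D hD1 hDH hmix I ℕ _ _ _ _ _ _ hCF) s' hX hY hZ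
  simp only [card_range] at h1
  have h2 : ∑ i, ((l i * m i * n i : ℕ) : ℝ) ^ ((2 : ℝ) / 3) * s' i =
      ∑ i, ((l i * m i * n i : ℕ) : ℝ) ^ ((2 : ℝ) / 3) * s i := by
    refine Finset.sum_congr rfl fun i _ => ?_
    simp only [hs']
    split_ifs with h0
    · rw [h0, Nat.cast_zero, Real.zero_rpow (by norm_num)]
      ring
    · rfl
  rw [h2] at h1
  have hD' : (0 : ℝ) < D := by exact_mod_cast hD1
  have h3 : ((D : ℝ) / 4) ^ ((1 : ℝ) / 3) * ((4 : ℝ) / D) ^ ((1 : ℝ) / 3) = 1 := by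
    rw [← Real.mul_rpow (by positivity) (by positivity)]
    have : (D : ℝ) / 4 * (4 / D) = 1 := by field_simp
    rw [this, Real.one_rpow]
  calc ((D : ℝ) / 4) ^ ((1 : ℝ) / 3) * ∑ i, ((l i * m i * n i : ℕ) : ℝ) ^ ((2 : ℝ) / 3) * s i
      ≤ ((D : ℝ) / 4) ^ ((1 : ℝ) / 3) *
        (((4 : ℝ) / D) ^ ((1 : ℝ) / 3) * (Fintype.card Ω : ℝ) ^ 2) :=
        mul_le_mul_of_nonneg_left h1 (by positivity)
    _ = _ := by rw [← mul_assoc, h3, one_mul]

/-- from the weighted inequality to the number of the classes -/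
theorem classes_of_weighted {Ω κ : Type} [Fintype Ω] [Nonempty Ω]
    {c : Ω → Ω → κ} {I : Type} [Fintype I] {l m n : I → ℕ} (s : I → ℕ) {E : ℝ} (hE : 0 < E)
    (h1 : E * ∑ i, ((l i * m i * n i : ℕ) : ℝ) ^ ((2 : ℝ) / 3) * s i ≤
      (Fintype.card Ω : ℝ) ^ 2) {Q : ℝ} (hQ : 1 ≤ Q)
    (hQs : ∀ i x, (size c x : ℝ) ≤ Q * s i) :
    (∑ i, ((l i * m i * n i : ℕ) : ℝ) ^ ((2 : ℝ) / 3)) * (E / Q) ≤
      (Nat.card (Set.range fun e : Ω × Ω => c e.1 e.2) : ℝ) := by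
  classical
  obtain ⟨e₀, -, he₀⟩ := Finset.exists_max_image (Finset.univ : Finset (Ω × Ω))
    (fun e => size c (c e.1 e.2)) ⟨Classical.arbitrary _, Finset.mem_univ _⟩
  set M := size c (c e₀.1 e₀.2) with hMdef
  have hM1 : ∀ x, size c x ≤ M := by
    intro x
    by_cases hx : ∃ e : Ω × Ω, c e.1 e.2 = x
    · obtain ⟨e, rfl⟩ := hx
      exact he₀ e (Finset.mem_univ _)
    · have : IsEmpty {e : Ω × Ω // c e.1 e.2 = x} := ⟨fun e => hx ⟨e.1, e.2⟩⟩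
      have h0 : size c x = 0 := Nat.card_of_isEmpty
      rw [h0]
      exact Nat.zero_le _
  have hM0 : 0 < M := by
    have : Nonempty {e : Ω × Ω // c e.1 e.2 = c e₀.1 e₀.2} := ⟨⟨e₀, rfl⟩⟩
    exact Nat.card_pos
  have h2 := sq_le_classes c M hM1
  set D : ℝ := (Nat.card (Set.range fun e : Ω × Ω => c e.1 e.2) : ℝ) with hD
  have h3 : (Fintype.card Ω : ℝ) ^ 2 ≤ D * M := by
    rw [hD]
    exact_mod_cast h2
  have hM' : (0 : ℝ) < M := by exact_mod_cast hM0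
  have hQ0 : (0 : ℝ) < Q := by linarith
  have h4 : (∑ i, ((l i * m i * n i : ℕ) : ℝ) ^ ((2 : ℝ) / 3)) * (M : ℝ) ≤
      Q * ∑ i, ((l i * m i * n i : ℕ) : ℝ) ^ ((2 : ℝ) / 3) * s i := by
    rw [Finset.sum_mul, Finset.mul_sum]
    refine Finset.sum_le_sum fun i _ => ?_
    have h5 : (M : ℝ) ≤ Q * s i := hQs i _
    calc ((l i * m i * n i : ℕ) : ℝ) ^ ((2 : ℝ) / 3) * (M : ℝ)
        ≤ ((l i * m i * n i : ℕ) : ℝ) ^ ((2 : ℝ) / 3) * (Q * s i) :=
          mul_le_mul_of_nonneg_left h5 (by positivity)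
      _ = _ := by ring
  have h6 : ((∑ i, ((l i * m i * n i : ℕ) : ℝ) ^ ((2 : ℝ) / 3)) * (E / Q)) * (M : ℝ) ≤ D * M := by
    calc ((∑ i, ((l i * m i * n i : ℕ) : ℝ) ^ ((2 : ℝ) / 3)) * (E / Q)) * (M : ℝ)
        = ((∑ i, ((l i * m i * n i : ℕ) : ℝ) ^ ((2 : ℝ) / 3)) * (M : ℝ)) * (E / Q) := by ring
      _ ≤ (Q * ∑ i, ((l i * m i * n i : ℕ) : ℝ) ^ ((2 : ℝ) / 3) * s i) * (E / Q) :=
          mul_le_mul_of_nonneg_right h4 (by positivity)
      _ = E * ∑ i, ((l i * m i * n i : ℕ) : ℝ) ^ ((2 : ℝ) / 3) * s i := by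
          field_simp
      _ ≤ D * M := h1.trans h3
  exact le_of_mul_le_mul_right h6 hM'

theorem quasi_degrees (hS : S_SLI) (hA : S_AVO) (hK : S_ADK) {Ω κ : Type} [Fintype Ω]
    [DecidableEq Ω] [Nonempty Ω] {c : Ω → Ω → κ} (hc : Coherent c)
    {H : Type} [Group H] [Finite H] [Nontrivial H] [MulAction H Ω]
    (hH : ∀ (h : H) (p q : Ω), c (h • p) (h • q) = c p q) {D : ℕ} (hD : Quasirandom H D)
    {I : Type} [Fintype I] {l m n : I → ℕ}
    {R : ∀ i, Fin (l i) → Fin (m i) → κ} {S : ∀ i, Fin (m i) → Fin (n i) → κ}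
    {T : ∀ i, Fin (n i) → Fin (l i) → κ} (h : RealizesC c l m n R S T) (s : I → ℕ)
    (hs : ∀ i a b, s i ≤ Nat.card (freePairs H c (R i a b))) {Q : ℝ} (hQ : 1 ≤ Q)
    (hQs : ∀ i x, (size c x : ℝ) ≤ Q * s i) (k : ℕ) (d : Fin k → ℕ)
    (hd : Nonempty (adj hc ≃ₐ[ℂ] ∀ j, Matrix (Fin (d j)) (Fin (d j)) ℂ)) {ω : ℝ}
    (hω : 2 ≤ ω) :
    (∑ i, ((l i * m i * n i : ℕ) : ℝ) ^ (ω / 3)) *
        (((D : ℝ) / 4) ^ ((1 : ℝ) / 3) / Q) ^ (ω / 2) ≤
      (k : ℝ) ^ (ω / 2 - 1) * ∑ j, (d j : ℝ) ^ ω := by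
  rcases Nat.eq_zero_or_pos D with hD0 | hD1
  · subst hD0
    have h0 : (((0 : ℕ) : ℝ) / 4) ^ ((1 : ℝ) / 3) = 0 := by
      rw [Nat.cast_zero, zero_div, Real.zero_rpow (by norm_num)]
    rw [h0, zero_div, Real.zero_rpow (by linarith), mul_zero]
    exact mul_nonneg (Real.rpow_nonneg (Nat.cast_nonneg _) _)
      (Finset.sum_nonneg fun j _ => Real.rpow_nonneg (Nat.cast_nonneg _) _)
  have hD' : (0 : ℝ) < D := by exact_mod_cast hD1
  have hE : (0 : ℝ) < ((D : ℝ) / 4) ^ ((1 : ℝ) / 3) := Real.rpow_pos_of_pos (by positivity) _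
  exact pwr2 k k _ d I _ _ ω (hK Ω κ c hc k d hd) ((card_filter_le _ _).trans (by simp)) hω
    (div_pos hE (by linarith))
    (classes_of_weighted s hE (quasi_weighted hS hA hH hD h s hs) hQ hQs)

end Pool.Agent.N726.CC
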