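import Mathlib
import Pool.Agent.N726.CC.Stm4

/-!
# Coherent configurations with multiplicities and weights: statements
-/

namespace Pool.Agent.N726.CC

open Finset
open Pool.Agent.N726.BG

/-- The triangles with pairs in `X`, `Y`, `Z`. -/
def trs {Ω : Type*} (X Y Z : Set (Ω × Ω)) : Set (Ω × Ω × Ω) :=
  {t | (t.1, t.2.1) ∈ X ∧ (t.2.1, t.2.2) ∈ Y ∧ (t.2.2, t.1) ∈ Z}

/-- The sets of pairs `X i a b`, `Y i b c`, `Z i c a` realize matrix multiplications up to terms of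
positive weight, with multiplicities at most `L`. -/
structure CW (H : Type*) [Group H] {Ω : Type*} [MulAction H Ω] {I α : Type*}
    (A B C : I → Finset α) (X Y Z : I → α → α → Set (Ω × Ω)) (u v w : Ω × Ω → ℤ) (L : ℕ) :
    Prop where
  invX : ∀ i, ∀ a ∈ A i, ∀ b ∈ B i, ∀ e ∈ X i a b, ∀ h : H, h • e ∈ X i a b
  invY : ∀ i, ∀ b ∈ B i, ∀ c ∈ C i, ∀ e ∈ Y i b c, ∀ h : H, h • e ∈ Y i b c
  invZ : ∀ i, ∀ c ∈ C i, ∀ a ∈ A i, ∀ e ∈ Z i c a, ∀ h : H, h • e ∈ Z i c a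
  invu : ∀ (h : H) (e : Ω × Ω), u (h • e) = u e
  invv : ∀ (h : H) (e : Ω × Ω), v (h • e) = v e
  invw : ∀ (h : H) (e : Ω × Ω), w (h • e) = w e
  freeX : ∀ i, ∀ a ∈ A i, ∀ b ∈ B i, ∀ e ∈ X i a b, ∀ h : H, h • e = e → h = 1
  freeY : ∀ i, ∀ b ∈ B i, ∀ c ∈ C i, ∀ e ∈ Y i b c, ∀ h : H, h • e = e → h = 1
  freeZ : ∀ i, ∀ c ∈ C i, ∀ a ∈ A i, ∀ e ∈ Z i c a, ∀ h : H, h • e = e → h = 1
  zero : ∀ i, ∀ a ∈ A i, ∀ b ∈ B i, ∀ c ∈ C i, ∀ p q r, (p, q) ∈ X i a b → (q, r) ∈ Y i b c →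
    (r, p) ∈ Z i c a → u (p, q) + v (q, r) + w (r, p) = 0
  pos : ∀ i j k, ∀ a ∈ A i, ∀ b ∈ B i, ∀ b' ∈ B j, ∀ c ∈ C j, ∀ c' ∈ C k, ∀ a' ∈ A k,
    ∀ p q r, (p, q) ∈ X i a b → (q, r) ∈ Y j b' c → (r, p) ∈ Z k c' a' →
    0 < u (p, q) + v (q, r) + w (r, p) ∨ (i = j ∧ j = k ∧ a = a' ∧ b = b' ∧ c = c')
  upX : ∀ i, ∀ a ∈ A i, ∀ b ∈ B i, ∀ c ∈ C i, ∀ p q, (p, q) ∈ X i a b →
    Nat.card {r // (q, r) ∈ Y i b c ∧ (r, p) ∈ Z i c a} ≤ L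
  upY : ∀ i, ∀ a ∈ A i, ∀ b ∈ B i, ∀ c ∈ C i, ∀ q r, (q, r) ∈ Y i b c →
    Nat.card {p // (r, p) ∈ Z i c a ∧ (p, q) ∈ X i a b} ≤ L
  upZ : ∀ i, ∀ a ∈ A i, ∀ b ∈ B i, ∀ c ∈ C i, ∀ r p, (r, p) ∈ Z i c a →
    Nat.card {q // (p, q) ∈ X i a b ∧ (q, r) ∈ Y i b c} ≤ L

/-- a diagonal family with weights and multiplicities at most `L` -/
structure DW (H : Type*) [Group H] {Ω : Type*} [MulAction H Ω] {D : Type*}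
    (X Y Z : D → Set (Ω × Ω)) (u v w : Ω × Ω → ℤ) (L : ℕ) : Prop where
  invX : ∀ d, ∀ e ∈ X d, ∀ h : H, h • e ∈ X d
  invY : ∀ d, ∀ e ∈ Y d, ∀ h : H, h • e ∈ Y d
  invZ : ∀ d, ∀ e ∈ Z d, ∀ h : H, h • e ∈ Z d
  invu : ∀ (h : H) (e : Ω × Ω), u (h • e) = u e
  invv : ∀ (h : H) (e : Ω × Ω), v (h • e) = v e
  invw : ∀ (h : H) (e : Ω × Ω), w (h • e) = w e
  freeX : ∀ d, ∀ e ∈ X d, ∀ h : H, h • e = e → h = 1
  freeY : ∀ d, ∀ e ∈ Y d, ∀ h : H, h • e = e → h = 1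
  freeZ : ∀ d, ∀ e ∈ Z d, ∀ h : H, h • e = e → h = 1
  zero : ∀ d p q r, (p, q) ∈ X d → (q, r) ∈ Y d → (r, p) ∈ Z d →
    u (p, q) + v (q, r) + w (r, p) = 0
  neg : ∀ d d' d'' p q r, (p, q) ∈ X d → (q, r) ∈ Y d' → (r, p) ∈ Z d'' →
    ¬ (d = d' ∧ d' = d'') → u (p, q) + v (q, r) + w (r, p) < 0
  upX : ∀ d p q, (p, q) ∈ X d → Nat.card {r // (q, r) ∈ Y d ∧ (r, p) ∈ Z d} ≤ L
  upY : ∀ d q r, (q, r) ∈ Y d → Nat.card {p // (r, p) ∈ Z d ∧ (p, q) ∈ X d} ≤ L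
  upZ : ∀ d r p, (r, p) ∈ Z d → Nat.card {q // (p, q) ∈ X d ∧ (q, r) ∈ Y d} ≤ L

/-- leaf SEL: greedy selection -/
def S_SEL : Prop := ∀ (V α β γ : Type) [Finite V] (x : V → α) (y : V → β) (z : V → γ) (L : ℕ),
  (∀ a, Nat.card {t // x t = a} ≤ L) → (∀ b, Nat.card {t // y t = b} ≤ L) →
  (∀ c, Nat.card {t // z t = c} ≤ L) → ∃ S : Set V, Nat.card V ≤ 9 * L ^ 2 * Nat.card S ∧
    ∀ t₁ ∈ S, ∀ t₂ ∈ S, ∀ t, (x t = x t₁ ∨ y t = y t₁ ∨ z t = z t₁) →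
      (x t = x t₂ ∨ y t = y t₂ ∨ z t = z t₂) → t₁ = t₂

/-- selected triangles `(p τ, q τ, r τ)` with label sets -/
structure SF (H : Type*) [Group H] {Ω : Type*} [MulAction H Ω] {V : Type*} {m : ℕ}
    (p q r : V → Ω) (e₁ : Fin m → H) (e : V → Fin m → H) (u v w : Ω × Ω → ℤ) : Prop where
  inj₁ : Function.Injective e₁
  inj : ∀ τ, Function.Injective (e τ)
  invu : ∀ (h : H) (e : Ω × Ω), u (h • e) = u e
  invv : ∀ (h : H) (e : Ω × Ω), v (h • e) = v e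
  invw : ∀ (h : H) (e : Ω × Ω), w (h • e) = w e
  freeX : ∀ τ (h : H), h • p τ = p τ → h • q τ = q τ → h = 1
  freeY : ∀ τ (h : H), h • q τ = q τ → h • r τ = r τ → h = 1
  freeZ : ∀ τ (h : H), h • r τ = r τ → h • p τ = p τ → h = 1
  ownX : ∀ τ τ' (h : H), h • p τ = p τ' → h • q τ = q τ' → τ = τ'
  ownY : ∀ τ τ' (h : H), h • q τ = q τ' → h • r τ = r τ' → τ = τ'
  ownZ : ∀ τ τ' (h : H), h • r τ = r τ' → h • p τ = p τ' → τ = τ'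
  zero : ∀ τ, u (p τ, q τ) + v (q τ, r τ) + w (r τ, p τ) = 0
  neg : ∀ τ₁ τ₂ τ₃ (h₁ h₂ h₃ : H), h₁ • p τ₁ = h₃ • p τ₃ → h₁ • q τ₁ = h₂ • q τ₂ →
    h₂ • r τ₂ = h₃ • r τ₃ → u (p τ₁, q τ₁) + v (q τ₂, r τ₂) + w (r τ₃, p τ₃) < 0 ∨
      (τ₁ = τ₂ ∧ τ₂ = τ₃ ∧ (h₁ = h₂ ∨ ∀ β β', h₁ * e τ₁ β ≠ h₂ * e τ₁ β'))

/-- leaf LFT: the lift to `Ω × H` -/
def S_LFT : Prop := ∀ (Ω H F : Type) [Fintype Ω] [Group H] [Fintype H] [MulAction H Ω] [Field F]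
  (J : Submodule F (H → F)), Iso J → ∀ (V : Type) [Fintype V] (m : ℕ) (p q r : V → Ω)
  (e₁ : Fin m → H) (e : V → Fin m → H) (u v w : Ω × Ω → ℤ), SF H p q r e₁ e u v w →
  Fintype.card V * m ^ 2 ≤
    9 * Fintype.card Ω ^ 2 * (Fintype.card H - Module.finrank F J)

/-- leaf SLC: selection of triangles in a diagonal family -/
def S_SLC : Prop := ∀ (Ω H : Type) [Fintype Ω] [Group H] [Fintype H] [MulAction H Ω]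
  (D : Type) [Fintype D] (s L : ℕ) (X Y Z : D → Set (Ω × Ω)) (u v w : Ω × Ω → ℤ),
  DW H X Y Z u v w L → (∀ d, s ≤ Nat.card (trs (X d) (Y d) (Z d))) →
  ∃ (V : Type) (_ : Fintype V) (m : ℕ) (p q r : V → Ω) (e₁ : Fin m → H) (e : V → Fin m → H),
    SF H p q r e₁ e u v w ∧ Fintype.card D * s * Fintype.card H ≤
      9 * L ^ 2 * (2 * L + 1) ^ 2 * (Fintype.card V * m ^ 2)

/-- leaf BKL: the bound for diagonal families -/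
def S_BKL : Prop := ∀ (Ω H F : Type) [Fintype Ω] [Group H] [Fintype H] [MulAction H Ω] [Field F]
  (J : Submodule F (H → F)), Iso J → ∀ (D : Type) [Fintype D] (s L : ℕ)
  (X Y Z : D → Set (Ω × Ω)) (u v w : Ω × Ω → ℤ), DW H X Y Z u v w L →
  (∀ d, s ≤ Nat.card (trs (X d) (Y d) (Z d))) →
  Fintype.card D * s * Fintype.card H ≤
    81 * L ^ 2 * (2 * L + 1) ^ 2 * Fintype.card Ω ^ 2 * (Fintype.card H - Module.finrank F J)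

/-- leaf BOL: blocks of equal size -/
def S_BOL : Prop := ∀ (Ω H F : Type) [Fintype Ω] [Group H] [Fintype H] [MulAction H Ω] [Field F]
  (J : Submodule F (H → F)), Iso J → ∀ (ι : Type) [Fintype ι] (m s L : ℕ)
  (X Y Z : ι → Fin m → Fin m → Set (Ω × Ω)) (u v w : Ω × Ω → ℤ),
  CW H (fun _ : ι => (univ : Finset (Fin m))) (fun _ => univ) (fun _ => univ) X Y Z u v w L →
  (∀ i a b c, s ≤ Nat.card (trs (X i a b) (Y i b c) (Z i c a))) →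
  Fintype.card ι * m ^ 2 * s * Fintype.card H ≤
    243 * L ^ 2 * (2 * L + 1) ^ 2 * Fintype.card Ω ^ 2 * (Fintype.card H - Module.finrank F J)

/-- leaf CLL: powers, one type -/
def S_CLL : Prop := ∀ (Ω H : Type) [Fintype Ω] [Group H] [Fintype H] [MulAction H Ω] (N : ℕ)
  (t : ℝ), 0 ≤ t → Good (Fin 3 × Fin N → H) t → ∀ (I : Type) [Fintype I] [DecidableEq I]
  (A B C : I → Finset ℕ) (X Y Z : I → ℕ → ℕ → Set (Ω × Ω)) (u v w : Ω × Ω → ℤ) (L : ℕ),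
  1 ≤ L → ∀ s : I → ℕ, CW H A B C X Y Z u v w L →
  (∀ i, ∀ a ∈ A i, ∀ b ∈ B i, ∀ c ∈ C i, s i ≤ Nat.card (trs (X i a b) (Y i b c) (Z i c a))) →
  ∀ (τ : I → Fin (N + 1)) (w₀ : Fin N → I), N580.typ w₀ = τ →
  ((Finset.univ.filter fun w : Fin N → I => N580.typ w = τ).card : ℝ) ^ 3 *
    (((∏ t, (A (w₀ t)).card) * (∏ t, (B (w₀ t)).card) * (∏ t, (C (w₀ t)).card) : ℕ) : ℝ) ^ 2 *
    (∏ t, (s (w₀ t) : ℝ)) ^ 3 ≤ 2187 * (L : ℝ) ^ (12 * N) * (Fintype.card Ω : ℝ) ^ (6 * N) * t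

/-- leaf MNL: the main inequality from powers -/
def S_MNL : Prop := ∀ (Ω H : Type) [Fintype Ω] [Group H] [Fintype H] [MulAction H Ω] (ρ : ℝ),
  0 < ρ → (∀ N : ℕ, 1 ≤ N → Good (Fin 3 × Fin N → H) (ρ ^ (3 * N))) →
  ∀ (I : Type) [Fintype I] (A B C : I → Finset ℕ) (X Y Z : I → ℕ → ℕ → Set (Ω × Ω))
  (u v w : Ω × Ω → ℤ) (L : ℕ), 1 ≤ L → ∀ s : I → ℕ, CW H A B C X Y Z u v w L →
  (∀ i, ∀ a ∈ A i, ∀ b ∈ B i, ∀ c ∈ C i, s i ≤ Nat.card (trs (X i a b) (Y i b c) (Z i c a))) →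
  ∑ i, (((A i).card * (B i).card * (C i).card : ℕ) : ℝ) ^ ((2 : ℝ) / 3) * s i ≤
    (L : ℝ) ^ 4 * ρ * (Fintype.card Ω : ℝ) ^ 2

end Pool.Agent.N726.CC
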