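import Mathlib
import Pool.Agent.N726.CC.Asm6
import Pool.Agent.N726.CC.Stm7

/-!
# Coherent configurations with multiplicities and weights: assembly
-/

set_option autoImplicit false

namespace Pool.Agent.N726.CC

open Finset
open Pool.Agent.N726.BG

theorem bkl (h1 : S_SLC) (h2 : S_LFT) : S_BKL := by
  intro Ω H F _ _ _ _ _ J hJ D _ s L X Y Z u v w hD hs
  obtain ⟨V, hV, m, p, q, r, e₁, e, hSF, hcard⟩ := h1 Ω H D s L X Y Z u v w hD hs
  have h3 := h2 Ω H F J hJ V m p q r e₁ e u v w hSF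
  refine hcard.trans ?_
  calc 9 * L ^ 2 * (2 * L + 1) ^ 2 * (Fintype.card V * m ^ 2)
      ≤ 9 * L ^ 2 * (2 * L + 1) ^ 2 *
        (9 * Fintype.card Ω ^ 2 * (Fintype.card H - Module.finrank F J)) :=
        Nat.mul_le_mul_left _ h3
    _ = _ := by ring

theorem CW.comp {H P : Type} [Group H] [Group P] {Ω : Type} [MulAction H Ω] {I α : Type}
    {A B C : I → Finset α} {X Y Z : I → α → α → Set (Ω × Ω)} {u v w : Ω × Ω → ℤ} {L : ℕ}
    (h : CW H A B C X Y Z u v w L) (φ : P →* H) (hφ : Function.Injective φ) :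
    letI := MulAction.compHom Ω φ
    CW P A B C X Y Z u v w L := by
  letI := MulAction.compHom Ω φ
  exact
  { invX := fun i a ha b hb e he g => h.invX i a ha b hb e he (φ g)
    invY := fun i a ha b hb e he g => h.invY i a ha b hb e he (φ g)
    invZ := fun i a ha b hb e he g => h.invZ i a ha b hb e he (φ g)
    invu := fun g e => h.invu (φ g) e
    invv := fun g e => h.invv (φ g) e
    invw := fun g e => h.invw (φ g) e
    freeX := fun i a ha b hb e he g hg => hφ ((h.freeX i a ha b hb e he (φ g) hg).trans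
      φ.map_one.symm)
    freeY := fun i a ha b hb e he g hg => hφ ((h.freeY i a ha b hb e he (φ g) hg).trans
      φ.map_one.symm)
    freeZ := fun i a ha b hb e he g hg => hφ ((h.freeZ i a ha b hb e he (φ g) hg).trans
      φ.map_one.symm)
    zero := h.zero
    pos := h.pos
    upX := h.upX
    upY := h.upY
    upZ := h.upZ }

/-- The classes of the colours `R i a b`, `S i b e`, `T i e a` realize matrix multiplications up to
terms of positive weight; every pair is in at most `L` triangles. -/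
structure RealizesW {Ω κ : Type} (c : Ω → Ω → κ) {I : Type} (l m n : I → ℕ)
    (R : ∀ i, Fin (l i) → Fin (m i) → κ) (S : ∀ i, Fin (m i) → Fin (n i) → κ)
    (T : ∀ i, Fin (n i) → Fin (l i) → κ) (u v w : κ → ℤ) (L : ℕ) : Prop where
  zero : ∀ i a b e, u (R i a b) + v (S i b e) + w (T i e a) = 0
  pos : ∀ i j k (a : Fin (l i)) (b : Fin (m i)) (b' : Fin (m j)) (e : Fin (n j))
    (e' : Fin (n k)) (a' : Fin (l k)) (p q r : Ω), c p q = R i a b → c q r = S j b' e →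
    c r p = T k e' a' → 0 < u (R i a b) + v (S j b' e) + w (T k e' a') ∨
      (i = j ∧ j = k ∧ (a : ℕ) = a' ∧ (b : ℕ) = b' ∧ (e : ℕ) = e')
  upX : ∀ i a b e p q, c p q = R i a b → Nat.card {r // c q r = S i b e ∧ c r p = T i e a} ≤ L
  upY : ∀ i a b e q r, c q r = S i b e → Nat.card {p // c r p = T i e a ∧ c p q = R i a b} ≤ L
  upZ : ∀ i a b e r p, c r p = T i e a → Nat.card {q // c p q = R i a b ∧ c q r = S i b e} ≤ L

theorem toCW {H : Type} [Group H] {Ω κ : Type} [Finite Ω] [MulAction H Ω] {c : Ω → Ω → κ}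
    (hH : ∀ (h : H) (p q : Ω), c (h • p) (h • q) = c p q) {I : Type} {l m n : I → ℕ}
    {R : ∀ i, Fin (l i) → Fin (m i) → κ} {S : ∀ i, Fin (m i) → Fin (n i) → κ}
    {T : ∀ i, Fin (n i) → Fin (l i) → κ} {u v w : κ → ℤ} {L : ℕ}
    (h : RealizesW c l m n R S T u v w L) :
    CW H (fun i => range (l i)) (fun i => range (m i)) (fun i => range (n i))
      (arrS fun i a b => freePairs H c (R i a b)) (arrS fun i b e => freePairs H c (S i b e))
      (arrS fun i e a => freePairs H c (T i e a)) (fun e => u (c e.1 e.2)) (fun e => v (c e.1 e.2))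
      (fun e => w (c e.1 e.2)) L := by
  have hinv : ∀ x, ∀ e ∈ freePairs H c x, ∀ g : H, g • e ∈ freePairs H c x := by
    rintro x ⟨p, q⟩ ⟨h1, h2⟩ g
    refine ⟨(hH g p q).trans h1, fun g' hg' => ?_⟩
    have h3 := h2 (g⁻¹ * g' * g) (by
      rw [mul_smul, mul_smul, hg', inv_smul_smul])
    have h4 : g' = g * (g⁻¹ * g' * g) * g⁻¹ := by group
    rw [h4, h3]
    group
  constructor
  · intro i a ha b hb e he g
    rw [arrS_eq _ i (mem_range.1 ha) (mem_range.1 hb)] at he ⊢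
    exact hinv _ e he g
  · intro i a ha b hb e he g
    rw [arrS_eq _ i (mem_range.1 ha) (mem_range.1 hb)] at he ⊢
    exact hinv _ e he g
  · intro i a ha b hb e he g
    rw [arrS_eq _ i (mem_range.1 ha) (mem_range.1 hb)] at he ⊢
    exact hinv _ e he g
  · intro g e
    exact congrArg u (hH g e.1 e.2)
  · intro g e
    exact congrArg v (hH g e.1 e.2)
  · intro g e
    exact congrArg w (hH g e.1 e.2)
  · intro i a ha b hb e he g hg
    rw [arrS_eq _ i (mem_range.1 ha) (mem_range.1 hb)] at he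
    exact he.2 g hg
  · intro i a ha b hb e he g hg
    rw [arrS_eq _ i (mem_range.1 ha) (mem_range.1 hb)] at he
    exact he.2 g hg
  · intro i a ha b hb e he g hg
    rw [arrS_eq _ i (mem_range.1 ha) (mem_range.1 hb)] at he
    exact he.2 g hg
  · intro i a ha b hb e he p q r h1 h2 h3
    rw [arrS_eq _ i (mem_range.1 ha) (mem_range.1 hb)] at h1
    rw [arrS_eq _ i (mem_range.1 hb) (mem_range.1 he)] at h2
    rw [arrS_eq _ i (mem_range.1 he) (mem_range.1 ha)] at h3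
    have e1 : c p q = _ := h1.1
    have e2 : c q r = _ := h2.1
    have e3 : c r p = _ := h3.1
    simp only [e1, e2, e3]
    exact h.zero i _ _ _
  · intro i j k a ha b hb b' hb' e he e' he' a' ha' p q r h1 h2 h3
    rw [arrS_eq _ i (mem_range.1 ha) (mem_range.1 hb)] at h1
    rw [arrS_eq _ j (mem_range.1 hb') (mem_range.1 he)] at h2
    rw [arrS_eq _ k (mem_range.1 he') (mem_range.1 ha')] at h3
    have e1 : c p q = _ := h1.1
    have e2 : c q r = _ := h2.1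
    have e3 : c r p = _ := h3.1
    simp only [e1, e2, e3]
    exact h.pos i j k _ _ _ _ _ _ p q r e1 e2 e3
  · intro i a ha b hb e he p q h1
    rw [arrS_eq _ i (mem_range.1 ha) (mem_range.1 hb)] at h1
    rw [arrS_eq _ i (mem_range.1 hb) (mem_range.1 he), arrS_eq _ i (mem_range.1 he)
      (mem_range.1 ha)]
    refine le_trans ?_ (h.upX i _ _ ⟨e, mem_range.1 he⟩ p q h1.1)
    exact Nat.card_le_card_of_injective (fun x => ⟨x.1, x.2.1.1, x.2.2.1⟩)
      fun x y hxy => Subtype.ext (Subtype.mk.inj hxy)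
  · intro i a ha b hb e he q r h1
    rw [arrS_eq _ i (mem_range.1 hb) (mem_range.1 he)] at h1
    rw [arrS_eq _ i (mem_range.1 he) (mem_range.1 ha), arrS_eq _ i (mem_range.1 ha)
      (mem_range.1 hb)]
    refine le_trans ?_ (h.upY i ⟨a, mem_range.1 ha⟩ _ _ q r h1.1)
    exact Nat.card_le_card_of_injective (fun x => ⟨x.1, x.2.1.1, x.2.2.1⟩)
      fun x y hxy => Subtype.ext (Subtype.mk.inj hxy)
  · intro i a ha b hb e he r p h1
    rw [arrS_eq _ i (mem_range.1 he) (mem_range.1 ha)] at h1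
    rw [arrS_eq _ i (mem_range.1 ha) (mem_range.1 hb), arrS_eq _ i (mem_range.1 hb)
      (mem_range.1 he)]
    refine le_trans ?_ (h.upZ i _ ⟨b, mem_range.1 hb⟩ _ r p h1.1)
    exact Nat.card_le_card_of_injective (fun x => ⟨x.1, x.2.1.1, x.2.2.1⟩)
      fun x y hxy => Subtype.ext (Subtype.mk.inj hxy)

/-- the weighted inequality with multiplicities and weights -/
theorem weightedL (hG : S_GDS) (hM : S_MNL) {Ω κ : Type} [Fintype Ω] {c : Ω → Ω → κ} {H : Type}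
    [Group H] [Finite H] [MulAction H Ω] (hH : ∀ (h : H) (p q : Ω), c (h • p) (h • q) = c p q)
    (K : Subgroup H) (hK : K.Normal) {p r : ℕ} (hp : p.Prime)
    (hcomm : ∀ x y : H, x * y * x⁻¹ * y⁻¹ ∈ K) (hpow : ∀ x : H, x ^ p ∈ K)
    (hr : p ^ r ≤ K.index) {I : Type} [Fintype I] {l m n : I → ℕ}
    {R : ∀ i, Fin (l i) → Fin (m i) → κ} {S : ∀ i, Fin (m i) → Fin (n i) → κ}
    {T : ∀ i, Fin (n i) → Fin (l i) → κ} {u v w : κ → ℤ} {L : ℕ} (hL : 1 ≤ L)
    (h : RealizesW c l m n R S T u v w L) (s : I → ℕ)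
    (hs : ∀ i a b e, s i ≤ Nat.card (trs (freePairs H c (R i a b)) (freePairs H c (S i b e))
      (freePairs H c (T i e a)))) :
    Real.exp ((r : ℝ) / 360) / (L : ℝ) ^ 4 *
      ∑ i, ((l i * m i * n i : ℕ) : ℝ) ^ ((2 : ℝ) / 3) * s i ≤ (Fintype.card Ω : ℝ) ^ 2 := by
  classical
  have hfin : Fintype H := Fintype.ofFinite H
  obtain ⟨P, hP1, hP2, φ, hφ, hgood⟩ := hG H K hK p r hp hcomm hpow hr
  have hCW := toCW hH h
  letI := MulAction.compHom Ω φ
  have h1 := hM Ω P (Real.exp (-(r : ℝ) / 360)) (Real.exp_pos _) hgood I _ _ _ _ _ _ _ _ _ L hL s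
    (hCW.comp φ hφ) (by
      intro i a ha b hb e he
      rw [arrS_eq _ i (mem_range.1 ha) (mem_range.1 hb),
        arrS_eq _ i (mem_range.1 hb) (mem_range.1 he),
        arrS_eq _ i (mem_range.1 he) (mem_range.1 ha)]
      exact hs i _ _ _)
  simp only [card_range] at h1
  have hL0 : (0 : ℝ) < L := by exact_mod_cast hL
  have h3 : Real.exp ((r : ℝ) / 360) * Real.exp (-(r : ℝ) / 360) = 1 := by
    rw [← Real.exp_add]
    have : (r : ℝ) / 360 + -(r : ℝ) / 360 = 0 := by ring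
    rw [this, Real.exp_zero]
  calc Real.exp ((r : ℝ) / 360) / (L : ℝ) ^ 4 *
      ∑ i, ((l i * m i * n i : ℕ) : ℝ) ^ ((2 : ℝ) / 3) * s i
      ≤ Real.exp ((r : ℝ) / 360) / (L : ℝ) ^ 4 *
        ((L : ℝ) ^ 4 * Real.exp (-(r : ℝ) / 360) * (Fintype.card Ω : ℝ) ^ 2) :=
        mul_le_mul_of_nonneg_left h1 (by positivity)
    _ = (Real.exp ((r : ℝ) / 360) * Real.exp (-(r : ℝ) / 360)) * (Fintype.card Ω : ℝ) ^ 2 := by
        field_simp
    _ = _ := by rw [h3, one_mul]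

/-- from the weighted inequality to the number of the classes -/
theorem classes_of_weighted' {Ω κ : Type} [Fintype Ω] [Nonempty Ω]
    {c : Ω → Ω → κ} {I : Type} [Fintype I] {l m n : I → ℕ} (s : I → ℕ) {E : ℝ} (hE : 0 < E)
    (h1 : E * ∑ i, ((l i * m i * n i : ℕ) : ℝ) ^ ((2 : ℝ) / 3) * s i ≤
      (Fintype.card Ω : ℝ) ^ 2) {Q : ℝ} (hQ0 : 0 < Q)
    (hQs : ∀ i x, (size c x : ℝ) ≤ Q * s i) :
    (∑ i, ((l i * m i * n i : ℕ) : ℝ) ^ ((2 : ℝ) / 3)) * (E / Q) ≤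
      (Nat.card (Set.range fun e : Ω × Ω => c e.1 e.2) : ℝ) := by
  classical
  obtain ⟨e₀, -, he₀⟩ := Finset.exists_max_image (Finset.univ : Finset (Ω × Ω))
    (fun e => size c (c e.1 e.2)) ⟨Classical.arbitrary _, Finset.mem_univ _⟩
  set M := size c (c e₀.1 e₀.2) with hMdef
  have hM1 : ∀ x, size c x ≤ M := by
    intro x
    by_cases hx : ∃ e : Ω × Ω, c e.1 e.2 = x
    · obtain ⟨e, rfl⟩ := hx
      exact he₀ e (Finset.mem_univ _)
    · have : IsEmpty {e : Ω × Ω // c e.1 e.2 = x} := ⟨fun e => hx ⟨e.1, e.2⟩⟩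
      have h0 : size c x = 0 := Nat.card_of_isEmpty
      rw [h0]
      exact Nat.zero_le _
  have hM0 : 0 < M := by
    have : Nonempty {e : Ω × Ω // c e.1 e.2 = c e₀.1 e₀.2} := ⟨⟨e₀, rfl⟩⟩
    exact Nat.card_pos
  have h2 := sq_le_classes c M hM1
  set D : ℝ := (Nat.card (Set.range fun e : Ω × Ω => c e.1 e.2) : ℝ) with hD
  have h3 : (Fintype.card Ω : ℝ) ^ 2 ≤ D * M := by
    rw [hD]
    exact_mod_cast h2
  have hM' : (0 : ℝ) < M := by exact_mod_cast hM0
  have h4 : (∑ i, ((l i * m i * n i : ℕ) : ℝ) ^ ((2 : ℝ) / 3)) * (M : ℝ) ≤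
      Q * ∑ i, ((l i * m i * n i : ℕ) : ℝ) ^ ((2 : ℝ) / 3) * s i := by
    rw [Finset.sum_mul, Finset.mul_sum]
    refine Finset.sum_le_sum fun i _ => ?_
    have h5 : (M : ℝ) ≤ Q * s i := hQs i _
    calc ((l i * m i * n i : ℕ) : ℝ) ^ ((2 : ℝ) / 3) * (M : ℝ)
        ≤ ((l i * m i * n i : ℕ) : ℝ) ^ ((2 : ℝ) / 3) * (Q * s i) :=
          mul_le_mul_of_nonneg_left h5 (by positivity)
      _ = _ := by ring
  have h6 : ((∑ i, ((l i * m i * n i : ℕ) : ℝ) ^ ((2 : ℝ) / 3)) * (E / Q)) * (M : ℝ) ≤ D * M := by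
    calc ((∑ i, ((l i * m i * n i : ℕ) : ℝ) ^ ((2 : ℝ) / 3)) * (E / Q)) * (M : ℝ)
        = ((∑ i, ((l i * m i * n i : ℕ) : ℝ) ^ ((2 : ℝ) / 3)) * (M : ℝ)) * (E / Q) := by ring
      _ ≤ (Q * ∑ i, ((l i * m i * n i : ℕ) : ℝ) ^ ((2 : ℝ) / 3) * s i) * (E / Q) :=
          mul_le_mul_of_nonneg_right h4 (by positivity)
      _ = E * ∑ i, ((l i * m i * n i : ℕ) : ℝ) ^ ((2 : ℝ) / 3) * s i := by
          field_simp
      _ ≤ D * M := h1.trans h3
  exact le_of_mul_le_mul_right h6 hM'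

theorem degreesL (hG : S_GDS) (hM : S_MNL) (hA : S_ADK) {Ω κ : Type} [Fintype Ω]
    [DecidableEq Ω] [Nonempty Ω] {c : Ω → Ω → κ} (hc : Coherent c) {H : Type}
    [Group H] [Finite H] [MulAction H Ω] (hH : ∀ (h : H) (p q : Ω), c (h • p) (h • q) = c p q)
    (K : Subgroup H) (hK : K.Normal) {p r : ℕ} (hp : p.Prime)
    (hcomm : ∀ x y : H, x * y * x⁻¹ * y⁻¹ ∈ K) (hpow : ∀ x : H, x ^ p ∈ K)
    (hr : p ^ r ≤ K.index) {I : Type} [Fintype I] {l m n : I → ℕ}
    {R : ∀ i, Fin (l i) → Fin (m i) → κ} {S : ∀ i, Fin (m i) → Fin (n i) → κ}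
    {T : ∀ i, Fin (n i) → Fin (l i) → κ} {u v w : κ → ℤ} {L : ℕ} (hL : 1 ≤ L)
    (h : RealizesW c l m n R S T u v w L) (s : I → ℕ)
    (hs : ∀ i a b e, s i ≤ Nat.card (trs (freePairs H c (R i a b)) (freePairs H c (S i b e))
      (freePairs H c (T i e a)))) {Q : ℝ} (hQ : 0 < Q)
    (hQs : ∀ i x, (size c x : ℝ) ≤ Q * s i) (k : ℕ) (d : Fin k → ℕ)
    (hd : Nonempty (adj hc ≃ₐ[ℂ] ∀ j, Matrix (Fin (d j)) (Fin (d j)) ℂ)) {ω : ℝ}
    (hω : 2 ≤ ω) :
    (∑ i, ((l i * m i * n i : ℕ) : ℝ) ^ (ω / 3)) *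
        (Real.exp ((r : ℝ) / 360) / (L : ℝ) ^ 4 / Q) ^ (ω / 2) ≤
      (k : ℝ) ^ (ω / 2 - 1) * ∑ j, (d j : ℝ) ^ ω := by
  have hL0 : (0 : ℝ) < L := by exact_mod_cast hL
  have hE : (0 : ℝ) < Real.exp ((r : ℝ) / 360) / (L : ℝ) ^ 4 :=
    div_pos (Real.exp_pos _) (by positivity)
  exact pwr2 k k _ d I _ _ ω (hA Ω κ c hc k d hd) ((card_filter_le _ _).trans (by simp)) hω
    (div_pos hE hQ)
    (classes_of_weighted' s hE (weightedL hG hM hH K hK hp hcomm hpow hr hL h s hs) hQ hQs)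

end Pool.Agent.N726.CC
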