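import Mathlib
import Pool.Agent.N726.CC.Stm6
import Pool.Agent.N726.CC.Stm7

/-!
# Quasirandom groups of automorphisms, structure constants at most `L`: statements
-/

namespace Pool.Agent.N726.CC

open Finset
open Pool.Agent.N726.BG

/-- leaf SLL: the bound for the slices -/
def S_SLL : Prop := ∀ (Ω H : Type) [Fintype Ω] [Group H] [Fintype H] [DecidableEq H]
  [MulAction H Ω] (D : ℕ), 1 ≤ D → D ≤ Fintype.card H → Mixing H D →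
  ∀ (I α : Type) [Fintype I] (A B C : I → Finset α) (X Y Z : I → α → α → Set (Ω × Ω)) (L : ℕ),
  1 ≤ L → CW H A B C X Y Z (fun _ => 0) (fun _ => 0) (fun _ => 0) L →
  ∀ p q r : Ω, Nat.card {h : H // ∃ i, ∃ a ∈ A i, ∃ b ∈ B i, ∃ c ∈ C i,
      ∃ t, (p, h • q) ∈ X i a b ∧ (h • q, t) ∈ Y i b c ∧ (t, p) ∈ Z i c a} *
    Nat.card {h : H // ∃ i, ∃ a ∈ A i, ∃ b ∈ B i, ∃ c ∈ C i,
      ∃ t, (t, q) ∈ X i a b ∧ (q, h • r) ∈ Y i b c ∧ (h • r, t) ∈ Z i c a} *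
    Nat.card {h : H // ∃ i, ∃ a ∈ A i, ∃ b ∈ B i, ∃ c ∈ C i,
      ∃ t, (h • p, t) ∈ X i a b ∧ (t, r) ∈ Y i b c ∧ (r, h • p) ∈ Z i c a} * D ≤
    4 * L ^ 2 * Fintype.card H ^ 3

/-- leaf AVL: averaging over the triangles -/
def S_AVL : Prop := ∀ (Ω H : Type) [Fintype Ω] [Group H] [Fintype H] [MulAction H Ω] (D : ℕ),
  1 ≤ D → ∀ (I α : Type) [Fintype I] (A B C : I → Finset α)
  (X Y Z : I → α → α → Set (Ω × Ω)) (L : ℕ), 1 ≤ L →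
  CW H A B C X Y Z (fun _ => 0) (fun _ => 0) (fun _ => 0) L →
  (∀ p q r : Ω, Nat.card {h : H // ∃ i, ∃ a ∈ A i, ∃ b ∈ B i, ∃ c ∈ C i,
      ∃ t, (p, h • q) ∈ X i a b ∧ (h • q, t) ∈ Y i b c ∧ (t, p) ∈ Z i c a} *
    Nat.card {h : H // ∃ i, ∃ a ∈ A i, ∃ b ∈ B i, ∃ c ∈ C i,
      ∃ t, (t, q) ∈ X i a b ∧ (q, h • r) ∈ Y i b c ∧ (h • r, t) ∈ Z i c a} *
    Nat.card {h : H // ∃ i, ∃ a ∈ A i, ∃ b ∈ B i, ∃ c ∈ C i,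
      ∃ t, (h • p, t) ∈ X i a b ∧ (t, r) ∈ Y i b c ∧ (r, h • p) ∈ Z i c a} * D ≤
    4 * L ^ 2 * Fintype.card H ^ 3) → ∀ s : I → ℕ,
  (∀ i, ∀ a ∈ A i, ∀ b ∈ B i, ∀ c ∈ C i, s i ≤ Nat.card (trs (X i a b) (Y i b c) (Z i c a))) →
  ∑ i, (((A i).card * (B i).card * (C i).card : ℕ) : ℝ) ^ ((2 : ℝ) / 3) * s i ≤
    L * ((4 * (L : ℝ) ^ 2) / D) ^ ((1 : ℝ) / 3) * (Fintype.card Ω : ℝ) ^ 2

end Pool.Agent.N726.CC
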