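import Mathlib
import Pool.Agent.N726.CC.Asm7
import Pool.Agent.N726.CC.Stm8

/-!
# Quasirandom groups of automorphisms, structure constants at most `L`: assembly
-/

set_option autoImplicit false

namespace Pool.Agent.N726.CC

open Finset
open Pool.Agent.N726.BG

theorem quasiL_weighted (hS : S_SLL) (hA : S_AVL) {Ω κ : Type} [Fintype Ω] {c : Ω → Ω → κ}
    {H : Type} [Group H] [Finite H] [Nontrivial H] [MulAction H Ω]
    (hH : ∀ (h : H) (p q : Ω), c (h • p) (h • q) = c p q) {D : ℕ} (hD : Quasirandom H D)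
    {I : Type} [Fintype I] {l m n : I → ℕ}
    {R : ∀ i, Fin (l i) → Fin (m i) → κ} {S : ∀ i, Fin (m i) → Fin (n i) → κ}
    {T : ∀ i, Fin (n i) → Fin (l i) → κ} {L : ℕ} (hL : 1 ≤ L)
    (h : RealizesW c l m n R S T (fun _ => 0) (fun _ => 0) (fun _ => 0) L) (s : I → ℕ)
    (hs : ∀ i a b e, s i ≤ Nat.card (trs (freePairs H c (R i a b)) (freePairs H c (S i b e))
      (freePairs H c (T i e a)))) :
    ((D : ℝ) / (4 * (L : ℝ) ^ 5)) ^ ((1 : ℝ) / 3) *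
      ∑ i, ((l i * m i * n i : ℕ) : ℝ) ^ ((2 : ℝ) / 3) * s i ≤ (Fintype.card Ω : ℝ) ^ 2 := by
  classical
  rcases Nat.eq_zero_or_pos D with hD0 | hD1
  · subst hD0
    have h0 : (((0 : ℕ) : ℝ) / (4 * (L : ℝ) ^ 5)) ^ ((1 : ℝ) / 3) = 0 := by
      rw [Nat.cast_zero, zero_div, Real.zero_rpow (by norm_num)]
    rw [h0, zero_mul]
    positivity
  have hfin : Fintype H := Fintype.ofFinite H
  obtain ⟨hDH, hmix⟩ := mix H D inferInstance hD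
  have hCW := toCW hH h
  have h1 := hA Ω H D hD1 I ℕ _ _ _ _ _ _ L hL hCW
    (hS Ω H D hD1 hDH hmix I ℕ _ _ _ _ _ _ L hL hCW) s (by
      intro i a ha b hb e he
      rw [arrS_eq _ i (mem_range.1 ha) (mem_range.1 hb),
        arrS_eq _ i (mem_range.1 hb) (mem_range.1 he),
        arrS_eq _ i (mem_range.1 he) (mem_range.1 ha)]
      exact hs i _ _ _)
  simp only [card_range] at h1
  have hD' : (0 : ℝ) < D := by exact_mod_cast hD1
  have hL0 : (0 : ℝ) < L := by exact_mod_cast hL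
  have h2 : (L : ℝ) * ((4 * (L : ℝ) ^ 2) / D) ^ ((1 : ℝ) / 3) =
      ((4 * (L : ℝ) ^ 5) / D) ^ ((1 : ℝ) / 3) := by
    have h3 : (L : ℝ) = ((L : ℝ) ^ 3) ^ ((1 : ℝ) / 3) := by
      rw [← Real.rpow_natCast, ← Real.rpow_mul hL0.le]
      norm_num
    calc (L : ℝ) * ((4 * (L : ℝ) ^ 2) / D) ^ ((1 : ℝ) / 3)
        = ((L : ℝ) ^ 3) ^ ((1 : ℝ) / 3) * ((4 * (L : ℝ) ^ 2) / D) ^ ((1 : ℝ) / 3) := by
          rw [← h3]
      _ = ((L : ℝ) ^ 3 * ((4 * (L : ℝ) ^ 2) / D)) ^ ((1 : ℝ) / 3) := by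
          rw [Real.mul_rpow (by positivity) (by positivity)]
      _ = _ := by
          congr 1
          ring
  rw [h2] at h1
  have h3 : ((D : ℝ) / (4 * (L : ℝ) ^ 5)) ^ ((1 : ℝ) / 3) *
      ((4 * (L : ℝ) ^ 5) / D) ^ ((1 : ℝ) / 3) = 1 := by
    rw [← Real.mul_rpow (by positivity) (by positivity)]
    have : (D : ℝ) / (4 * (L : ℝ) ^ 5) * ((4 * (L : ℝ) ^ 5) / D) = 1 := by field_simp
    rw [this, Real.one_rpow]
  calc ((D : ℝ) / (4 * (L : ℝ) ^ 5)) ^ ((1 : ℝ) / 3) *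
      ∑ i, ((l i * m i * n i : ℕ) : ℝ) ^ ((2 : ℝ) / 3) * s i
      ≤ ((D : ℝ) / (4 * (L : ℝ) ^ 5)) ^ ((1 : ℝ) / 3) *
        (((4 * (L : ℝ) ^ 5) / D) ^ ((1 : ℝ) / 3) * (Fintype.card Ω : ℝ) ^ 2) :=
        mul_le_mul_of_nonneg_left h1 (by positivity)
    _ = _ := by rw [← mul_assoc, h3, one_mul]

theorem quasiL_degrees (hS : S_SLL) (hA : S_AVL) (hK : S_ADK) {Ω κ : Type} [Fintype Ω]
    [DecidableEq Ω] [Nonempty Ω] {c : Ω → Ω → κ} (hc : Coherent c)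
    {H : Type} [Group H] [Finite H] [Nontrivial H] [MulAction H Ω]
    (hH : ∀ (h : H) (p q : Ω), c (h • p) (h • q) = c p q) {D : ℕ} (hD : Quasirandom H D)
    {I : Type} [Fintype I] {l m n : I → ℕ}
    {R : ∀ i, Fin (l i) → Fin (m i) → κ} {S : ∀ i, Fin (m i) → Fin (n i) → κ}
    {T : ∀ i, Fin (n i) → Fin (l i) → κ} {L : ℕ} (hL : 1 ≤ L)
    (h : RealizesW c l m n R S T (fun _ => 0) (fun _ => 0) (fun _ => 0) L) (s : I → ℕ)
    (hs : ∀ i a b e, s i ≤ Nat.card (trs (freePairs H c (R i a b)) (freePairs H c (S i b e))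
      (freePairs H c (T i e a)))) {Q : ℝ} (hQ : 0 < Q)
    (hQs : ∀ i x, (size c x : ℝ) ≤ Q * s i) (k : ℕ) (d : Fin k → ℕ)
    (hd : Nonempty (adj hc ≃ₐ[ℂ] ∀ j, Matrix (Fin (d j)) (Fin (d j)) ℂ)) {ω : ℝ}
    (hω : 2 ≤ ω) :
    (∑ i, ((l i * m i * n i : ℕ) : ℝ) ^ (ω / 3)) *
        (((D : ℝ) / (4 * (L : ℝ) ^ 5)) ^ ((1 : ℝ) / 3) / Q) ^ (ω / 2) ≤
      (k : ℝ) ^ (ω / 2 - 1) * ∑ j, (d j : ℝ) ^ ω := by
  rcases Nat.eq_zero_or_pos D with hD0 | hD1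
  · subst hD0
    have h0 : (((0 : ℕ) : ℝ) / (4 * (L : ℝ) ^ 5)) ^ ((1 : ℝ) / 3) = 0 := by
      rw [Nat.cast_zero, zero_div, Real.zero_rpow (by norm_num)]
    rw [h0, zero_div, Real.zero_rpow (by linarith), mul_zero]
    exact mul_nonneg (Real.rpow_nonneg (Nat.cast_nonneg _) _)
      (Finset.sum_nonneg fun j _ => Real.rpow_nonneg (Nat.cast_nonneg _) _)
  have hD' : (0 : ℝ) < D := by exact_mod_cast hD1
  have hL0 : (0 : ℝ) < L := by exact_mod_cast hL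
  have hE : (0 : ℝ) < ((D : ℝ) / (4 * (L : ℝ) ^ 5)) ^ ((1 : ℝ) / 3) :=
    Real.rpow_pos_of_pos (by positivity) _
  exact pwr2 k k _ d I _ _ ω (hK Ω κ c hc k d hd) ((card_filter_le _ _).trans (by simp)) hω
    (div_pos hE hQ)
    (classes_of_weighted' s hE (quasiL_weighted hS hA hH hD hL h s hs) hQ hQs)

end Pool.Agent.N726.CC
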