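import Pool.Agent.N726.CC.Stm6
import Pool.Agent.N726.BG.Avg

/-!
# Leaf AVO: averaging over the triangles (helper364)
-/

set_option autoImplicit false

namespace Pool.Agent.N726.CC.Avo

open Finset
open Pool.Agent.N726.BG

section

variable {Ω H : Type} [Fintype Ω] [Group H] [Fintype H] [MulAction H Ω]

/-- the number of `h` with `(p, h q) ∈ U` -/
noncomputable def nu (H : Type) [Group H] {Ω : Type} [MulAction H Ω] (U : Set (Ω × Ω))
    (p q : Ω) : ℕ :=
  Nat.card {h : H // (p, h • q) ∈ U}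

theorem nu_smul (U : Set (Ω × Ω)) (k : H) (p q : Ω) : nu H U p (k • q) = nu H U p q := by
  unfold nu
  refine Nat.card_congr (Equiv.subtypeEquiv (Equiv.mulRight k) fun h => ?_)
  rw [Equiv.coe_mulRight, mul_smul]

theorem one_le_nu {U : Set (Ω × Ω)} {p q : Ω} (h : (p, q) ∈ U) : 1 ≤ nu H U p q := by
  unfold nu
  have : Nonempty {h : H // (p, h • q) ∈ U} := ⟨⟨1, by rw [one_smul]; exact h⟩⟩
  exact Nat.card_pos

open Classical in
theorem sum_inv (U : Set (Ω × Ω)) :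
    (Fintype.card H : ℝ) * ∑ e ∈ univ.filter (fun e : Ω × Ω => e ∈ U),
      ((nu H U e.1 e.2 : ℕ) : ℝ)⁻¹ ≤ (Fintype.card Ω : ℝ) ^ 2 := by
  have h1 : ∀ k : H, ∑ e ∈ univ.filter (fun e : Ω × Ω => e ∈ U), ((nu H U e.1 e.2 : ℕ) : ℝ)⁻¹ =
      ∑ e : Ω × Ω, if (e.1, k • e.2) ∈ U then ((nu H U e.1 e.2 : ℕ) : ℝ)⁻¹ else 0 := by
    intro k
    rw [Finset.sum_filter,
      ← Equiv.sum_comp ((Equiv.refl Ω).prodCongr (MulAction.toPerm k : Equiv.Perm Ω))]
    refine sum_congr rfl fun e _ => ?_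
    have h2 : ((Equiv.refl Ω).prodCongr (MulAction.toPerm k : Equiv.Perm Ω)) e =
        (e.1, k • e.2) := rfl
    rw [h2, nu_smul]
  have h3 : ∀ e : Ω × Ω, (∑ k : H, if (e.1, k • e.2) ∈ U then
      ((nu H U e.1 e.2 : ℕ) : ℝ)⁻¹ else 0) =
      ((nu H U e.1 e.2 : ℕ) : ℝ) * ((nu H U e.1 e.2 : ℕ) : ℝ)⁻¹ := by
    intro e
    rw [← sum_filter, sum_const, nsmul_eq_mul]
    congr 2
    unfold nu
    rw [Nat.card_eq_fintype_card, Fintype.card_subtype]
  calc (Fintype.card H : ℝ) * ∑ e ∈ univ.filter (fun e : Ω × Ω => e ∈ U),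
        ((nu H U e.1 e.2 : ℕ) : ℝ)⁻¹
      = ∑ _k : H, ∑ e ∈ univ.filter (fun e : Ω × Ω => e ∈ U),
          ((nu H U e.1 e.2 : ℕ) : ℝ)⁻¹ := by
        rw [sum_const, card_univ, nsmul_eq_mul]
    _ = ∑ k : H, ∑ e : Ω × Ω, if (e.1, k • e.2) ∈ U then
          ((nu H U e.1 e.2 : ℕ) : ℝ)⁻¹ else 0 := sum_congr rfl fun k _ => h1 k
    _ = ∑ e : Ω × Ω, ∑ k : H, if (e.1, k • e.2) ∈ U then
          ((nu H U e.1 e.2 : ℕ) : ℝ)⁻¹ else 0 := sum_comm
    _ = ∑ e : Ω × Ω, ((nu H U e.1 e.2 : ℕ) : ℝ) * ((nu H U e.1 e.2 : ℕ) : ℝ)⁻¹ :=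
        sum_congr rfl fun e _ => h3 e
    _ ≤ ∑ _e : Ω × Ω, (1 : ℝ) := sum_le_sum fun e _ => mul_inv_le_one
    _ = (Fintype.card Ω : ℝ) ^ 2 := by
        rw [sum_const, card_univ, nsmul_eq_mul, mul_one, Fintype.card_prod]
        push_cast
        ring

/-- the union of the sets -/
def UU {I α : Type} (A B : I → Finset α) (X : I → α → α → Set (Ω × Ω)) : Set (Ω × Ω) :=
  {e | ∃ i, ∃ a ∈ A i, ∃ b ∈ B i, e ∈ X i a b}

theorem rot {I α : Type} {A B C : I → Finset α} {X Y Z : I → α → α → Set (Ω × Ω)}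
    (h : CF H A B C X Y Z) : CF H B C A Y Z X where
  invX := h.invY
  invY := h.invZ
  invZ := h.invX
  freeX := h.freeY
  freeY := h.freeZ
  freeZ := h.freeX
  only := by
    intro i j k b hb c hc c' hc' a ha a' ha' b' hb' q r p h1 h2 h3
    obtain ⟨e1, e2, e3, e4, e5⟩ := h.only k i j a' ha' b' hb' b hb c hc c' hc' a ha p q r h3 h1 h2
    exact ⟨e2, by rw [← e2, e1], e4.symm, e5, e3.symm⟩
  oneX := by
    intro i b hb c hc a ha q r h1
    exact h.oneY i a ha b hb c hc q r h1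
  oneY := by
    intro i b hb c hc a ha r p h1
    exact h.oneZ i a ha b hb c hc r p h1
  oneZ := by
    intro i b hb c hc a ha p q h1
    exact h.oneX i a ha b hb c hc p q h1

/-- the sum of the reciprocals -/
noncomputable def FF (H : Type) [Group H] {Ω : Type} [Fintype Ω] [MulAction H Ω] {I α : Type}
    (A B : I → Finset α) (X : I → α → α → Set (Ω × Ω)) (i : I) : ℝ :=
  open Classical in
  ∑ a ∈ A i, ∑ b ∈ B i, ∑ e ∈ univ.filter (fun e : Ω × Ω => e ∈ X i a b),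
    ((nu H (UU A B X) e.1 e.2 : ℕ) : ℝ)⁻¹

theorem ff_nonneg {I α : Type} (A B : I → Finset α) (X : I → α → α → Set (Ω × Ω)) (i : I) :
    0 ≤ FF H A B X i :=
  sum_nonneg fun _ _ => sum_nonneg fun _ _ => sum_nonneg fun _ _ =>
    inv_nonneg.2 (Nat.cast_nonneg _)

theorem sum_ff {I α : Type} {A B C : I → Finset α} {X Y Z : I → α → α → Set (Ω × Ω)}
    (h : CF H A B C X Y Z) (I' : Finset I) (hI : ∀ i ∈ I', (C i).Nonempty) :
    (Fintype.card H : ℝ) * ∑ i ∈ I', FF H A B X i ≤ (Fintype.card Ω : ℝ) ^ 2 := by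
  classical
  refine le_trans (mul_le_mul_of_nonneg_left ?_ (Nat.cast_nonneg _)) (sum_inv (UU A B X))
  have h1 : ∑ i ∈ I', FF H A B X i = ∑ x ∈ I'.sigma (fun i => (A i ×ˢ B i).sigma
      (fun ab => univ.filter (fun e : Ω × Ω => e ∈ X i ab.1 ab.2))),
        ((nu H (UU A B X) x.2.2.1 x.2.2.2 : ℕ) : ℝ)⁻¹ := by
    rw [Finset.sum_sigma]
    refine sum_congr rfl fun i _ => ?_
    rw [Finset.sum_sigma, Finset.sum_product]
    rfl
  rw [h1]
  have hinj : Set.InjOn (fun x : (Σ _ : I, Σ _ : α × α, Ω × Ω) => x.2.2)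
      (I'.sigma (fun i => (A i ×ˢ B i).sigma
      (fun ab => univ.filter (fun e : Ω × Ω => e ∈ X i ab.1 ab.2))) :
        Finset (Σ _ : I, Σ _ : α × α, Ω × Ω)) := by
    rintro ⟨i, ⟨a, b⟩, e⟩ hx ⟨j, ⟨a', b'⟩, e'⟩ hx' he
    simp only [Finset.mem_coe, Finset.mem_sigma, Finset.mem_product, Finset.mem_filter,
      Finset.mem_univ, true_and] at hx hx' he
    subst he
    obtain ⟨hi, ⟨ha, hb⟩, hX⟩ := hx
    obtain ⟨hj, ⟨ha', hb'⟩, hX'⟩ := hx'
    obtain ⟨c, hc⟩ := hI i hi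
    obtain ⟨p, q⟩ := e
    obtain ⟨r, ⟨hr1, hr2⟩, -⟩ := h.oneX i a ha b hb c hc p q hX
    obtain ⟨e1, -, e3, e4, -⟩ := h.only j i i a' ha' b' hb' b hb c hc c hc a ha p q r hX' hr1 hr2
    subst e1 e3 e4
    rfl
  rw [← Finset.sum_image (f := fun e : Ω × Ω => ((nu H (UU A B X) e.1 e.2 : ℕ) : ℝ)⁻¹) hinj]
  refine Finset.sum_le_sum_of_subset_of_nonneg ?_ fun x _ _ => inv_nonneg.2 (Nat.cast_nonneg _)
  intro e he
  obtain ⟨⟨i, ⟨a, b⟩, e'⟩, hx, rfl⟩ := Finset.mem_image.1 he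
  simp only [Finset.mem_sigma, Finset.mem_product, Finset.mem_filter,
      Finset.mem_univ, true_and] at hx
  rw [Finset.mem_filter]
  exact ⟨mem_univ _, i, a, hx.2.1.1, b, hx.2.1.2, hx.2.2⟩

/-- the local inequality at one triangle -/
theorem tri_bound {n D : ℝ} (hn : 0 < n) (hD : 0 < D) {x y z : ℝ} (hx : 0 < x) (hy : 0 < y)
    (hz : 0 < z) (h : x * y * z * D ≤ 4 * n ^ 3) {l₁ l₂ l₃ : ℝ} (h1 : 0 < l₁) (h2 : 0 < l₂)
    (h3 : 0 < l₃) (hl : l₁ * (l₂ * l₃) = 1) :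
    1 ≤ (4 / D) ^ ((1 : ℝ) / 3) * (n / 3) * (l₁ * x⁻¹ + l₂ * y⁻¹ + l₃ * z⁻¹) := by
  set V : ℝ := n * ((l₁ * x⁻¹ + l₂ * y⁻¹ + l₃ * z⁻¹) / 3) with hV
  have hV0 : 0 ≤ V := by positivity
  have e1 : (1 : ℝ) ≤ 4 / D * V ^ 3 := by
    have a1 := Avg.amgm (x := l₁ * x⁻¹) (y := l₂ * y⁻¹) (z := l₃ * z⁻¹) (by positivity)
      (by positivity) (by positivity)
    have a2 : l₁ * x⁻¹ * (l₂ * y⁻¹ * (l₃ * z⁻¹)) = (x * y * z)⁻¹ := by
      have : l₁ * x⁻¹ * (l₂ * y⁻¹ * (l₃ * z⁻¹)) = (l₁ * (l₂ * l₃)) * (x * y * z)⁻¹ := by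
        rw [mul_inv, mul_inv]; ring
      rw [this, hl, one_mul]
    rw [a2] at a1
    have a3 : 4 / D * V ^ 3 = 4 * n ^ 3 / D * ((l₁ * x⁻¹ + l₂ * y⁻¹ + l₃ * z⁻¹) / 3) ^ 3 := by
      rw [hV]; ring
    rw [a3]
    have a4 : (1 : ℝ) ≤ 4 * n ^ 3 / D * (x * y * z)⁻¹ := by
      rw [← div_eq_mul_inv, div_div, le_div_iff₀ (by positivity), one_mul]
      linarith
    exact a4.trans (mul_le_mul_of_nonneg_left a1 (by positivity))
  have e2 : (1 : ℝ) ≤ (4 / D * V ^ 3) ^ ((1 : ℝ) / 3) := Real.one_le_rpow e1 (by norm_num)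
  have e3 : (4 / D * V ^ 3) ^ ((1 : ℝ) / 3) = (4 / D) ^ ((1 : ℝ) / 3) * V := by
    rw [Real.mul_rpow (by positivity) (by positivity), ← Real.rpow_natCast V 3,
      ← Real.rpow_mul hV0]
    norm_num
  rw [e3] at e2
  calc (1 : ℝ) ≤ (4 / D) ^ ((1 : ℝ) / 3) * V := e2
    _ = _ := by rw [hV]; ring

theorem local_bound {D : ℕ} (hD : 1 ≤ D) {I α : Type} {A B C : I → Finset α}
    {X Y Z : I → α → α → Set (Ω × Ω)} (h : CF H A B C X Y Z)
    (hyp : ∀ p q r : Ω, nfr H A B X p q * nfr H B C Y q r * nfr H C A Z r p * D ≤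
      4 * Fintype.card H ^ 3) {s : I → ℕ}
    (hs : ∀ i, ∀ a ∈ A i, ∀ b ∈ B i, s i ≤ Nat.card (X i a b)) (i : I) (hA : (A i).Nonempty)
    (hB : (B i).Nonempty) (hC : (C i).Nonempty) :
    (((A i).card * (B i).card * (C i).card : ℕ) : ℝ) ^ ((2 : ℝ) / 3) * s i ≤
      ((4 : ℝ) / D) ^ ((1 : ℝ) / 3) * ((Fintype.card H : ℝ) / 3) *
        (FF H A B X i + FF H B C Y i + FF H C A Z i) := by
  classical
  have hn : (0 : ℝ) < Fintype.card H := by exact_mod_cast Fintype.card_pos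
  have hD' : (0 : ℝ) < D := by exact_mod_cast hD
  set n : ℝ := (Fintype.card H : ℝ) with hnd
  have hl : (0 : ℝ) < (A i).card := by exact_mod_cast hA.card_pos
  have hm : (0 : ℝ) < (B i).card := by exact_mod_cast hB.card_pos
  have hc : (0 : ℝ) < (C i).card := by exact_mod_cast hC.card_pos
  set l : ℝ := ((A i).card : ℝ) with hld
  set m : ℝ := ((B i).card : ℝ) with hmd
  set c₀ : ℝ := ((C i).card : ℝ) with hcd
  have hP : (0 : ℝ) < l * m * c₀ := by positivity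
  set L : ℝ := (l * m * c₀) ^ ((1 : ℝ) / 3) with hL
  have hL0 : 0 < L := Real.rpow_pos_of_pos hP _
  have hL3 : L ^ 3 = l * m * c₀ := by
    rw [hL, ← Real.rpow_natCast, ← Real.rpow_mul hP.le]
    norm_num
  have hL2 : (((A i).card * (B i).card * (C i).card : ℕ) : ℝ) ^ ((2 : ℝ) / 3) = L ^ 2 := by
    rw [hL, ← Real.rpow_natCast, ← Real.rpow_mul hP.le]
    push_cast
    norm_num
    rw [hld, hmd, hcd]
  set K : ℝ := ((4 : ℝ) / D) ^ ((1 : ℝ) / 3) * (n / 3) with hK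
  have hK0 : 0 ≤ K := by positivity
  -- the reciprocals
  set gX : Ω × Ω → ℝ := fun e => ((nu H (UU A B X) e.1 e.2 : ℕ) : ℝ)⁻¹ with hgX
  set gY : Ω × Ω → ℝ := fun e => ((nu H (UU B C Y) e.1 e.2 : ℕ) : ℝ)⁻¹ with hgY
  set gZ : Ω × Ω → ℝ := fun e => ((nu H (UU C A Z) e.1 e.2 : ℕ) : ℝ)⁻¹ with hgZ
  have hone : ∀ a ∈ A i, ∀ b ∈ B i, ∀ c ∈ C i,
      (s i : ℝ) ≤ K * (L / c₀ * ∑ e ∈ univ.filter (fun e : Ω × Ω => e ∈ X i a b), gX e +
        L / l * ∑ e ∈ univ.filter (fun e : Ω × Ω => e ∈ Y i b c), gY e +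
        L / m * ∑ e ∈ univ.filter (fun e : Ω × Ω => e ∈ Z i c a), gZ e) := by
    intro a ha b hb c hc'
    have hex : ∀ e : Ω × Ω, e ∈ X i a b → ∃ r, (e.2, r) ∈ Y i b c ∧ (r, e.1) ∈ Z i c a := by
      intro e he
      obtain ⟨r, hr, -⟩ := h.oneX i a ha b hb c hc' e.1 e.2 he
      exact ⟨r, hr⟩
    set R : Ω × Ω → Ω := fun e => if he : e ∈ X i a b then (hex e he).choose else e.1 with hR
    have hRs : ∀ e : Ω × Ω, e ∈ X i a b → (e.2, R e) ∈ Y i b c ∧ (R e, e.1) ∈ Z i c a := by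
      intro e he
      have : R e = (hex e he).choose := by rw [hR]; exact dif_pos he
      rw [this]
      exact (hex e he).choose_spec
    have hpt : ∀ e ∈ univ.filter (fun e : Ω × Ω => e ∈ X i a b),
        (1 : ℝ) ≤ K * (L / c₀ * gX e + L / l * gY (e.2, R e) + L / m * gZ (R e, e.1)) := by
      intro e he
      have he' : e ∈ X i a b := (mem_filter.1 he).2
      obtain ⟨hy, hz⟩ := hRs e he'
      have n1 : 1 ≤ nu H (UU A B X) e.1 e.2 := one_le_nu ⟨i, a, ha, b, hb, he'⟩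
      have n2 : 1 ≤ nu H (UU B C Y) e.2 (R e) := one_le_nu ⟨i, b, hb, c, hc', hy⟩
      have n3 : 1 ≤ nu H (UU C A Z) (R e) e.1 := one_le_nu ⟨i, c, hc', a, ha, hz⟩
      have h4 : nu H (UU A B X) e.1 e.2 * nu H (UU B C Y) e.2 (R e) *
          nu H (UU C A Z) (R e) e.1 * D ≤ 4 * Fintype.card H ^ 3 := hyp e.1 e.2 (R e)
      have h5 : (nu H (UU A B X) e.1 e.2 : ℝ) * nu H (UU B C Y) e.2 (R e) *
          nu H (UU C A Z) (R e) e.1 * D ≤ 4 * n ^ 3 := by
        rw [hnd]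
        exact_mod_cast h4
      refine tri_bound hn hD' (by exact_mod_cast n1) (by exact_mod_cast n2)
        (by exact_mod_cast n3) h5 (by positivity) (by positivity) (by positivity) ?_
      have : L / c₀ * (L / l * (L / m)) = L ^ 3 / (l * m * c₀) := by
        field_simp
      rw [this, hL3, div_self hP.ne']
    have hsum1 : (s i : ℝ) ≤ ∑ e ∈ univ.filter (fun e : Ω × Ω => e ∈ X i a b), (1 : ℝ) := by
      rw [sum_const, nsmul_eq_mul, mul_one]
      have h6 := hs i a ha b hb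
      rw [Nat.card_eq_fintype_card, Fintype.card_subtype] at h6
      exact_mod_cast h6
    have hY : ∑ e ∈ univ.filter (fun e : Ω × Ω => e ∈ X i a b), gY (e.2, R e) ≤
        ∑ e ∈ univ.filter (fun e : Ω × Ω => e ∈ Y i b c), gY e := by
      have hinj : Set.InjOn (fun e : Ω × Ω => (e.2, R e))
          (univ.filter (fun e : Ω × Ω => e ∈ X i a b) : Finset (Ω × Ω)) := by
        intro e he e' he' hee
        simp only [Finset.coe_filter, Finset.mem_univ, true_and, Set.mem_ofPred_eq] at he he'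
        simp only [Prod.mk.injEq] at hee
        obtain ⟨q1, q2⟩ := hee
        obtain ⟨hy, hz⟩ := hRs e he
        obtain ⟨hy', hz'⟩ := hRs e' he'
        obtain ⟨p, -, hu⟩ := h.oneY i a ha b hb c hc' e.2 (R e) hy
        have u1 := hu e.1 ⟨hz, he⟩
        have u2 := hu e'.1 ⟨by rw [q2]; exact hz', by rw [q1]; exact he'⟩
        exact Prod.ext (u1.trans u2.symm) q1
      rw [← Finset.sum_image (f := gY) hinj]
      refine Finset.sum_le_sum_of_subset_of_nonneg ?_ fun x _ _ =>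
        inv_nonneg.2 (Nat.cast_nonneg _)
      intro x hx
      obtain ⟨e, he, rfl⟩ := Finset.mem_image.1 hx
      exact mem_filter.2 ⟨mem_univ _, (hRs e (mem_filter.1 he).2).1⟩
    have hZ : ∑ e ∈ univ.filter (fun e : Ω × Ω => e ∈ X i a b), gZ (R e, e.1) ≤
        ∑ e ∈ univ.filter (fun e : Ω × Ω => e ∈ Z i c a), gZ e := by
      have hinj : Set.InjOn (fun e : Ω × Ω => (R e, e.1))
          (univ.filter (fun e : Ω × Ω => e ∈ X i a b) : Finset (Ω × Ω)) := by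
        intro e he e' he' hee
        simp only [Finset.coe_filter, Finset.mem_univ, true_and, Set.mem_ofPred_eq] at he he'
        simp only [Prod.mk.injEq] at hee
        obtain ⟨q2, q1⟩ := hee
        obtain ⟨hy, hz⟩ := hRs e he
        obtain ⟨hy', hz'⟩ := hRs e' he'
        obtain ⟨q, -, hu⟩ := h.oneZ i a ha b hb c hc' (R e) e.1 hz
        have u1 := hu e.2 ⟨he, hy⟩
        have u2 := hu e'.2 ⟨by rw [q1]; exact he', by rw [q2]; exact hy'⟩
        exact Prod.ext q1 (u1.trans u2.symm)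
      rw [← Finset.sum_image (f := gZ) hinj]
      refine Finset.sum_le_sum_of_subset_of_nonneg ?_ fun x _ _ =>
        inv_nonneg.2 (Nat.cast_nonneg _)
      intro x hx
      obtain ⟨e, he, rfl⟩ := Finset.mem_image.1 hx
      exact mem_filter.2 ⟨mem_univ _, (hRs e (mem_filter.1 he).2).2⟩
    calc (s i : ℝ) ≤ ∑ e ∈ univ.filter (fun e : Ω × Ω => e ∈ X i a b), (1 : ℝ) := hsum1
      _ ≤ ∑ e ∈ univ.filter (fun e : Ω × Ω => e ∈ X i a b),
          K * (L / c₀ * gX e + L / l * gY (e.2, R e) + L / m * gZ (R e, e.1)) :=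
          sum_le_sum hpt
      _ = K * (L / c₀ * ∑ e ∈ univ.filter (fun e : Ω × Ω => e ∈ X i a b), gX e +
        L / l * ∑ e ∈ univ.filter (fun e : Ω × Ω => e ∈ X i a b), gY (e.2, R e) +
        L / m * ∑ e ∈ univ.filter (fun e : Ω × Ω => e ∈ X i a b), gZ (R e, e.1)) := by
          rw [← Finset.mul_sum, Finset.sum_add_distrib, Finset.sum_add_distrib,
            ← Finset.mul_sum, ← Finset.mul_sum, ← Finset.mul_sum]
      _ ≤ _ := by
          refine mul_le_mul_of_nonneg_left ?_ hK0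
          have w1 : L / l * ∑ e ∈ univ.filter (fun e : Ω × Ω => e ∈ X i a b), gY (e.2, R e) ≤
            L / l * ∑ e ∈ univ.filter (fun e : Ω × Ω => e ∈ Y i b c), gY e :=
            mul_le_mul_of_nonneg_left hY (by positivity)
          have w2 : L / m * ∑ e ∈ univ.filter (fun e : Ω × Ω => e ∈ X i a b), gZ (R e, e.1) ≤
            L / m * ∑ e ∈ univ.filter (fun e : Ω × Ω => e ∈ Z i c a), gZ e :=
            mul_le_mul_of_nonneg_left hZ (by positivity)
          linarith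
  -- sum over `a, b, c`
  have hall : l * m * c₀ * (s i : ℝ) ≤ K * (L * (FF H A B X i + FF H B C Y i + FF H C A Z i)) := by
    calc l * m * c₀ * (s i : ℝ) = ∑ a ∈ A i, ∑ b ∈ B i, ∑ c ∈ C i, (s i : ℝ) := by
          simp only [sum_const, nsmul_eq_mul]
          rw [hld, hmd, hcd]
          ring
      _ ≤ ∑ a ∈ A i, ∑ b ∈ B i, ∑ c ∈ C i,
          K * (L / c₀ * ∑ e ∈ univ.filter (fun e : Ω × Ω => e ∈ X i a b), gX e +
          L / l * ∑ e ∈ univ.filter (fun e : Ω × Ω => e ∈ Y i b c), gY e +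
          L / m * ∑ e ∈ univ.filter (fun e : Ω × Ω => e ∈ Z i c a), gZ e) :=
          sum_le_sum fun a ha => sum_le_sum fun b hb => sum_le_sum fun c hc =>
            hone a ha b hb c hc
      _ = K * (L / c₀ * (c₀ * FF H A B X i) + L / l * (l * FF H B C Y i) +
            L / m * (m * FF H C A Z i)) := by
          have t1 : ∑ a ∈ A i, ∑ b ∈ B i, ∑ _c ∈ C i,
              ∑ e ∈ univ.filter (fun e : Ω × Ω => e ∈ X i a b), gX e = c₀ * FF H A B X i := by
            simp only [Finset.sum_const, nsmul_eq_mul, ← Finset.mul_sum]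
            rfl
          have t2 : ∑ _a ∈ A i, ∑ b ∈ B i, ∑ c ∈ C i,
              ∑ e ∈ univ.filter (fun e : Ω × Ω => e ∈ Y i b c), gY e = l * FF H B C Y i := by
            simp only [Finset.sum_const, nsmul_eq_mul]
            rfl
          have t3 : ∑ a ∈ A i, ∑ _b ∈ B i, ∑ c ∈ C i,
              ∑ e ∈ univ.filter (fun e : Ω × Ω => e ∈ Z i c a), gZ e = m * FF H C A Z i := by
            simp only [Finset.sum_const, nsmul_eq_mul, ← Finset.mul_sum]
            rw [Finset.sum_comm]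
            rfl
          rw [← t1, ← t2, ← t3]
          simp only [← Finset.mul_sum, Finset.sum_add_distrib]
      _ = K * (L * (FF H A B X i + FF H B C Y i + FF H C A Z i)) := by
          field_simp
  rw [hL2]
  have h7 : L * (L ^ 2 * (s i : ℝ)) ≤
      L * (K * (FF H A B X i + FF H B C Y i + FF H C A Z i)) := by
    calc L * (L ^ 2 * (s i : ℝ)) = L ^ 3 * (s i : ℝ) := by ring
      _ = l * m * c₀ * (s i : ℝ) := by rw [hL3]
      _ ≤ _ := hall
      _ = _ := by ring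
  exact le_of_mul_le_mul_left h7 hL0

end

end Pool.Agent.N726.CC.Avo

namespace Pool.Agent.N726.CC

open Finset
open Pool.Agent.N726.BG

/-- leaf AVO -/
theorem avo : S_AVO := by
  intro Ω H _ _ _ _ D hD I α _ A B C X Y Z h hyp s hs1 hs2 hs3
  classical
  set I' : Finset I := univ.filter fun i => (A i).Nonempty ∧ (B i).Nonempty ∧ (C i).Nonempty
    with hI'
  have e0 : ∑ i, (((A i).card * (B i).card * (C i).card : ℕ) : ℝ) ^ ((2 : ℝ) / 3) * s i =
      ∑ i ∈ I', (((A i).card * (B i).card * (C i).card : ℕ) : ℝ) ^ ((2 : ℝ) / 3) * s i := by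
    symm
    refine Finset.sum_subset (Finset.subset_univ _) fun i _ hi => ?_
    have h1 : (A i).card * (B i).card * (C i).card = 0 := by
      by_contra hne
      apply hi
      rw [hI', mem_filter]
      have h2 : (A i).card ≠ 0 := fun h => hne (by rw [h]; simp)
      have h3 : (B i).card ≠ 0 := fun h => hne (by rw [h]; simp)
      have h4 : (C i).card ≠ 0 := fun h => hne (by rw [h]; simp)
      exact ⟨mem_univ _, Finset.card_ne_zero.1 h2, Finset.card_ne_zero.1 h3,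
        Finset.card_ne_zero.1 h4⟩
    rw [h1, Nat.cast_zero, Real.zero_rpow (by norm_num), zero_mul]
  have k1 := Avo.sum_ff h I' (fun i hi => (mem_filter.1 hi).2.2.2)
  have k2 := Avo.sum_ff (Avo.rot h) I' (fun i hi => (mem_filter.1 hi).2.1)
  have k3 := Avo.sum_ff (Avo.rot (Avo.rot h)) I' (fun i hi => (mem_filter.1 hi).2.2.1)
  rw [e0]
  calc ∑ i ∈ I', (((A i).card * (B i).card * (C i).card : ℕ) : ℝ) ^ ((2 : ℝ) / 3) * s i
      ≤ ∑ i ∈ I', ((4 : ℝ) / D) ^ ((1 : ℝ) / 3) * ((Fintype.card H : ℝ) / 3) *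
        (Avo.FF H A B X i + Avo.FF H B C Y i + Avo.FF H C A Z i) :=
        sum_le_sum fun i hi => Avo.local_bound hD h hyp hs1 i (mem_filter.1 hi).2.1
          (mem_filter.1 hi).2.2.1 (mem_filter.1 hi).2.2.2
    _ = ((4 : ℝ) / D) ^ ((1 : ℝ) / 3) * (((Fintype.card H : ℝ) * ∑ i ∈ I', Avo.FF H A B X i +
        (Fintype.card H : ℝ) * ∑ i ∈ I', Avo.FF H B C Y i +
        (Fintype.card H : ℝ) * ∑ i ∈ I', Avo.FF H C A Z i) / 3) := by
        simp only [← Finset.mul_sum, Finset.sum_add_distrib]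
        ring
    _ ≤ _ := by
        refine mul_le_mul_of_nonneg_left ?_ (by positivity)
        linarith

end Pool.Agent.N726.CC
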