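import Pool.Agent.N726.CC.Stm8
import Pool.Agent.N726.CC.Avo

/-!
# Leaf AVL: averaging over the triangles, with multiplicities (helper667, after helper364)
-/

set_option autoImplicit false

namespace Pool.Agent.N726.CC.Avl

open Finset
open Pool.Agent.N726.BG
open Pool.Agent.N726.CC.Avo

/-- the pairs of `X i a b` in a matched triangle -/
def XM {Ω I α : Type} (C : I → Finset α) (X Y Z : I → α → α → Set (Ω × Ω)) (i : I) (a b : α) :
    Set (Ω × Ω) :=
  {e | e ∈ X i a b ∧ ∃ c ∈ C i, ∃ t, (e.2, t) ∈ Y i b c ∧ (t, e.1) ∈ Z i c a}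

/-- the properties of the sets which are used -/
structure WW {Ω I α : Type} (A B C : I → Finset α) (X Y Z : I → α → α → Set (Ω × Ω)) (L : ℕ) :
    Prop where
  only : ∀ i j k, ∀ a ∈ A i, ∀ b ∈ B i, ∀ b' ∈ B j, ∀ c ∈ C j, ∀ c' ∈ C k, ∀ a' ∈ A k,
    ∀ p q r, (p, q) ∈ X i a b → (q, r) ∈ Y j b' c → (r, p) ∈ Z k c' a' →
    (i = j ∧ j = k ∧ a = a' ∧ b = b' ∧ c = c')
  upX : ∀ i, ∀ a ∈ A i, ∀ b ∈ B i, ∀ c ∈ C i, ∀ p q, (p, q) ∈ X i a b →
    Nat.card {r // (q, r) ∈ Y i b c ∧ (r, p) ∈ Z i c a} ≤ L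
  upY : ∀ i, ∀ a ∈ A i, ∀ b ∈ B i, ∀ c ∈ C i, ∀ q r, (q, r) ∈ Y i b c →
    Nat.card {p // (r, p) ∈ Z i c a ∧ (p, q) ∈ X i a b} ≤ L
  upZ : ∀ i, ∀ a ∈ A i, ∀ b ∈ B i, ∀ c ∈ C i, ∀ r p, (r, p) ∈ Z i c a →
    Nat.card {q // (p, q) ∈ X i a b ∧ (q, r) ∈ Y i b c} ≤ L

theorem WW.rot {Ω I α : Type} {A B C : I → Finset α} {X Y Z : I → α → α → Set (Ω × Ω)} {L : ℕ}
    (h : WW A B C X Y Z L) : WW B C A Y Z X L where
  only := by
    intro i j k b hb c hc c' hc' a ha a' ha' b' hb' q r p h1 h2 h3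
    obtain ⟨e1, e2, e3, e4, e5⟩ := h.only k i j a' ha' b' hb' b hb c hc c' hc' a ha p q r h3 h1 h2
    exact ⟨e2, by rw [← e2, e1], e4.symm, e5, e3.symm⟩
  upX := by
    intro i b hb c hc a ha q r h1
    exact h.upY i a ha b hb c hc q r h1
  upY := by
    intro i b hb c hc a ha r p h1
    exact h.upZ i a ha b hb c hc r p h1
  upZ := by
    intro i b hb c hc a ha p q h1
    exact h.upX i a ha b hb c hc p q h1

theorem sum_fiber {T E : Type} [DecidableEq E] (S : Finset T) (F : Finset E) (π : T → E)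
    (g : E → ℝ) (hg : ∀ e, 0 ≤ g e) (L : ℕ) (hm : ∀ t ∈ S, π t ∈ F)
    (hL : ∀ e ∈ F, (S.filter fun t => π t = e).card ≤ L) :
    ∑ t ∈ S, g (π t) ≤ L * ∑ e ∈ F, g e := by
  rw [← Finset.sum_fiberwise_of_maps_to hm, Finset.mul_sum]
  refine Finset.sum_le_sum fun e he => ?_
  have h1 : ∑ t ∈ S.filter (fun t => π t = e), g (π t) =
      ((S.filter fun t => π t = e).card : ℝ) * g e := by
    rw [Finset.sum_congr rfl (g := fun _ => g e) (fun t ht => by rw [(mem_filter.1 ht).2]),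
      sum_const, nsmul_eq_mul]
  rw [h1]
  exact mul_le_mul_of_nonneg_right (by exact_mod_cast hL e he) (hg e)

section

variable {Ω H : Type} [Fintype Ω] [Group H] [Fintype H] [MulAction H Ω]

theorem sum_ff {I α : Type} {A B C : I → Finset α} {X Y Z : I → α → α → Set (Ω × Ω)} {L : ℕ}
    (h : WW A B C X Y Z L) (I' : Finset I) :
    (Fintype.card H : ℝ) * ∑ i ∈ I', FF H A B (XM C X Y Z) i ≤ (Fintype.card Ω : ℝ) ^ 2 := by
  classical
  refine le_trans (mul_le_mul_of_nonneg_left ?_ (Nat.cast_nonneg _))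
    (sum_inv (UU A B (XM C X Y Z)))
  have h1 : ∑ i ∈ I', FF H A B (XM C X Y Z) i = ∑ x ∈ I'.sigma (fun i => (A i ×ˢ B i).sigma
      (fun ab => univ.filter (fun e : Ω × Ω => e ∈ XM C X Y Z i ab.1 ab.2))),
        ((nu H (UU A B (XM C X Y Z)) x.2.2.1 x.2.2.2 : ℕ) : ℝ)⁻¹ := by
    rw [Finset.sum_sigma]
    refine sum_congr rfl fun i _ => ?_
    rw [Finset.sum_sigma, Finset.sum_product]
    rfl
  rw [h1]
  have hinj : Set.InjOn (fun x : (Σ _ : I, Σ _ : α × α, Ω × Ω) => x.2.2)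
      (I'.sigma (fun i => (A i ×ˢ B i).sigma
      (fun ab => univ.filter (fun e : Ω × Ω => e ∈ XM C X Y Z i ab.1 ab.2))) :
        Finset (Σ _ : I, Σ _ : α × α, Ω × Ω)) := by
    rintro ⟨i, ⟨a, b⟩, e⟩ hx ⟨j, ⟨a', b'⟩, e'⟩ hx' he
    simp only [Finset.mem_coe, Finset.mem_sigma, Finset.mem_product, Finset.mem_filter,
      Finset.mem_univ, true_and] at hx hx' he
    subst he
    obtain ⟨hi, ⟨ha, hb⟩, hX, c, hc, r, hr1, hr2⟩ := hx
    obtain ⟨hj, ⟨ha', hb'⟩, hX', -⟩ := hx'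
    obtain ⟨p, q⟩ := e
    obtain ⟨e1, -, e3, e4, -⟩ := h.only j i i a' ha' b' hb' b hb c hc c hc a ha p q r hX' hr1 hr2
    subst e1 e3 e4
    rfl
  rw [← Finset.sum_image (f := fun e : Ω × Ω =>
    ((nu H (UU A B (XM C X Y Z)) e.1 e.2 : ℕ) : ℝ)⁻¹) hinj]
  refine Finset.sum_le_sum_of_subset_of_nonneg ?_ fun x _ _ => inv_nonneg.2 (Nat.cast_nonneg _)
  intro e he
  obtain ⟨⟨i, ⟨a, b⟩, e'⟩, hx, rfl⟩ := Finset.mem_image.1 he
  simp only [Finset.mem_sigma, Finset.mem_product, Finset.mem_filter,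
      Finset.mem_univ, true_and] at hx
  rw [Finset.mem_filter]
  exact ⟨mem_univ _, i, a, hx.2.1.1, b, hx.2.1.2, hx.2.2⟩

theorem local_bound {D : ℕ} (hD : 1 ≤ D) {I α : Type} {A B C : I → Finset α}
    {X Y Z : I → α → α → Set (Ω × Ω)} {L : ℕ} (hL1 : 1 ≤ L) (h : WW A B C X Y Z L)
    (hyp : ∀ p q r : Ω, nu H (UU A B (XM C X Y Z)) p q * nu H (UU B C (XM A Y Z X)) q r *
      nu H (UU C A (XM B Z X Y)) r p * D ≤ 4 * L ^ 2 * Fintype.card H ^ 3) {s : I → ℕ}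
    (hs : ∀ i, ∀ a ∈ A i, ∀ b ∈ B i, ∀ c ∈ C i,
      s i ≤ Nat.card (trs (X i a b) (Y i b c) (Z i c a))) (i : I) (hA : (A i).Nonempty)
    (hB : (B i).Nonempty) (hC : (C i).Nonempty) :
    (((A i).card * (B i).card * (C i).card : ℕ) : ℝ) ^ ((2 : ℝ) / 3) * s i ≤
      (L : ℝ) * (((4 * (L : ℝ) ^ 2) / D) ^ ((1 : ℝ) / 3) * ((Fintype.card H : ℝ) / 3)) *
        (FF H A B (XM C X Y Z) i + FF H B C (XM A Y Z X) i + FF H C A (XM B Z X Y) i) := by
  classical
  have hn : (0 : ℝ) < Fintype.card H := by exact_mod_cast Fintype.card_pos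
  have hD' : (0 : ℝ) < D := by exact_mod_cast hD
  have hLp : (0 : ℝ) < L := by exact_mod_cast hL1
  set n : ℝ := (Fintype.card H : ℝ) with hnd
  have hl : (0 : ℝ) < (A i).card := by exact_mod_cast hA.card_pos
  have hm : (0 : ℝ) < (B i).card := by exact_mod_cast hB.card_pos
  have hc : (0 : ℝ) < (C i).card := by exact_mod_cast hC.card_pos
  set l : ℝ := ((A i).card : ℝ) with hld
  set m : ℝ := ((B i).card : ℝ) with hmd
  set c₀ : ℝ := ((C i).card : ℝ) with hcd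
  have hP : (0 : ℝ) < l * m * c₀ := by positivity
  set M : ℝ := (l * m * c₀) ^ ((1 : ℝ) / 3) with hM
  have hM0 : 0 < M := Real.rpow_pos_of_pos hP _
  have hM3 : M ^ 3 = l * m * c₀ := by
    rw [hM, ← Real.rpow_natCast, ← Real.rpow_mul hP.le]
    norm_num
  have hM2 : (((A i).card * (B i).card * (C i).card : ℕ) : ℝ) ^ ((2 : ℝ) / 3) = M ^ 2 := by
    rw [hM, ← Real.rpow_natCast, ← Real.rpow_mul hP.le]
    push_cast
    norm_num
    rw [hld, hmd, hcd]
  set K : ℝ := ((4 * (L : ℝ) ^ 2) / D) ^ ((1 : ℝ) / 3) * (n / 3) with hK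
  have hK0 : 0 ≤ K := by positivity
  -- the reciprocals
  set gX : Ω × Ω → ℝ := fun e => ((nu H (UU A B (XM C X Y Z)) e.1 e.2 : ℕ) : ℝ)⁻¹ with hgX
  set gY : Ω × Ω → ℝ := fun e => ((nu H (UU B C (XM A Y Z X)) e.1 e.2 : ℕ) : ℝ)⁻¹ with hgY
  set gZ : Ω × Ω → ℝ := fun e => ((nu H (UU C A (XM B Z X Y)) e.1 e.2 : ℕ) : ℝ)⁻¹ with hgZ
  have hone : ∀ a ∈ A i, ∀ b ∈ B i, ∀ c ∈ C i,
      (s i : ℝ) ≤ K * (M / c₀ * (L * ∑ e ∈ univ.filter (fun e : Ω × Ω =>
          e ∈ XM C X Y Z i a b), gX e) +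
        M / l * (L * ∑ e ∈ univ.filter (fun e : Ω × Ω => e ∈ XM A Y Z X i b c), gY e) +
        M / m * (L * ∑ e ∈ univ.filter (fun e : Ω × Ω => e ∈ XM B Z X Y i c a), gZ e)) := by
    intro a ha b hb c hc'
    set T : Finset (Ω × Ω × Ω) := univ.filter (fun t : Ω × Ω × Ω =>
      t ∈ trs (X i a b) (Y i b c) (Z i c a)) with hT
    have hTm : ∀ t ∈ T, (t.1, t.2.1) ∈ X i a b ∧ (t.2.1, t.2.2) ∈ Y i b c ∧
        (t.2.2, t.1) ∈ Z i c a := fun t ht => (mem_filter.1 ht).2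
    have mX : ∀ t ∈ T, (t.1, t.2.1) ∈ XM C X Y Z i a b := by
      intro t ht
      obtain ⟨h1, h2, h3⟩ := hTm t ht
      exact ⟨h1, c, hc', t.2.2, h2, h3⟩
    have mY : ∀ t ∈ T, (t.2.1, t.2.2) ∈ XM A Y Z X i b c := by
      intro t ht
      obtain ⟨h1, h2, h3⟩ := hTm t ht
      exact ⟨h2, a, ha, t.1, h3, h1⟩
    have mZ : ∀ t ∈ T, (t.2.2, t.1) ∈ XM B Z X Y i c a := by
      intro t ht
      obtain ⟨h1, h2, h3⟩ := hTm t ht
      exact ⟨h3, b, hb, t.2.1, h1, h2⟩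
    have hpt : ∀ t ∈ T, (1 : ℝ) ≤ K * (M / c₀ * gX (t.1, t.2.1) + M / l * gY (t.2.1, t.2.2) +
        M / m * gZ (t.2.2, t.1)) := by
      intro t ht
      have n1 : 1 ≤ nu H (UU A B (XM C X Y Z)) t.1 t.2.1 := one_le_nu ⟨i, a, ha, b, hb, mX t ht⟩
      have n2 : 1 ≤ nu H (UU B C (XM A Y Z X)) t.2.1 t.2.2 :=
        one_le_nu ⟨i, b, hb, c, hc', mY t ht⟩
      have n3 : 1 ≤ nu H (UU C A (XM B Z X Y)) t.2.2 t.1 :=
        one_le_nu ⟨i, c, hc', a, ha, mZ t ht⟩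
      have h4 := hyp t.1 t.2.1 t.2.2
      have h5 : (nu H (UU A B (XM C X Y Z)) t.1 t.2.1 : ℝ) *
          nu H (UU B C (XM A Y Z X)) t.2.1 t.2.2 *
          nu H (UU C A (XM B Z X Y)) t.2.2 t.1 * D ≤ 4 * (L : ℝ) ^ 2 * n ^ 3 := by
        rw [hnd]
        exact_mod_cast h4
      have h6 : (nu H (UU A B (XM C X Y Z)) t.1 t.2.1 : ℝ) *
          nu H (UU B C (XM A Y Z X)) t.2.1 t.2.2 *
          nu H (UU C A (XM B Z X Y)) t.2.2 t.1 * (D / (L : ℝ) ^ 2) ≤ 4 * n ^ 3 := by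
        rw [← mul_div_assoc, div_le_iff₀ (by positivity)]
        calc _ ≤ 4 * (L : ℝ) ^ 2 * n ^ 3 := h5
          _ = _ := by ring
      have h7 := tri_bound hn (D := (D : ℝ) / (L : ℝ) ^ 2) (by positivity)
        (by exact_mod_cast n1) (by exact_mod_cast n2) (by exact_mod_cast n3) h6
        (l₁ := M / c₀) (l₂ := M / l) (l₃ := M / m) (by positivity) (by positivity)
        (by positivity) (by
          have : M / c₀ * (M / l * (M / m)) = M ^ 3 / (l * m * c₀) := by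
            field_simp
          rw [this, hM3, div_self hP.ne'])
      have h8 : (4 : ℝ) / ((D : ℝ) / (L : ℝ) ^ 2) = 4 * (L : ℝ) ^ 2 / D := by
        field_simp
      rw [h8] at h7
      exact h7
    have hsum1 : (s i : ℝ) ≤ ∑ t ∈ T, (1 : ℝ) := by
      rw [sum_const, nsmul_eq_mul, mul_one]
      have h6 := hs i a ha b hb c hc'
      rw [Nat.card_eq_fintype_card, Fintype.card_subtype] at h6
      exact_mod_cast h6
    have hX : ∑ t ∈ T, gX (t.1, t.2.1) ≤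
        L * ∑ e ∈ univ.filter (fun e : Ω × Ω => e ∈ XM C X Y Z i a b), gX e := by
      refine sum_fiber T _ (fun t => (t.1, t.2.1)) gX
        (fun e => inv_nonneg.2 (Nat.cast_nonneg _)) L
        (fun t ht => mem_filter.2 ⟨mem_univ _, mX t ht⟩) ?_
      intro e he
      have he' : e ∈ XM C X Y Z i a b := (mem_filter.1 he).2
      refine le_trans ?_ (h.upX i a ha b hb c hc' e.1 e.2 he'.1)
      rw [Nat.card_eq_fintype_card, Fintype.card_subtype]
      refine Finset.card_le_card_of_injOn (fun t => t.2.2) ?_ ?_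
      · intro t ht
        obtain ⟨t1, t2⟩ := mem_filter.1 ht
        obtain ⟨h1, h2, h3⟩ := hTm t t1
        subst t2
        exact mem_filter.2 ⟨mem_univ _, h2, h3⟩
      · intro t ht t' ht' hh
        have t2 := (mem_filter.1 ht).2
        have t2' := (mem_filter.1 ht').2
        rw [← t2', Prod.mk.injEq] at t2
        exact Prod.ext t2.1 (Prod.ext t2.2 hh)
    have hY : ∑ t ∈ T, gY (t.2.1, t.2.2) ≤
        L * ∑ e ∈ univ.filter (fun e : Ω × Ω => e ∈ XM A Y Z X i b c), gY e := by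
      refine sum_fiber T _ (fun t => (t.2.1, t.2.2)) gY
        (fun e => inv_nonneg.2 (Nat.cast_nonneg _)) L
        (fun t ht => mem_filter.2 ⟨mem_univ _, mY t ht⟩) ?_
      intro e he
      have he' : e ∈ XM A Y Z X i b c := (mem_filter.1 he).2
      refine le_trans ?_ (h.upY i a ha b hb c hc' e.1 e.2 he'.1)
      rw [Nat.card_eq_fintype_card, Fintype.card_subtype]
      refine Finset.card_le_card_of_injOn (fun t => t.1) ?_ ?_
      · intro t ht
        obtain ⟨t1, t2⟩ := mem_filter.1 ht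
        obtain ⟨h1, h2, h3⟩ := hTm t t1
        subst t2
        exact mem_filter.2 ⟨mem_univ _, h3, h1⟩
      · intro t ht t' ht' hh
        have t2 := (mem_filter.1 ht).2
        have t2' := (mem_filter.1 ht').2
        rw [← t2', Prod.mk.injEq] at t2
        exact Prod.ext hh (Prod.ext t2.1 t2.2)
    have hZ : ∑ t ∈ T, gZ (t.2.2, t.1) ≤
        L * ∑ e ∈ univ.filter (fun e : Ω × Ω => e ∈ XM B Z X Y i c a), gZ e := by
      refine sum_fiber T _ (fun t => (t.2.2, t.1)) gZ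
        (fun e => inv_nonneg.2 (Nat.cast_nonneg _)) L
        (fun t ht => mem_filter.2 ⟨mem_univ _, mZ t ht⟩) ?_
      intro e he
      have he' : e ∈ XM B Z X Y i c a := (mem_filter.1 he).2
      refine le_trans ?_ (h.upZ i a ha b hb c hc' e.1 e.2 he'.1)
      rw [Nat.card_eq_fintype_card, Fintype.card_subtype]
      refine Finset.card_le_card_of_injOn (fun t => t.2.1) ?_ ?_
      · intro t ht
        obtain ⟨t1, t2⟩ := mem_filter.1 ht
        obtain ⟨h1, h2, h3⟩ := hTm t t1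
        subst t2
        exact mem_filter.2 ⟨mem_univ _, h1, h2⟩
      · intro t ht t' ht' hh
        have t2 := (mem_filter.1 ht).2
        have t2' := (mem_filter.1 ht').2
        rw [← t2', Prod.mk.injEq] at t2
        exact Prod.ext t2.2 (Prod.ext hh t2.1)
    calc (s i : ℝ) ≤ ∑ t ∈ T, (1 : ℝ) := hsum1
      _ ≤ ∑ t ∈ T, K * (M / c₀ * gX (t.1, t.2.1) + M / l * gY (t.2.1, t.2.2) +
          M / m * gZ (t.2.2, t.1)) := sum_le_sum hpt
      _ = K * (M / c₀ * ∑ t ∈ T, gX (t.1, t.2.1) + M / l * ∑ t ∈ T, gY (t.2.1, t.2.2) +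
          M / m * ∑ t ∈ T, gZ (t.2.2, t.1)) := by
          rw [← Finset.mul_sum, Finset.sum_add_distrib, Finset.sum_add_distrib,
            ← Finset.mul_sum, ← Finset.mul_sum, ← Finset.mul_sum]
      _ ≤ _ := by
          refine mul_le_mul_of_nonneg_left ?_ hK0
          have w0 := mul_le_mul_of_nonneg_left hX (show (0 : ℝ) ≤ M / c₀ by positivity)
          have w1 := mul_le_mul_of_nonneg_left hY (show (0 : ℝ) ≤ M / l by positivity)
          have w2 := mul_le_mul_of_nonneg_left hZ (show (0 : ℝ) ≤ M / m by positivity)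
          linarith
  -- sum over `a, b, c`
  set FX : ℝ := FF H A B (XM C X Y Z) i with hFX
  set FY : ℝ := FF H B C (XM A Y Z X) i with hFY
  set FZ : ℝ := FF H C A (XM B Z X Y) i with hFZ
  have hall : l * m * c₀ * (s i : ℝ) ≤ K * (M * (L * (FX + FY + FZ))) := by
    calc l * m * c₀ * (s i : ℝ) = ∑ a ∈ A i, ∑ b ∈ B i, ∑ c ∈ C i, (s i : ℝ) := by
          simp only [sum_const, nsmul_eq_mul]
          rw [hld, hmd, hcd]
          ring
      _ ≤ ∑ a ∈ A i, ∑ b ∈ B i, ∑ c ∈ C i,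
          K * (M / c₀ * (L * ∑ e ∈ univ.filter (fun e : Ω × Ω => e ∈ XM C X Y Z i a b), gX e) +
          M / l * (L * ∑ e ∈ univ.filter (fun e : Ω × Ω => e ∈ XM A Y Z X i b c), gY e) +
          M / m * (L * ∑ e ∈ univ.filter (fun e : Ω × Ω => e ∈ XM B Z X Y i c a), gZ e)) :=
          sum_le_sum fun a ha => sum_le_sum fun b hb => sum_le_sum fun c hc =>
            hone a ha b hb c hc
      _ = K * (M / c₀ * (L * (c₀ * FX)) + M / l * (L * (l * FY)) +
            M / m * (L * (m * FZ))) := by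
          have t1 : ∑ a ∈ A i, ∑ b ∈ B i, ∑ _c ∈ C i,
              ∑ e ∈ univ.filter (fun e : Ω × Ω => e ∈ XM C X Y Z i a b), gX e = c₀ * FX := by
            simp only [Finset.sum_const, nsmul_eq_mul, ← Finset.mul_sum]
            rfl
          have t2 : ∑ _a ∈ A i, ∑ b ∈ B i, ∑ c ∈ C i,
              ∑ e ∈ univ.filter (fun e : Ω × Ω => e ∈ XM A Y Z X i b c), gY e = l * FY := by
            simp only [Finset.sum_const, nsmul_eq_mul]
            rfl
          have t3 : ∑ a ∈ A i, ∑ _b ∈ B i, ∑ c ∈ C i,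
              ∑ e ∈ univ.filter (fun e : Ω × Ω => e ∈ XM B Z X Y i c a), gZ e = m * FZ := by
            simp only [Finset.sum_const, nsmul_eq_mul, ← Finset.mul_sum]
            rw [Finset.sum_comm]
            rfl
          rw [← t1, ← t2, ← t3]
          simp only [← Finset.mul_sum, Finset.sum_add_distrib]
      _ = K * (M * (L * (FX + FY + FZ))) := by
          field_simp
  rw [hM2]
  have h7 : M * (M ^ 2 * (s i : ℝ)) ≤ M * ((L : ℝ) * K * (FX + FY + FZ)) := by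
    calc M * (M ^ 2 * (s i : ℝ)) = M ^ 3 * (s i : ℝ) := by ring
      _ = l * m * c₀ * (s i : ℝ) := by rw [hM3]
      _ ≤ _ := hall
      _ = _ := by ring
  exact le_of_mul_le_mul_left h7 hM0

end

end Pool.Agent.N726.CC.Avl

namespace Pool.Agent.N726.CC

open Finset
open Pool.Agent.N726.BG

/-- leaf AVL -/
theorem avl : S_AVL := by
  intro Ω H _ _ _ _ D hD I α _ A B C X Y Z L hL h hyp s hs
  classical
  have hW : Avl.WW A B C X Y Z L :=
    { only := by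
        intro i j k a ha b hb b' hb' c hc c' hc' a' ha' p q r h1 h2 h3
        rcases h.pos i j k a ha b hb b' hb' c hc c' hc' a' ha' p q r h1 h2 h3 with h4 | h4
        · exact absurd h4 (by norm_num)
        · exact h4
      upX := h.upX
      upY := h.upY
      upZ := h.upZ }
  have hyp' : ∀ p q r : Ω, Avo.nu H (Avo.UU A B (Avl.XM C X Y Z)) p q *
      Avo.nu H (Avo.UU B C (Avl.XM A Y Z X)) q r *
      Avo.nu H (Avo.UU C A (Avl.XM B Z X Y)) r p * D ≤ 4 * L ^ 2 * Fintype.card H ^ 3 := by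
    intro p q r
    have h0 := hyp p q r
    have e1 : Avo.nu H (Avo.UU A B (Avl.XM C X Y Z)) p q =
        Nat.card {h : H // ∃ i, ∃ a ∈ A i, ∃ b ∈ B i, ∃ c ∈ C i,
          ∃ t, (p, h • q) ∈ X i a b ∧ (h • q, t) ∈ Y i b c ∧ (t, p) ∈ Z i c a} := by
      refine Nat.card_congr (Equiv.subtypeEquivRight fun k => ⟨?_, ?_⟩)
      · rintro ⟨i, a, ha, b, hb, h1, c, hc, t, h2, h3⟩
        exact ⟨i, a, ha, b, hb, c, hc, t, h1, h2, h3⟩
      · rintro ⟨i, a, ha, b, hb, c, hc, t, h1, h2, h3⟩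
        exact ⟨i, a, ha, b, hb, h1, c, hc, t, h2, h3⟩
    have e2 : Avo.nu H (Avo.UU B C (Avl.XM A Y Z X)) q r =
        Nat.card {h : H // ∃ i, ∃ a ∈ A i, ∃ b ∈ B i, ∃ c ∈ C i,
          ∃ t, (t, q) ∈ X i a b ∧ (q, h • r) ∈ Y i b c ∧ (h • r, t) ∈ Z i c a} := by
      refine Nat.card_congr (Equiv.subtypeEquivRight fun k => ⟨?_, ?_⟩)
      · rintro ⟨i, b, hb, c, hc, h1, a, ha, t, h2, h3⟩
        exact ⟨i, a, ha, b, hb, c, hc, t, h3, h1, h2⟩
      · rintro ⟨i, a, ha, b, hb, c, hc, t, h1, h2, h3⟩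
        exact ⟨i, b, hb, c, hc, h2, a, ha, t, h3, h1⟩
    have e3 : Avo.nu H (Avo.UU C A (Avl.XM B Z X Y)) r p =
        Nat.card {h : H // ∃ i, ∃ a ∈ A i, ∃ b ∈ B i, ∃ c ∈ C i,
          ∃ t, (h • p, t) ∈ X i a b ∧ (t, r) ∈ Y i b c ∧ (r, h • p) ∈ Z i c a} := by
      refine Nat.card_congr (Equiv.subtypeEquivRight fun k => ⟨?_, ?_⟩)
      · rintro ⟨i, c, hc, a, ha, h1, b, hb, t, h2, h3⟩
        exact ⟨i, a, ha, b, hb, c, hc, t, h2, h3, h1⟩
      · rintro ⟨i, a, ha, b, hb, c, hc, t, h1, h2, h3⟩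
        exact ⟨i, c, hc, a, ha, h3, b, hb, t, h1, h2⟩
    rw [e1, e2, e3]
    exact h0
  set I' : Finset I := univ.filter fun i => (A i).Nonempty ∧ (B i).Nonempty ∧ (C i).Nonempty
    with hI'
  have e0 : ∑ i, (((A i).card * (B i).card * (C i).card : ℕ) : ℝ) ^ ((2 : ℝ) / 3) * s i =
      ∑ i ∈ I', (((A i).card * (B i).card * (C i).card : ℕ) : ℝ) ^ ((2 : ℝ) / 3) * s i := by
    symm
    refine Finset.sum_subset (Finset.subset_univ _) fun i _ hi => ?_
    have h1 : (A i).card * (B i).card * (C i).card = 0 := by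
      by_contra hne
      apply hi
      rw [hI', mem_filter]
      have h2 : (A i).card ≠ 0 := fun h => hne (by rw [h]; simp)
      have h3 : (B i).card ≠ 0 := fun h => hne (by rw [h]; simp)
      have h4 : (C i).card ≠ 0 := fun h => hne (by rw [h]; simp)
      exact ⟨mem_univ _, Finset.card_ne_zero.1 h2, Finset.card_ne_zero.1 h3,
        Finset.card_ne_zero.1 h4⟩
    rw [h1, Nat.cast_zero, Real.zero_rpow (by norm_num), zero_mul]
  have k1 := Avl.sum_ff (H := H) hW I'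
  have k2 := Avl.sum_ff (H := H) hW.rot I'
  have k3 := Avl.sum_ff (H := H) hW.rot.rot I'
  rw [e0]
  have hLp : (0 : ℝ) ≤ L := Nat.cast_nonneg _
  calc ∑ i ∈ I', (((A i).card * (B i).card * (C i).card : ℕ) : ℝ) ^ ((2 : ℝ) / 3) * s i
      ≤ ∑ i ∈ I', (L : ℝ) * (((4 * (L : ℝ) ^ 2) / D) ^ ((1 : ℝ) / 3) *
          ((Fintype.card H : ℝ) / 3)) *
        (Avo.FF H A B (Avl.XM C X Y Z) i + Avo.FF H B C (Avl.XM A Y Z X) i +
          Avo.FF H C A (Avl.XM B Z X Y) i) :=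
        sum_le_sum fun i hi => Avl.local_bound hD hL hW hyp' hs i (mem_filter.1 hi).2.1
          (mem_filter.1 hi).2.2.1 (mem_filter.1 hi).2.2.2
    _ = (L : ℝ) * ((4 * (L : ℝ) ^ 2) / D) ^ ((1 : ℝ) / 3) *
        (((Fintype.card H : ℝ) * ∑ i ∈ I', Avo.FF H A B (Avl.XM C X Y Z) i +
        (Fintype.card H : ℝ) * ∑ i ∈ I', Avo.FF H B C (Avl.XM A Y Z X) i +
        (Fintype.card H : ℝ) * ∑ i ∈ I', Avo.FF H C A (Avl.XM B Z X Y) i) / 3) := by
        simp only [← Finset.mul_sum, Finset.sum_add_distrib]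
        ring
    _ ≤ _ := by
        refine mul_le_mul_of_nonneg_left ?_ (by positivity)
        linarith

end Pool.Agent.N726.CC
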