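import Pool.Agent.N726.CC.Stm4
import Pool.Agent.N726.BG.Blo

/-!
# Leaf BK2: the bound for diagonal families, by a lift to a free action
-/

set_option autoImplicit false

namespace Pool.Agent.N726.CC

open Finset
open Pool.Agent.N726.BG

namespace Bk2

section frame

variable {H E : Type} [Group H] [MulAction H E]

/-- trivial stabilizer -/
def Fr (H : Type) {E : Type} [Group H] [MulAction H E] (e : E) : Prop := ∀ h : H, h • e = e → h = 1

lemma Fr.smul {e : E} (hf : Fr H e) (h : H) : Fr H (h • e) := by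
  intro k hk
  have h1 : (h⁻¹ * k * h) • e = e := by
    rw [mul_smul, mul_smul, hk, inv_smul_smul]
  have h2 := hf _ h1
  have h3 : k = h * (h⁻¹ * k * h) * h⁻¹ := by group
  rw [h3, h2]
  group

lemma Fr.smul_iff {e : E} (h : H) : Fr H (h • e) ↔ Fr H e := by
  constructor
  · intro hf
    have := hf.smul h⁻¹
    rwa [inv_smul_smul] at this
  · intro hf
    exact hf.smul h

/-- the representative of the orbit -/
noncomputable def rep (H : Type) {E : Type} [Group H] [MulAction H E] (e : E) : E :=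
  Quotient.out (Quotient.mk (MulAction.orbitRel H E) e)

lemma rep_smul (h : H) (e : E) : rep H (h • e) = rep H e := by
  unfold rep
  congr 1
  exact Quotient.sound ⟨h, rfl⟩

lemma exists_tau (e : E) : ∃ h : H, h • rep H e = e := by
  have h1 : (MulAction.orbitRel H E) (rep H e) e := Quotient.exact (Quotient.out_eq _)
  have h2 : rep H e ∈ MulAction.orbit H e := h1
  obtain ⟨k, hk⟩ := h2
  refine ⟨k⁻¹, ?_⟩
  rw [← hk]
  exact inv_smul_smul k e

/-- the element which moves the representative to `e` -/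
noncomputable def tau (H : Type) {E : Type} [Group H] [MulAction H E] (e : E) : H :=
  (exists_tau (H := H) e).choose

lemma tau_smul (e : E) : tau H e • rep H e = e := (exists_tau (H := H) e).choose_spec

lemma tau_mul {e : E} (hf : Fr H e) (h : H) : tau H (h • e) = h * tau H e := by
  have h1 : tau H (h • e) • rep H e = (h * tau H e) • rep H e := by
    rw [mul_smul, tau_smul, ← rep_smul h e, tau_smul]
  have h2 : rep H e = (tau H e)⁻¹ • e := by
    rw [eq_inv_smul_iff, tau_smul]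
  have h3 : (tau H e * ((h * tau H e)⁻¹ * tau H (h • e)) * (tau H e)⁻¹) • e = e := by
    rw [mul_smul, ← h2, mul_smul, mul_smul, h1, inv_smul_smul, tau_smul]
  have h4 := hf _ h3
  have h5 : tau H (h • e) = (h * tau H e) * (tau H e)⁻¹ *
      (tau H e * ((h * tau H e)⁻¹ * tau H (h • e)) * (tau H e)⁻¹) * tau H e := by group
  rw [h5, h4]
  group

end frame

lemma frame (H E : Type) [Group H] [Fintype H] [MulAction H E] [Finite E] (n : ℕ)
    (hn : Fintype.card H = n) :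
    ∃ (O : Type) (_ : Fintype O) (o : E → O) (lam : E → H → Fin n),
      (∀ e, Function.Bijective (lam e)) ∧ (∀ e (h : H), o (h • e) = o e) ∧
      (∀ e, Fr H e → ∀ h g : H, lam (h • e) (h * g) = lam e g) ∧
      (∀ e e', o e = o e' → ∃ h : H, e' = h • e ∧ ∀ a b, lam e a = lam e' b → b = h * a) := by
  classical
  subst hn
  have hfin : Finite (Quotient (MulAction.orbitRel H E)) := inferInstance
  refine ⟨Quotient (MulAction.orbitRel H E), Fintype.ofFinite _, Quotient.mk _,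
    fun e g => Fintype.equivFin H ((tau H e)⁻¹ * g), ?_, ?_, ?_, ?_⟩
  · intro e
    exact (Fintype.equivFin H).bijective.comp (Group.mulLeft_bijective _)
  · intro e h
    exact Quotient.sound ⟨h, rfl⟩
  · intro e hf h g
    simp only
    rw [tau_mul hf]
    congr 1
    group
  · intro e e' he
    have hrep : rep H e = rep H e' := by
      unfold rep
      rw [he]
    refine ⟨tau H e' * (tau H e)⁻¹, ?_, ?_⟩
    · have h2 : (tau H e)⁻¹ • e = rep H e := by
        rw [inv_smul_eq_iff, tau_smul]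
      rw [mul_smul, h2, hrep, tau_smul]
    · intro a b hab
      have h1 := (Fintype.equivFin H).injective hab
      have h2 : b = tau H e' * ((tau H e')⁻¹ * b) := by group
      rw [h2, ← h1]
      group

lemma bound3 {α : Type} [Finite α] (f g h : α → ℤ) : ∃ B : ℤ, 0 ≤ B ∧
    ∀ a, |f a| ≤ B ∧ |g a| ≤ B ∧ |h a| ≤ B := by
  obtain ⟨B, hB⟩ := (Set.finite_range (fun a => |f a| + |g a| + |h a|)).bddAbove
  refine ⟨max B 0, le_max_right _ _, fun a => ?_⟩
  have h1 : |f a| + |g a| + |h a| ≤ B := hB ⟨a, rfl⟩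
  have h2 := abs_nonneg (f a)
  have h3 := abs_nonneg (g a)
  have h4 := abs_nonneg (h a)
  have h5 := le_max_left B 0
  exact ⟨by linarith, by linarith, by linarith⟩

section tri

variable {Ω H D : Type} [Group H] [MulAction H Ω] {X Y Z : D → Set (Ω × Ω)} {u v w : Ω × Ω → ℤ}

/-- triangles -/
def Tr (X Y Z : D → Set (Ω × Ω)) (d : D) (p q r : Ω) : Prop :=
  (p, q) ∈ X d ∧ (q, r) ∈ Y d ∧ (r, p) ∈ Z d

lemma uniX (hD : DF H X Y Z u v w) {d d' : D} {p q r r' : Ω} (h : Tr X Y Z d p q r)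
    (h' : Tr X Y Z d' p q r') : d = d' ∧ r = r' := by
  have hd : d = d' := by
    by_contra hne
    have h1 := hD.zero d p q r h.1 h.2.1 h.2.2
    have h2 := hD.neg d' d d p q r h'.1 h.2.1 h.2.2 (fun h3 => hne h3.1.symm)
    omega
  subst hd
  refine ⟨rfl, ?_⟩
  obtain ⟨r₀, -, h3⟩ := hD.oneX d p q h.1
  rw [h3 r h.2, h3 r' h'.2]

lemma uniY (hD : DF H X Y Z u v w) {d d' : D} {p p' q r : Ω} (h : Tr X Y Z d p q r)
    (h' : Tr X Y Z d' p' q r) : d = d' ∧ p = p' := by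
  have hd : d = d' := by
    by_contra hne
    have h1 := hD.zero d p q r h.1 h.2.1 h.2.2
    have h2 := hD.neg d d' d p q r h.1 h'.2.1 h.2.2 (fun h3 => hne h3.1)
    omega
  subst hd
  refine ⟨rfl, ?_⟩
  obtain ⟨r₀, -, h3⟩ := hD.oneY d q r h.2.1
  rw [h3 p ⟨h.2.2, h.1⟩, h3 p' ⟨h'.2.2, h'.1⟩]

lemma uniZ (hD : DF H X Y Z u v w) {d d' : D} {p q q' r : Ω} (h : Tr X Y Z d p q r)
    (h' : Tr X Y Z d' p q' r) : d = d' ∧ q = q' := by
  have hd : d = d' := by
    by_contra hne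
    have h1 := hD.zero d p q r h.1 h.2.1 h.2.2
    have h2 := hD.neg d d d' p q r h.1 h.2.1 h'.2.2 (fun h3 => hne h3.2)
    omega
  subst hd
  refine ⟨rfl, ?_⟩
  obtain ⟨r₀, -, h3⟩ := hD.oneZ d r p h.2.2
  rw [h3 q ⟨h.1, h.2.1⟩, h3 q' ⟨h'.1, h'.2.1⟩]

lemma triX (hD : DF H X Y Z u v w) {d : D} {p q : Ω} (h : (p, q) ∈ X d) :
    ∃ r, Tr X Y Z d p q r := by
  obtain ⟨r, hr, -⟩ := hD.oneX d p q h
  exact ⟨r, h, hr.1, hr.2⟩

lemma triY (hD : DF H X Y Z u v w) {d : D} {q r : Ω} (h : (q, r) ∈ Y d) :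
    ∃ p, Tr X Y Z d p q r := by
  obtain ⟨p, hp, -⟩ := hD.oneY d q r h
  exact ⟨p, hp.2, h, hp.1⟩

lemma triZ (hD : DF H X Y Z u v w) {d : D} {r p : Ω} (h : (r, p) ∈ Z d) :
    ∃ q, Tr X Y Z d p q r := by
  obtain ⟨q, hq, -⟩ := hD.oneZ d r p h
  exact ⟨q, hq.1, hq.2, h⟩

lemma tri_smul (hD : DF H X Y Z u v w) {d : D} {p q r : Ω} (h : Tr X Y Z d p q r) (k : H) :
    Tr X Y Z d (k • p) (k • q) (k • r) :=
  ⟨hD.invX d _ h.1 k, hD.invY d _ h.2.1 k, hD.invZ d _ h.2.2 k⟩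

end tri

end Bk2

open Bk2 in
theorem bk2 (h : S_PVO) : S_BK2 := by
  classical
  intro Ω H F _ _ _ _ _ J hJ D _ s X Y Z u v w hD hs
  have hn1 : 1 ≤ Fintype.card H := Fintype.card_pos
  generalize hn : Fintype.card H = n at hn1 ⊢
  obtain ⟨O, _, o, lam, lbij, oinv, linv, lsep⟩ := frame H (Ω × Ω) n hn
  obtain ⟨σ, hσ⟩ := Blo.pigeon n hn1
  obtain ⟨B, hB0, hB⟩ := bound3 (Blo.kx (ι := O) (m := n) σ) (Blo.ky (ι := O) (m := n) σ)
    (Blo.kz (ι := O) (m := n) σ)
  set M : ℤ := 4 * B + 1 with hM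
  -- the choice functions
  have hpY0 : ∀ q r : Ω, ∃ p, (∃ p' d, Tr X Y Z d p' q r) → ∃ d, Tr X Y Z d p q r := by
    intro q r
    by_cases h1 : ∃ p' d, Tr X Y Z d p' q r
    · obtain ⟨p', d, h2⟩ := h1
      exact ⟨p', fun _ => ⟨d, h2⟩⟩
    · exact ⟨q, fun h2 => absurd h2 h1⟩
  choose pY hpY using hpY0
  have hqZ0 : ∀ r p : Ω, ∃ q, (∃ q' d, Tr X Y Z d p q' r) → ∃ d, Tr X Y Z d p q r := by
    intro r p
    by_cases h1 : ∃ q' d, Tr X Y Z d p q' r
    · obtain ⟨q', d, h2⟩ := h1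
      exact ⟨q', fun _ => ⟨d, h2⟩⟩
    · exact ⟨p, fun h2 => absurd h2 h1⟩
  choose qZ hqZ using hqZ0
  have hrX0 : ∀ e : Ω × Ω, ∃ r, (∃ d, e ∈ X d) → ∃ d, Tr X Y Z d e.1 e.2 r := by
    intro e
    by_cases h1 : ∃ d, e ∈ X d
    · obtain ⟨d, h2⟩ := h1
      obtain ⟨r, hr⟩ := triX hD (p := e.1) (q := e.2) h2
      exact ⟨r, fun _ => ⟨d, hr⟩⟩
    · exact ⟨e.1, fun h2 => absurd h2 h1⟩
  choose rX hrX using hrX0
  -- the weights
  let lb : Ω × Ω → H → H → O × Fin n × Fin n := fun e g g' => (o e, lam e g, lam e g')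
  let KX : (Ω × H) × (Ω × H) → ℤ := fun e => if Fr H (e.1.1, e.2.1) then
    M * u (e.1.1, e.2.1) + Blo.kx σ (lb (e.1.1, e.2.1) e.1.2 e.2.2) else 0
  let KY : (Ω × H) × (Ω × H) → ℤ := fun e => if ∃ p d, Tr X Y Z d p e.1.1 e.2.1 then
    M * v (e.1.1, e.2.1) + Blo.ky σ (lb (pY e.1.1 e.2.1, e.1.1) e.1.2 e.2.2) else 0
  let KZ : (Ω × H) × (Ω × H) → ℤ := fun e => if ∃ q d, Tr X Y Z d e.2.1 q e.1.1 then
    M * w (e.1.1, e.2.1) + Blo.kz σ (lb (e.2.1, qZ e.1.1 e.2.1) e.1.2 e.2.2) else 0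
  have EX : ∀ {d : D} {p q r : Ω} (g g' : H), Tr X Y Z d p q r → KX ((p, g), (q, g')) =
      M * u (p, q) + Blo.kx σ (lb (p, q) g g') := by
    intro d p q r g g' ht
    exact if_pos (hD.freeX d _ ht.1)
  have EY : ∀ {d : D} {p q r : Ω} (g g' : H), Tr X Y Z d p q r → KY ((q, g), (r, g')) =
      M * v (q, r) + Blo.ky σ (lb (p, q) g g') := by
    intro d p q r g g' ht
    have h1 : ∃ p d, Tr X Y Z d p q r := ⟨p, d, ht⟩
    obtain ⟨d', h2⟩ := hpY q r h1
    have h3 := (uniY hD h2 ht).2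
    have h4 : KY ((q, g), (r, g')) = M * v (q, r) + Blo.ky σ (lb (pY q r, q) g g') := if_pos h1
    rw [h4, h3]
  have EZ : ∀ {d : D} {p q r : Ω} (g g' : H), Tr X Y Z d p q r → KZ ((r, g), (p, g')) =
      M * w (r, p) + Blo.kz σ (lb (p, q) g g') := by
    intro d p q r g g' ht
    have h1 : ∃ q d, Tr X Y Z d p q r := ⟨q, d, ht⟩
    obtain ⟨d', h2⟩ := hqZ r p h1
    have h3 := (uniZ hD h2 ht).2
    have h4 : KZ ((r, g), (p, g')) = M * w (r, p) + Blo.kz σ (lb (p, qZ r p) g g') := if_pos h1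
    rw [h4, h3]
  have lbinv : ∀ (e : Ω × Ω), Fr H e → ∀ k g g' : H, lb (k • e) (k * g) (k * g') = lb e g g' := by
    intro e he k g g'
    simp only [lb, oinv, linv e he]
  -- invariance of the weights
  have IX : ∀ (k : H) (e : (Ω × H) × (Ω × H)), KX (k • e) = KX e := by
    rintro k ⟨⟨p, g⟩, ⟨q, g'⟩⟩
    show (if Fr H (k • (p, q)) then M * u (k • (p, q)) + Blo.kx σ (lb (k • (p, q)) (k * g) (k * g'))
      else 0) = if Fr H (p, q) then M * u (p, q) + Blo.kx σ (lb (p, q) g g') else 0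
    by_cases hf : Fr H (p, q)
    · rw [if_pos hf, if_pos (hf.smul k), hD.invu, lbinv _ hf]
    · rw [if_neg hf, if_neg (fun h1 => hf ((Fr.smul_iff k).1 h1))]
  have IY : ∀ (k : H) (e : (Ω × H) × (Ω × H)), KY (k • e) = KY e := by
    rintro k ⟨⟨q, g⟩, ⟨r, g'⟩⟩
    by_cases h1 : ∃ p d, Tr X Y Z d p q r
    · obtain ⟨p, d, ht⟩ := h1
      have e1 := EY g g' ht
      have e2 := EY (k * g) (k * g') (tri_smul hD ht k)
      have e3 : lb (k • p, k • q) (k * g) (k * g') = lb (p, q) g g' :=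
        lbinv (p, q) (hD.freeX d _ ht.1) k g g'
      have e4 : v (k • q, k • r) = v (q, r) := hD.invv k (q, r)
      rw [e3, e4, ← e1] at e2
      exact e2
    · have e1 : KY ((q, g), (r, g')) = 0 := if_neg h1
      have e2 : KY ((k • q, k * g), (k • r, k * g')) = 0 := by
        apply if_neg
        rintro ⟨p, d, ht⟩
        apply h1
        have h2 := tri_smul hD ht k⁻¹
        simp only [inv_smul_smul] at h2
        exact ⟨_, d, h2⟩
      rw [e1]
      exact e2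
  have IZ : ∀ (k : H) (e : (Ω × H) × (Ω × H)), KZ (k • e) = KZ e := by
    rintro k ⟨⟨r, g⟩, ⟨p, g'⟩⟩
    by_cases h1 : ∃ q d, Tr X Y Z d p q r
    · obtain ⟨q, d, ht⟩ := h1
      have e1 := EZ g g' ht
      have e2 := EZ (k * g) (k * g') (tri_smul hD ht k)
      have e3 : lb (k • p, k • q) (k * g) (k * g') = lb (p, q) g g' :=
        lbinv (p, q) (hD.freeX d _ ht.1) k g g'
      have e4 : w (k • r, k • p) = w (r, p) := hD.invw k (r, p)
      rw [e3, e4, ← e1] at e2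
      exact e2
    · have e1 : KZ ((r, g), (p, g')) = 0 := if_neg h1
      have e2 : KZ ((k • r, k * g), (k • p, k * g')) = 0 := by
        apply if_neg
        rintro ⟨q, d, ht⟩
        apply h1
        have h2 := tri_smul hD ht k⁻¹
        simp only [inv_smul_smul] at h2
        exact ⟨_, d, h2⟩
      rw [e1]
      exact e2
  -- the sets
  let X' : Finset ((Ω × H) × (Ω × H)) := univ.filter fun e => ∃ d, (e.1.1, e.2.1) ∈ X d
  let Y' : Finset ((Ω × H) × (Ω × H)) := univ.filter fun e => ∃ d, (e.1.1, e.2.1) ∈ Y d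
  let Z' : Finset ((Ω × H) × (Ω × H)) := univ.filter fun e => ∃ d, (e.1.1, e.2.1) ∈ Z d
  have mX : ∀ e, e ∈ X' ↔ ∃ d, (e.1.1, e.2.1) ∈ X d := fun e => by simp [X']
  have mY : ∀ e, e ∈ Y' ↔ ∃ d, (e.1.1, e.2.1) ∈ Y d := fun e => by simp [Y']
  have mZ : ∀ e, e ∈ Z' ↔ ∃ d, (e.1.1, e.2.1) ∈ Z d := fun e => by simp [Z']
  -- the total weight of a triangle
  have tot : ∀ (p q r : Ω) (a b c : H) (d d' d'' : D), (p, q) ∈ X d → (q, r) ∈ Y d' →
      (r, p) ∈ Z d'' →
      (Tr X Y Z d p q r ∧ KX ((p, a), (q, b)) + KY ((q, b), (r, c)) + KZ ((r, c), (p, a)) =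
        Blo.kx σ (o (p, q), lam (p, q) a, lam (p, q) b) +
        Blo.ky σ (o (p, q), lam (p, q) b, lam (p, q) c) +
        Blo.kz σ (o (p, q), lam (p, q) c, lam (p, q) a)) ∨
      KX ((p, a), (q, b)) + KY ((q, b), (r, c)) + KZ ((r, c), (p, a)) < 0 := by
    intro p q r a b c d d' d'' h1 h2 h3
    by_cases hd : d = d' ∧ d' = d''
    · left
      obtain ⟨rfl, rfl⟩ := hd
      have ht : Tr X Y Z d p q r := ⟨h1, h2, h3⟩
      refine ⟨ht, ?_⟩
      rw [EX a b ht, EY b c ht, EZ c a ht]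
      have h0 := hD.zero d p q r h1 h2 h3
      have h4 : M * u (p, q) + M * v (q, r) + M * w (r, p) = 0 := by
        rw [← mul_add, ← mul_add, h0, mul_zero]
      simp only [lb]
      linarith
    · right
      obtain ⟨r₀, t1⟩ := triX hD h1
      obtain ⟨p₀, t2⟩ := triY hD h2
      obtain ⟨q₀, t3⟩ := triZ hD h3
      rw [EX a b t1, EY b c t2, EZ c a t3]
      have h0 := hD.neg d d' d'' p q r h1 h2 h3 hd
      have b1 := (abs_le.1 (hB (lb (p, q) a b)).1).2
      have b2 := (abs_le.1 (hB (lb (p₀, q) b c)).2.1).2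
      have b3 := (abs_le.1 (hB (lb (p, q₀) c a)).2.2).2
      have h4 : M * (u (p, q) + v (q, r) + w (r, p)) ≤ M * (-1) :=
        mul_le_mul_of_nonneg_left (by omega) (by omega)
      have h5 : M * (u (p, q) + v (q, r) + w (r, p)) =
        M * u (p, q) + M * v (q, r) + M * w (r, p) := by ring
      linarith
  let T' : Finset ((Ω × H) × (Ω × H) × (Ω × H)) := univ.filter fun t =>
    (∃ d, Tr X Y Z d t.1.1 t.2.1.1 t.2.2.1) ∧
      (lam (t.1.1, t.2.1.1) t.1.2 : ℕ) + lam (t.1.1, t.2.1.1) t.2.1.2 +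
        lam (t.1.1, t.2.1.1) t.2.2.2 = σ
  have mT : ∀ t, t ∈ T' ↔ (∃ d, Tr X Y Z d t.1.1 t.2.1.1 t.2.2.1) ∧
      (lam (t.1.1, t.2.1.1) t.1.2 : ℕ) + lam (t.1.1, t.2.1.1) t.2.1.2 +
        lam (t.1.1, t.2.1.1) t.2.2.2 = σ := fun t => by simp [T']
  have main := h (Ω × H) H F (fun k p hk => by
      have h1 := congrArg Prod.snd hk
      have h2 : k * p.2 = p.2 := h1
      simpa using h2) J hJ X' Y' Z' KX KY KZ
    (fun k e he => by
      rw [mX] at he ⊢
      obtain ⟨d, hd⟩ := he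
      exact ⟨d, hD.invX d _ hd k⟩)
    (fun k e he => by
      rw [mY] at he ⊢
      obtain ⟨d, hd⟩ := he
      exact ⟨d, hD.invY d _ hd k⟩)
    (fun k e he => by
      rw [mZ] at he ⊢
      obtain ⟨d, hd⟩ := he
      exact ⟨d, hD.invZ d _ hd k⟩)
    IX IY IZ ?_ ?_ T' ?_ ?_ ?_ ?_
  · -- conclusion
    -- the number of edges
    let XE : Finset (Ω × Ω) := univ.biUnion fun d => univ.filter fun e => e ∈ X d
    have mXE : ∀ e, e ∈ XE ↔ ∃ d, e ∈ X d := fun e => by simp [XE]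
    have hXE : Fintype.card D * s ≤ XE.card := by
      rw [card_biUnion]
      · calc Fintype.card D * s = ∑ _d : D, s := by rw [sum_const, card_univ, smul_eq_mul]
          _ ≤ _ := by
            refine sum_le_sum fun d _ => ?_
            refine (hs d).trans (le_of_eq ?_)
            rw [← Nat.card_eq_fintype_card.trans (Fintype.card_subtype (fun e => e ∈ X d))]
      · intro d _ d' _ hne
        rw [Function.onFun, disjoint_left]
        intro e he he'
        rw [mem_filter] at he he'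
        obtain ⟨r, t1⟩ := triX hD (p := e.1) (q := e.2) he.2
        obtain ⟨r', t2⟩ := triX hD (p := e.1) (q := e.2) he'.2
        exact hne (uniX hD t1 t2).1
    let Q0 := univ.filter fun q : Fin n × Fin n × Fin n => (q.1 : ℕ) + q.2.1 + q.2.2 = σ
    choose gl hgl using fun e => (lbij e).2
    let f : (Ω × Ω) × (Fin n × Fin n × Fin n) → (Ω × H) × (Ω × H) × (Ω × H) := fun x =>
      ((x.1.1, gl x.1 x.2.1), (x.1.2, gl x.1 x.2.2.1), (rX x.1, gl x.1 x.2.2.2))
    have hT : (XE ×ˢ Q0).card ≤ T'.card := by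
      apply card_le_card_of_injOn f
      · rintro ⟨e, q⟩ hx
        rw [mem_coe, mem_product] at hx
        have h1 := (mXE e).1 hx.1
        have h2 := (mem_filter.1 hx.2).2
        rw [mem_coe, mT]
        refine ⟨hrX e h1, ?_⟩
        show (lam (e.1, e.2) (gl e q.1) : ℕ) + lam (e.1, e.2) (gl e q.2.1) +
          lam (e.1, e.2) (gl e q.2.2) = σ
        rw [Prod.mk.eta, hgl, hgl, hgl]
        exact h2
      · rintro ⟨e, q⟩ _ ⟨e', q'⟩ _ heq
        simp only [f, Prod.mk.injEq] at heq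
        obtain ⟨⟨a1, a2⟩, ⟨b1, b2⟩, ⟨_, c2⟩⟩ := heq
        have he : e = e' := Prod.ext a1 b1
        subst he
        have a3 := congrArg (lam e) a2
        have b3 := congrArg (lam e) b2
        have c3 := congrArg (lam e) c2
        rw [hgl, hgl] at a3 b3 c3
        have hq : q = q' := Prod.ext a3 (Prod.ext b3 c3)
        rw [hq]
    rw [card_product] at hT
    have h1 : Fintype.card D * s * n ^ 2 ≤ 3 * T'.card := by
      calc Fintype.card D * s * n ^ 2 ≤ XE.card * (3 * Q0.card) := Nat.mul_le_mul hXE hσ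
        _ = 3 * (XE.card * Q0.card) := by ring
        _ ≤ 3 * T'.card := Nat.mul_le_mul_left _ hT
    rw [Fintype.card_prod, hn] at main
    have h2 : n ^ 2 * (Fintype.card D * s * n) ≤
        n ^ 2 * (9 * Fintype.card Ω ^ 2 * (n - Module.finrank F J)) := by
      calc n ^ 2 * (Fintype.card D * s * n) = (Fintype.card D * s * n ^ 2) * n := by ring
        _ ≤ (3 * T'.card) * n := Nat.mul_le_mul_right _ h1
        _ = 3 * (T'.card * n) := by ring
        _ ≤ 3 * (3 * (Fintype.card Ω * n) ^ 2 * (n - Module.finrank F J)) :=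
          Nat.mul_le_mul_left _ main
        _ = _ := by ring
    exact Nat.le_of_mul_le_mul_left h2 (by positivity)
  · -- nonpositivity
    rintro ⟨p, a⟩ ⟨q, b⟩ ⟨r, c⟩ h1 h2 h3
    rw [mX] at h1
    rw [mY] at h2
    rw [mZ] at h3
    obtain ⟨d, h1⟩ := h1
    obtain ⟨d', h2⟩ := h2
    obtain ⟨d'', h3⟩ := h3
    rcases tot p q r a b c d d' d'' h1 h2 h3 with ⟨-, h4⟩ | h4
    · rw [h4]
      by_cases hs' : (lam (p, q) a : ℕ) + lam (p, q) b + lam (p, q) c = σ
      · exact (Blo.k_zero hs').le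
      · exact (Blo.k_neg hs').le
    · exact h4.le
  · -- injectivity on orbits
    rintro ⟨⟨p, a⟩, ⟨q, b⟩⟩ h1 ⟨⟨p', a'⟩, ⟨q', b'⟩⟩ h2 he
    rw [mX] at h1 h2
    obtain ⟨d, h1⟩ := h1
    obtain ⟨d', h2⟩ := h2
    obtain ⟨r, t1⟩ := triX hD h1
    obtain ⟨r', t2⟩ := triX hD h2
    rw [EX a b t1, EX a' b' t2] at he
    have b1 := abs_le.1 (hB (lb (p, q) a b)).1
    have b2 := abs_le.1 (hB (lb (p', q') a' b')).1
    have h3 : u (p, q) = u (p', q') := by
      by_contra hne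
      have h4 : M ∣ Blo.kx σ (lb (p', q') a' b') - Blo.kx σ (lb (p, q) a b) :=
        ⟨u (p, q) - u (p', q'), by linear_combination (-1 : ℤ) * he⟩
      have h5 := Int.eq_zero_of_abs_lt_dvd h4 (by rw [abs_lt]; constructor <;> omega)
      have h6 : M * (u (p, q) - u (p', q')) = 0 := by linear_combination he + h5
      rcases mul_eq_zero.1 h6 with h7 | h7
      · omega
      · exact hne (by omega)
    rw [h3] at he
    have h4 : Blo.kx σ (lb (p, q) a b) = Blo.kx σ (lb (p', q') a' b') := by linarith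
    have h5 := Blo.kx_inj σ h4
    simp only [lb, Prod.mk.injEq] at h5
    obtain ⟨e1, e2, e3⟩ := h5
    obtain ⟨k, hk1, hk2⟩ := lsep _ _ e1
    refine ⟨k, ?_⟩
    have e4 := hk2 a a' e2
    have e5 := hk2 b b' e3
    have e6 : p' = k • p := congrArg Prod.fst hk1
    have e7 : q' = k • q := congrArg Prod.snd hk1
    rw [e4, e5, e6, e7]
    rfl
  · -- the triangles of T'
    rintro ⟨⟨p, a⟩, ⟨q, b⟩, ⟨r, c⟩⟩ ht
    rw [mT] at ht
    obtain ⟨⟨d, ht⟩, hsum⟩ := ht
    refine ⟨(mX _).2 ⟨d, ht.1⟩, (mY _).2 ⟨d, ht.2.1⟩, (mZ _).2 ⟨d, ht.2.2⟩, ?_⟩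
    rcases tot p q r a b c d d d ht.1 ht.2.1 ht.2.2 with ⟨-, h4⟩ | h4
    · rw [h4]
      exact Blo.k_zero hsum
    · exfalso
      rw [EX a b ht, EY b c ht, EZ c a ht] at h4
      have h0 := hD.zero d p q r ht.1 ht.2.1 ht.2.2
      have h5 : M * u (p, q) + M * v (q, r) + M * w (r, p) = 0 := by
        rw [← mul_add, ← mul_add, h0, mul_zero]
      have h6 : Blo.kx σ (lb (p, q) a b) + Blo.ky σ (lb (p, q) b c) + Blo.kz σ (lb (p, q) c a) = 0 :=
        Blo.k_zero hsum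
      linarith
  · -- uniqueness of the third point
    rintro ⟨⟨p, a⟩, ⟨q, b⟩, ⟨r, c⟩⟩ ht ⟨r', c'⟩ h2 h3 h0
    rw [mT] at ht
    obtain ⟨⟨d, ht⟩, hsum⟩ := ht
    rw [mY] at h2
    rw [mZ] at h3
    obtain ⟨d', h2⟩ := h2
    obtain ⟨d'', h3⟩ := h3
    rcases tot p q r' a b c' d d' d'' ht.1 h2 h3 with ⟨t2, h4⟩ | h4
    · have hr := (uniX hD ht t2).2
      subst hr
      have h5 : KX ((p, a), (q, b)) + KY ((q, b), (r, c')) + KZ ((r, c'), (p, a)) = 0 := h0
      rw [h4] at h5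
      by_cases hs' : (lam (p, q) a : ℕ) + lam (p, q) b + lam (p, q) c' = σ
      · have h6 : (lam (p, q) c' : ℕ) = lam (p, q) c := by
          have h7 : (lam (p, q) a : ℕ) + lam (p, q) b + lam (p, q) c = σ := hsum
          omega
        have h8 := (lbij (p, q)).1 (Fin.ext h6)
        rw [h8]
      · exact absurd h5 (Blo.k_neg hs').ne
    · exact absurd h0 (ne_of_lt h4)
  · rintro ⟨⟨p, a⟩, ⟨q, b⟩, ⟨r, c⟩⟩ ht ⟨⟨p', a'⟩, ⟨q', b'⟩, ⟨r', c'⟩⟩ ht' he
    rw [mT] at ht ht'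
    obtain ⟨⟨d, ht⟩, hsum⟩ := ht
    obtain ⟨⟨d', ht'⟩, hsum'⟩ := ht'
    simp only [Prod.mk.injEq] at he
    obtain ⟨⟨rfl, rfl⟩, rfl, rfl⟩ := he
    have h1 := (uniY hD ht ht').2
    simp only at h1
    subst h1
    have h6 : (lam (p, q) a : ℕ) = lam (p, q) a' := by
      have h7 : (lam (p, q) a : ℕ) + lam (p, q) b + lam (p, q) c = σ := hsum
      have h8 : (lam (p, q) a' : ℕ) + lam (p, q) b + lam (p, q) c = σ := hsum'
      omega
    rw [(lbij (p, q)).1 (Fin.ext h6)]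
  · rintro ⟨⟨p, a⟩, ⟨q, b⟩, ⟨r, c⟩⟩ ht ⟨⟨p', a'⟩, ⟨q', b'⟩, ⟨r', c'⟩⟩ ht' he1 he2
    rw [mT] at ht ht'
    obtain ⟨⟨d, ht⟩, hsum⟩ := ht
    obtain ⟨⟨d', ht'⟩, hsum'⟩ := ht'
    simp only [Prod.mk.injEq] at he1 he2
    obtain ⟨rfl, rfl⟩ := he1
    obtain ⟨rfl, rfl⟩ := he2
    have h1 := (uniZ hD ht ht').2
    simp only at h1
    subst h1
    have h6 : (lam (p, q) b : ℕ) = lam (p, q) b' := by
      have h7 : (lam (p, q) a : ℕ) + lam (p, q) b + lam (p, q) c = σ := hsum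
      have h8 : (lam (p, q) a : ℕ) + lam (p, q) b' + lam (p, q) c = σ := hsum'
      omega
    rw [(lbij (p, q)).1 (Fin.ext h6)]

end Pool.Agent.N726.CC
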