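import Pool.Agent.N726.CC.Stm4
import Pool.Agent.N726.BG.Blo

/-!
# Barriers for coherent configurations: from blocks to diagonal families (leaf BKO)
-/

set_option autoImplicit false

namespace Pool.Agent.N726.CC

open Finset
open Pool.Agent.N726.BG

namespace Bko

variable {Ω H : Type} [Group H] [MulAction H Ω]

/-- weights which are constant on disjoint invariant sets -/
lemma weight {T : Type} (S : T → Set (Ω × Ω)) (hdis : ∀ t t' e, e ∈ S t → e ∈ S t' → t = t')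
    (hinv : ∀ t, ∀ e ∈ S t, ∀ h : H, h • e ∈ S t) (f : T → ℤ) :
    ∃ u : Ω × Ω → ℤ, (∀ t, ∀ e ∈ S t, u e = f t) ∧ ∀ (h : H) (e : Ω × Ω), u (h • e) = u e := by
  classical
  have key : ∀ t, ∀ e ∈ S t, (if h : ∃ t, e ∈ S t then f h.choose else 0) = f t := by
    intro t e he
    have h : ∃ t, e ∈ S t := ⟨t, he⟩
    rw [dif_pos h, hdis _ _ e h.choose_spec he]
  refine ⟨fun e => if h : ∃ t, e ∈ S t then f h.choose else 0, key, fun h e => ?_⟩
  by_cases he : ∃ t, e ∈ S t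
  · obtain ⟨t, ht⟩ := he
    exact (key t _ (hinv t e ht h)).trans (key t e ht).symm
  · have he' : ¬ ∃ t, h • e ∈ S t := by
      rintro ⟨t, ht⟩
      apply he
      refine ⟨t, ?_⟩
      have := hinv t _ ht h⁻¹
      rwa [inv_smul_smul] at this
    change (if h' : ∃ t, h • e ∈ S t then f h'.choose else 0) =
      (if h' : ∃ t, e ∈ S t then f h'.choose else 0)
    rw [dif_neg he', dif_neg he]

variable {ι : Type} {m : ℕ} {X Y Z : ι → Fin m → Fin m → Set (Ω × Ω)}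

lemma disX (hC : CF H (fun _ : ι => (univ : Finset (Fin m))) (fun _ => univ) (fun _ => univ) X Y Z)
    (c₀ : Fin m) (t t' : ι × Fin m × Fin m) (e : Ω × Ω) (h : e ∈ X t.1 t.2.1 t.2.2)
    (h' : e ∈ X t'.1 t'.2.1 t'.2.2) : t = t' := by
  obtain ⟨i, a, b⟩ := t
  obtain ⟨i', a', b'⟩ := t'
  obtain ⟨p, q⟩ := e
  obtain ⟨r, ⟨hr1, hr2⟩, -⟩ := hC.oneX i a (mem_univ _) b (mem_univ _) c₀ (mem_univ _) p q h
  obtain ⟨h1, -, h3, h4, -⟩ := hC.only i' i i a' (mem_univ _) b' (mem_univ _) b (mem_univ _) c₀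
    (mem_univ _) c₀ (mem_univ _) a (mem_univ _) p q r h' hr1 hr2
  rw [h1, h3, h4]

lemma disY (hC : CF H (fun _ : ι => (univ : Finset (Fin m))) (fun _ => univ) (fun _ => univ) X Y Z)
    (a₀ : Fin m) (t t' : ι × Fin m × Fin m) (e : Ω × Ω) (h : e ∈ Y t.1 t.2.1 t.2.2)
    (h' : e ∈ Y t'.1 t'.2.1 t'.2.2) : t = t' := by
  obtain ⟨i, b, c⟩ := t
  obtain ⟨i', b', c'⟩ := t'
  obtain ⟨q, r⟩ := e
  obtain ⟨p, ⟨hr1, hr2⟩, -⟩ := hC.oneY i a₀ (mem_univ _) b (mem_univ _) c (mem_univ _) q r h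
  obtain ⟨h1, -, -, h4, h5⟩ := hC.only i i' i a₀ (mem_univ _) b (mem_univ _) b' (mem_univ _) c'
    (mem_univ _) c (mem_univ _) a₀ (mem_univ _) p q r hr2 h' hr1
  rw [h1, h4, h5]

lemma disZ (hC : CF H (fun _ : ι => (univ : Finset (Fin m))) (fun _ => univ) (fun _ => univ) X Y Z)
    (b₀ : Fin m) (t t' : ι × Fin m × Fin m) (e : Ω × Ω) (h : e ∈ Z t.1 t.2.1 t.2.2)
    (h' : e ∈ Z t'.1 t'.2.1 t'.2.2) : t = t' := by
  obtain ⟨i, c, a⟩ := t
  obtain ⟨i', c', a'⟩ := t'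
  obtain ⟨r, p⟩ := e
  obtain ⟨q, ⟨hr1, hr2⟩, -⟩ := hC.oneZ i a (mem_univ _) b₀ (mem_univ _) c (mem_univ _) r p h
  obtain ⟨-, h2, h3, -, h5⟩ := hC.only i i i' a (mem_univ _) b₀ (mem_univ _) b₀ (mem_univ _) c
    (mem_univ _) c' (mem_univ _) a' (mem_univ _) p q r hr1 hr2 h'
  rw [h2, h3, h5]

end Bko

open Bko in
theorem bko (h : S_BK2) : S_BKO := by
  intro Ω H F _ _ _ _ _ J hJ ι _ m s X Y Z hC hs
  rcases Nat.eq_zero_or_pos m with hm | hm
  · subst hm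
    simp
  obtain ⟨s₀, hs₀⟩ := Blo.pigeon m hm
  let o : Fin m := ⟨0, hm⟩
  obtain ⟨u, hu, hui⟩ := weight (H := H) (fun t : ι × Fin m × Fin m => X t.1 t.2.1 t.2.2)
    (disX hC o) (fun t e he h => hC.invX t.1 t.2.1 (mem_univ _) t.2.2 (mem_univ _) e he h)
    (fun t => -(((t.2.1 : ℕ) : ℤ) ^ 2 + 2 * ((t.2.1 : ℕ) : ℤ) * ((t.2.2 : ℕ) : ℤ)
      - 2 * (s₀ : ℤ) * ((t.2.1 : ℕ) : ℤ) + (s₀ : ℤ) ^ 2))
  obtain ⟨v, hv, hvi⟩ := weight (H := H) (fun t : ι × Fin m × Fin m => Y t.1 t.2.1 t.2.2)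
    (disY hC o) (fun t e he h => hC.invY t.1 t.2.1 (mem_univ _) t.2.2 (mem_univ _) e he h)
    (fun t => -(((t.2.1 : ℕ) : ℤ) ^ 2 + 2 * ((t.2.1 : ℕ) : ℤ) * ((t.2.2 : ℕ) : ℤ)
      - 2 * (s₀ : ℤ) * ((t.2.1 : ℕ) : ℤ)))
  obtain ⟨w, hw, hwi⟩ := weight (H := H) (fun t : ι × Fin m × Fin m => Z t.1 t.2.1 t.2.2)
    (disZ hC o) (fun t e he h => hC.invZ t.1 t.2.1 (mem_univ _) t.2.2 (mem_univ _) e he h)
    (fun t => -(((t.2.1 : ℕ) : ℤ) ^ 2 + 2 * ((t.2.1 : ℕ) : ℤ) * ((t.2.2 : ℕ) : ℤ)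
      - 2 * (s₀ : ℤ) * ((t.2.1 : ℕ) : ℤ)))
  have sum_eq : ∀ (i : ι) (a b c : Fin m) (p q r : Ω), (p, q) ∈ X i a b → (q, r) ∈ Y i b c →
      (r, p) ∈ Z i c a → u (p, q) + v (q, r) + w (r, p) =
        -((((a : ℕ) + b + c : ℕ) : ℤ) - s₀) ^ 2 := by
    intro i a b c p q r h1 h2 h3
    rw [hu (i, a, b) _ h1, hv (i, b, c) _ h2, hw (i, c, a) _ h3]
    push_cast
    ring
  have hDF : DF H (D := ι × {q : Fin m × Fin m × Fin m // (q.1 : ℕ) + q.2.1 + q.2.2 = s₀})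
      (fun d => X d.1 d.2.1.1 d.2.1.2.1) (fun d => Y d.1 d.2.1.2.1 d.2.1.2.2)
      (fun d => Z d.1 d.2.1.2.2 d.2.1.1) u v w := by
    refine
      { invX := fun d e he h => hC.invX _ _ (mem_univ _) _ (mem_univ _) e he h
        invY := fun d e he h => hC.invY _ _ (mem_univ _) _ (mem_univ _) e he h
        invZ := fun d e he h => hC.invZ _ _ (mem_univ _) _ (mem_univ _) e he h
        invu := hui
        invv := hvi
        invw := hwi
        freeX := fun d e he h => hC.freeX _ _ (mem_univ _) _ (mem_univ _) e he h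
        freeY := fun d e he h => hC.freeY _ _ (mem_univ _) _ (mem_univ _) e he h
        freeZ := fun d e he h => hC.freeZ _ _ (mem_univ _) _ (mem_univ _) e he h
        zero := ?_
        neg := ?_
        oneX := fun d p q hp => hC.oneX _ _ (mem_univ _) _ (mem_univ _) _ (mem_univ _) p q hp
        oneY := fun d q r hq => hC.oneY _ _ (mem_univ _) _ (mem_univ _) _ (mem_univ _) q r hq
        oneZ := fun d r p hr => hC.oneZ _ _ (mem_univ _) _ (mem_univ _) _ (mem_univ _) r p hr }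
    · rintro ⟨i, ⟨⟨a, b, c⟩, hd⟩⟩ p q r h1 h2 h3
      rw [sum_eq i a b c p q r h1 h2 h3]
      simp only at hd
      rw [hd]
      ring
    · rintro ⟨i, ⟨⟨a, b, c⟩, hd⟩⟩ ⟨i', ⟨⟨a', b', c'⟩, hd'⟩⟩ ⟨i'', ⟨⟨a'', b'', c''⟩, hd''⟩⟩ p q r
        h1 h2 h3 hne
      simp only at h1 h2 h3 hd hd' hd''
      obtain ⟨e1, e2, e3, e4, e5⟩ := hC.only i i' i'' a (mem_univ _) b (mem_univ _) b' (mem_univ _)
        c' (mem_univ _) c'' (mem_univ _) a'' (mem_univ _) p q r h1 h2 h3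
      subst e1 e2 e3 e4 e5
      rw [sum_eq i a b c' p q r h1 h2 h3]
      have hne' : (((a : ℕ) + b + c' : ℕ) : ℤ) - s₀ ≠ 0 := by
        intro h0
        apply hne
        have h4 : (a : ℕ) + b + c' = s₀ := by omega
        have h5 : c' = c := Fin.ext (by omega)
        have h6 : a' = a := Fin.ext (by omega)
        have h7 : b'' = b := Fin.ext (by omega)
        subst h5 h6 h7
        exact ⟨rfl, rfl⟩
      have := sq_pos_of_ne_zero hne'
      linarith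
  have hmain := h Ω H F J hJ (ι × {q : Fin m × Fin m × Fin m // (q.1 : ℕ) + q.2.1 + q.2.2 = s₀}) s
    _ _ _ u v w hDF (fun d => hs _ _ _)
  rw [Fintype.card_prod, Fintype.card_subtype] at hmain
  set Δ := (univ.filter fun q : Fin m × Fin m × Fin m => (q.1 : ℕ) + q.2.1 + q.2.2 = s₀).card
  calc Fintype.card ι * m ^ 2 * s * Fintype.card H
      ≤ Fintype.card ι * (3 * Δ) * s * Fintype.card H := by gcongr
    _ = 3 * (Fintype.card ι * Δ * s * Fintype.card H) := by ring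
    _ ≤ 3 * (9 * Fintype.card Ω ^ 2 * (Fintype.card H - Module.finrank F J)) :=
        Nat.mul_le_mul_left _ hmain
    _ = 27 * Fintype.card Ω ^ 2 * (Fintype.card H - Module.finrank F J) := by ring

end Pool.Agent.N726.CC
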