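import Pool.Agent.N726.CC.Stm

/-!
# Powers of scheme families, words of one type (helper137)
-/

set_option autoImplicit false

namespace Pool.Agent.N726.CC

open Finset
open Pool.Agent.N726.BG

namespace Cls

theorem rotate {G : Type*} [Group G] {I : Type*} {Φ : Subgroup G} {A B C : I → Finset ℕ}
    {x y z : I → ℕ → ℕ → G} {Q : ℕ} (h : HF Φ A B C x y z Q) : HF Φ B C A y z x Q where
  mat := fun i b hb c hc a ha => by
    obtain ⟨s, hs, t, ht, r, hr, e⟩ := h.mat i a ha b hb c hc
    refine ⟨t, ht, r, hr, s, hs, ?_⟩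
    have h1 : t * y i b c * r * z i c a * s * x i a b =
        (s * x i a b)⁻¹ * (s * x i a b * t * y i b c * r * z i c a) * (s * x i a b) := by group
    rw [h1, e]
    group
  only := fun i j k b hb c hc c' hc' a ha a' ha' b' hb' s hs t ht r hr e => by
    have h1 : r * x k a' b' * s * y i b c * t * z j c' a = 1 := by
      have h2 : r * x k a' b' * s * y i b c * t * z j c' a =
          (r * x k a' b') * (s * y i b c * t * z j c' a * r * x k a' b') *
            (r * x k a' b')⁻¹ := by group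
      rw [h2, e]
      group
    obtain ⟨e1, e2, e3, e4, e5⟩ := h.only k i j a' ha' b' hb' b hb c hc c' hc' a ha r hr s hs t ht h1
    exact ⟨e2, (e1.trans e2).symm, e4.symm, e5, e3.symm⟩
  few := fun i b hb c hc a ha => by
    refine le_trans (le_of_eq ?_) (h.few i a ha b hb c hc)
    refine Nat.card_congr
      { toFun := fun q => ⟨(q.1.2.2, q.1.1, q.1.2.1), ?_⟩
        invFun := fun q => ⟨(q.1.2.1, q.1.2.2, q.1.1), ?_⟩
        left_inv := fun q => rfl
        right_inv := fun q => rfl }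
    · have e := q.2
      have h2 : (q.1.2.2 : G) * x i a b * q.1.1 * y i b c * q.1.2.1 * z i c a =
          ((q.1.2.2 : G) * x i a b) *
            ((q.1.1 : G) * y i b c * q.1.2.1 * z i c a * q.1.2.2 * x i a b) *
            ((q.1.2.2 : G) * x i a b)⁻¹ := by group
      change (q.1.2.2 : G) * x i a b * q.1.1 * y i b c * q.1.2.1 * z i c a = 1
      rw [h2, e]
      group
    · have e := q.2
      have h2 : (q.1.2.1 : G) * y i b c * q.1.2.2 * z i c a * q.1.1 * x i a b =
          ((q.1.1 : G) * x i a b)⁻¹ *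
            ((q.1.1 : G) * x i a b * q.1.2.1 * y i b c * q.1.2.2 * z i c a) *
            ((q.1.1 : G) * x i a b) := by group
      change (q.1.2.1 : G) * y i b c * q.1.2.2 * z i c a * q.1.1 * x i a b = 1
      rw [h2, e]
      group

/-- three objects, cyclically -/
def fam3 {α : Type*} (a b c : α) (r : Fin 3) : α := if r = 0 then a else if r = 1 then b else c

theorem fam_hf {G : Type*} [Group G] {I : Type*} {Φ : Subgroup G} {A B C : I → Finset ℕ}
    {x y z : I → ℕ → ℕ → G} {Q : ℕ} (h : HF Φ A B C x y z Q) (r : Fin 3) :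
    HF Φ (fam3 A B C r) (fam3 A B C (r + 1)) (fam3 A B C (r + 2))
      (fam3 x y z r) (fam3 x y z (r + 1)) (fam3 x y z (r + 2)) Q := by
  fin_cases r
  · exact h
  · exact rotate h
  · exact rotate (rotate h)

/-- the power of a subgroup -/
def pw {G κ : Type} [Group G] (Φ : Subgroup G) : Subgroup (κ → G) where
  carrier := {g | ∀ q, g q ∈ Φ}
  mul_mem' := fun ha hb q => Φ.mul_mem (ha q) (hb q)
  one_mem' := fun _ => Φ.one_mem
  inv_mem' := fun ha q => Φ.inv_mem (ha q)

theorem card_pw {G κ : Type} [Group G] [Fintype κ] (Φ : Subgroup G) :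
    Nat.card (pw (κ := κ) Φ) = Nat.card Φ ^ Fintype.card κ := by
  have e : pw (κ := κ) Φ ≃ (κ → Φ) :=
    { toFun := fun g q => ⟨g.1 q, g.2 q⟩
      invFun := fun g => ⟨fun q => (g q : G), fun q => (g q).2⟩
      left_inv := fun g => rfl
      right_inv := fun g => rfl }
  rw [Nat.card_congr e, Nat.card_fun, Nat.card_eq_fintype_card (α := κ)]

end Cls

open Cls

theorem cls (hE : S_EQ) : S_CLS := by
  intro G _ _ Φ ρ hρ hPB I _ _ A B C x y z Q h N τ w₀ hw₀
  classical
  set m := (∏ t, (A (w₀ t)).card) * (∏ t, (B (w₀ t)).card) * (∏ t, (C (w₀ t)).card) with hm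
  let ι := Fin 3 → {w : Fin N → I // N580.typ w = τ}
  have hcardι : Fintype.card ι =
      (Finset.univ.filter fun w : Fin N → I => N580.typ w = τ).card ^ 3 := by
    rw [Fintype.card_fun, Fintype.card_fin, Fintype.card_subtype]
  -- the sets
  let S : Fin 3 → ι → Finset (Fin 3 × Fin N → ℕ) := fun u w =>
    Fintype.piFinset fun q => fam3 A B C (q.1 + u) ((w q.1).1 q.2)
  have hScard : ∀ u w, (S u w).card = m := by
    intro u w
    have h1 : ∀ r : Fin 3, ∏ t, (fam3 A B C r ((w (r - u)).1 t)).card =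
        ∏ t, (fam3 A B C r (w₀ t)).card := by
      intro r
      exact N580.prod_eq_of_typ (fun i => (fam3 A B C r i).card) ((w (r - u)).2.trans hw₀.symm)
    have h2 : (S u w).card = ∏ r : Fin 3, ∏ t, (fam3 A B C (r + u) ((w r).1 t)).card := by
      rw [Fintype.card_piFinset, Fintype.prod_prod_type]
    have h3 : ∏ r : Fin 3, ∏ t, (fam3 A B C (r + u) ((w r).1 t)).card =
        ∏ r : Fin 3, ∏ t, (fam3 A B C r ((w (r - u)).1 t)).card := by
      refine Fintype.prod_equiv (Equiv.addRight u) _ _ ?_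
      intro r
      simp
    rw [h2, h3, Finset.prod_congr rfl fun r _ => h1 r, Fin.prod_univ_three, hm]
    rfl
  have henum : ∀ u w, ∃ f : Fin m → (Fin 3 × Fin N → ℕ), Function.Injective f ∧
      ∀ x, f x ∈ S u w := by
    intro u w
    let e := (S u w).equivFinOfCardEq (hScard u w)
    exact ⟨fun x => (e.symm x : Fin 3 × Fin N → ℕ),
      fun x y hxy => e.symm.injective (Subtype.ext hxy), fun x => (e.symm x).2⟩
  choose f hf hfS using henum
  have m0 : ∀ (r : Fin 3) (k : ι) (x : Fin m) (q : Fin 3 × Fin N),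
      f r k x q ∈ fam3 A B C (q.1 + r) ((k q.1).1 q.2) :=
    fun r k x q => Fintype.mem_piFinset.1 (hfS r k x) q
  have m00 : ∀ (k : ι) (x : Fin m) (q : Fin 3 × Fin N),
      f 0 k x q ∈ fam3 A B C q.1 ((k q.1).1 q.2) := fun k x q => by
    have := m0 0 k x q
    rwa [add_zero] at this
  let X : ι → Fin m → Fin m → (Fin 3 × Fin N → G) := fun i α β q =>
    fam3 x y z q.1 ((i q.1).1 q.2) (f 0 i α q) (f 1 i β q)
  let Y : ι → Fin m → Fin m → (Fin 3 × Fin N → G) := fun i β γ q =>
    fam3 x y z (q.1 + 1) ((i q.1).1 q.2) (f 1 i β q) (f 2 i γ q)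
  let Z : ι → Fin m → Fin m → (Fin 3 × Fin N → G) := fun i γ α q =>
    fam3 x y z (q.1 + 2) ((i q.1).1 q.2) (f 2 i γ q) (f 0 i α q)
  have hκ : Fintype.card (Fin 3 × Fin N) = 3 * N := by
    rw [Fintype.card_prod, Fintype.card_fin, Fintype.card_fin]
  have key := hE (Fin 3 × Fin N → G) (pw Φ) ι m (Q ^ (3 * N)) X Y Z
    ((ρ * Fintype.card G) ^ (3 * N)) ?_ ?_ ?_ ?_
  · rw [hcardι, card_pw, hκ] at key
    have e1 : ((Nat.card Φ ^ (3 * N) : ℕ) : ℝ) ^ 2 = (Nat.card Φ : ℝ) ^ (6 * N) := by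
      push_cast
      rw [← pow_mul]
      congr 1
      ring
    have e2 : ((Q ^ (3 * N) : ℕ) : ℝ) = (Q : ℝ) ^ (3 * N) := by push_cast; rfl
    rw [e1, e2] at key
    rw [Nat.cast_pow] at key
    exact key
  · intro D _ A' B' C' u v w hD
    have := hPB (Fin 3 × Fin N) D A' B' C' u v w hD
    rwa [hκ] at this
  · intro i α β γ
    have h1 : ∀ q : Fin 3 × Fin N, ∃ s ∈ Φ, ∃ t ∈ Φ, ∃ r ∈ Φ,
        s * X i α β q * t * Y i β γ q * r * Z i γ α q = 1 := fun q =>
      (fam_hf h q.1).mat _ _ (m00 i α q) _ (m0 1 i β q) _ (m0 2 i γ q)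
    choose s hs t ht r hr e using h1
    exact ⟨s, hs, t, ht, r, hr, funext e⟩
  · intro i j k α β β' γ γ' α' s hs t ht r hr e
    have hcoord : ∀ q : Fin 3 × Fin N, (i q.1).1 q.2 = (j q.1).1 q.2 ∧
        (j q.1).1 q.2 = (k q.1).1 q.2 ∧ f 0 i α q = f 0 k α' q ∧ f 1 i β q = f 1 j β' q ∧
        f 2 j γ q = f 2 k γ' q := fun q =>
      (fam_hf h q.1).only _ _ _ _ (m00 i α q) _ (m0 1 i β q) _ (m0 1 j β' q) _ (m0 2 j γ q)
        _ (m0 2 k γ' q) _ (m00 k α' q) (s q) (hs q) (t q) (ht q) (r q) (hr q) (congrFun e q)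
    have hij : i = j := by
      funext r
      apply Subtype.ext
      funext t
      exact (hcoord (r, t)).1
    have hjk : j = k := by
      funext r
      apply Subtype.ext
      funext t
      exact (hcoord (r, t)).2.1
    subst hij
    subst hjk
    refine ⟨rfl, rfl, ?_, ?_, ?_⟩
    · exact hf 0 i (funext fun q => (hcoord q).2.2.1)
    · exact hf 1 i (funext fun q => (hcoord q).2.2.2.1)
    · exact hf 2 i (funext fun q => (hcoord q).2.2.2.2)
  · intro i α β γ
    let T : Fin 3 × Fin N → Type := fun p => {q : Φ × Φ × Φ //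
      (q.1 : G) * X i α β p * q.2.1 * Y i β γ p * q.2.2 * Z i γ α p = 1}
    have hT : ∀ p, Nat.card (T p) ≤ Q := fun p =>
      (fam_hf h p.1).few _ _ (m00 i α p) _ (m0 1 i β p) _ (m0 2 i γ p)
    have hfinT : ∀ p, Finite (T p) := fun p => inferInstanceAs (Finite {q : Φ × Φ × Φ //
      (q.1 : G) * X i α β p * q.2.1 * Y i β γ p * q.2.2 * Z i γ α p = 1})
    let F : {q : (pw (κ := Fin 3 × Fin N) Φ) × (pw (κ := Fin 3 × Fin N) Φ) ×
        (pw (κ := Fin 3 × Fin N) Φ) //
        (q.1 : Fin 3 × Fin N → G) * X i α β * q.2.1 * Y i β γ * q.2.2 * Z i γ α = 1} →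
        ∀ p, T p := fun q p =>
      ⟨(⟨q.1.1.1 p, q.1.1.2 p⟩, ⟨q.1.2.1.1 p, q.1.2.1.2 p⟩, ⟨q.1.2.2.1 p, q.1.2.2.2 p⟩),
        congrFun q.2 p⟩
    have hF : Function.Injective F := by
      intro q q' hqq
      have h1 : ∀ p, F q p = F q' p := fun p => congrFun hqq p
      have h2 : ∀ p, q.1.1.1 p = q'.1.1.1 p ∧ q.1.2.1.1 p = q'.1.2.1.1 p ∧
          q.1.2.2.1 p = q'.1.2.2.1 p := by
        intro p
        have h3 := congrArg Subtype.val (h1 p)
        have h4 := Prod.mk.inj h3
        have h5 := Prod.mk.inj h4.2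
        exact ⟨congrArg Subtype.val h4.1, congrArg Subtype.val h5.1, congrArg Subtype.val h5.2⟩
      apply Subtype.ext
      refine Prod.ext (Subtype.ext (funext fun p => (h2 p).1))
        (Prod.ext (Subtype.ext (funext fun p => (h2 p).2.1))
          (Subtype.ext (funext fun p => (h2 p).2.2)))
    refine (Nat.card_le_card_of_injective F hF).trans ?_
    rw [Nat.card_pi]
    refine (Finset.prod_le_prod' fun p _ => hT p).trans ?_
    rw [Finset.prod_const, Finset.card_univ, hκ]

end Pool.Agent.N726.CC
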