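import Pool.Agent.N726.CC.Stm4
import Pool.Agent.N726.CC.Cls

/-!
# Powers of coloured families, words of one type (helper390)

Adapted from `Cls.lean`.
-/

set_option autoImplicit false

namespace Pool.Agent.N726.CC

open Finset
open Pool.Agent.N726.BG

namespace Clo

open Cls (fam3)

theorem rotate {H : Type*} [Group H] {Ω : Type*} [MulAction H Ω] {I α : Type*}
    {A B C : I → Finset α} {X Y Z : I → α → α → Set (Ω × Ω)} (h : CF H A B C X Y Z) :
    CF H B C A Y Z X where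
  invX := h.invY
  invY := h.invZ
  invZ := h.invX
  freeX := h.freeY
  freeY := h.freeZ
  freeZ := h.freeX
  only := fun i j k b hb c hc c' hc' a ha a' ha' b' hb' p q r e1 e2 e3 => by
    obtain ⟨f1, f2, f3, f4, f5⟩ :=
      h.only k i j a' ha' b' hb' b hb c hc c' hc' a ha r p q e3 e1 e2
    exact ⟨f2, (f1.trans f2).symm, f4.symm, f5, f3.symm⟩
  oneX := fun i b hb c hc a ha p q e => h.oneY i a ha b hb c hc p q e
  oneY := fun i b hb c hc a ha q r e => h.oneZ i a ha b hb c hc q r e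
  oneZ := fun i b hb c hc a ha r p e => h.oneX i a ha b hb c hc r p e

theorem fam_cf {H : Type*} [Group H] {Ω : Type*} [MulAction H Ω] {I α : Type*}
    {A B C : I → Finset α} {X Y Z : I → α → α → Set (Ω × Ω)} (h : CF H A B C X Y Z)
    (r : Fin 3) :
    CF H (fam3 A B C r) (fam3 A B C (r + 1)) (fam3 A B C (r + 2))
      (fam3 X Y Z r) (fam3 X Y Z (r + 1)) (fam3 X Y Z (r + 2)) := by
  fin_cases r
  · exact h
  · exact rotate h
  · exact rotate (rotate h)

theorem fam_card {Ω : Type*} {I α : Type*} {A B C : I → Finset α}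
    {X Y Z : I → α → α → Set (Ω × Ω)} {s : I → ℕ}
    (hX : ∀ i, ∀ a ∈ A i, ∀ b ∈ B i, s i ≤ Nat.card (X i a b))
    (hY : ∀ i, ∀ b ∈ B i, ∀ c ∈ C i, s i ≤ Nat.card (Y i b c))
    (hZ : ∀ i, ∀ c ∈ C i, ∀ a ∈ A i, s i ≤ Nat.card (Z i c a)) (r : Fin 3) :
    ∀ i, ∀ a ∈ fam3 A B C r i, ∀ b ∈ fam3 A B C (r + 1) i,
      s i ≤ Nat.card (fam3 X Y Z r i a b) := by
  fin_cases r
  · exact hX
  · exact hY
  · exact hZ

/-- coordinatewise sets of pairs -/
def pairs {κ Ω : Type*} (T : κ → Set (Ω × Ω)) : Set ((κ → Ω) × (κ → Ω)) :=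
  {e | ∀ q, (e.1 q, e.2 q) ∈ T q}

theorem card_pairs {κ Ω : Type*} [Fintype κ] (T : κ → Set (Ω × Ω)) :
    Nat.card (pairs T) = ∏ q, Nat.card (T q) := by
  rw [← Nat.card_pi]
  exact Nat.card_congr
    { toFun := fun e q => ⟨(e.1.1 q, e.1.2 q), e.2 q⟩
      invFun := fun f => ⟨(fun q => (f q).1.1, fun q => (f q).1.2), fun q => (f q).2⟩
      left_inv := fun e => rfl
      right_inv := fun f => rfl }

theorem unique_pi {κ Ω : Type*} {P Q : κ → Ω → Prop} (h : ∀ x, ∃! r, P x r ∧ Q x r) :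
    ∃! r : κ → Ω, (∀ x, P x (r x)) ∧ ∀ x, Q x (r x) := by
  choose r hr using h
  exact ⟨r, ⟨fun x => (hr x).1.1, fun x => (hr x).1.2⟩,
    fun r' h' => funext fun x => (hr x).2 (r' x) ⟨h'.1 x, h'.2 x⟩⟩

end Clo

open Cls (fam3)
open Clo

theorem clo (hB : S_BKO) : S_CLO := by
  intro Ω H _ _ _ _ N t _ hgood I _ _ A B C X Y Z s h hX hY hZ τ w₀ hw₀
  classical
  obtain ⟨F, _, J, hJ, hd⟩ := hgood
  set m := (∏ t, (A (w₀ t)).card) * (∏ t, (B (w₀ t)).card) * (∏ t, (C (w₀ t)).card) with hm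
  let ι := Fin 3 → {w : Fin N → I // N580.typ w = τ}
  have hcardι : Fintype.card ι =
      (Finset.univ.filter fun w : Fin N → I => N580.typ w = τ).card ^ 3 := by
    rw [Fintype.card_fun, Fintype.card_fin, Fintype.card_subtype]
  -- the sets
  let S : Fin 3 → ι → Finset (Fin 3 × Fin N → ℕ) := fun u w =>
    Fintype.piFinset fun q => fam3 A B C (q.1 + u) ((w q.1).1 q.2)
  have hScard : ∀ u w, (S u w).card = m := by
    intro u w
    have h1 : ∀ r : Fin 3, ∏ t, (fam3 A B C r ((w (r - u)).1 t)).card =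
        ∏ t, (fam3 A B C r (w₀ t)).card := by
      intro r
      exact N580.prod_eq_of_typ (fun i => (fam3 A B C r i).card) ((w (r - u)).2.trans hw₀.symm)
    have h2 : (S u w).card = ∏ r : Fin 3, ∏ t, (fam3 A B C (r + u) ((w r).1 t)).card := by
      rw [Fintype.card_piFinset, Fintype.prod_prod_type]
    have h3 : ∏ r : Fin 3, ∏ t, (fam3 A B C (r + u) ((w r).1 t)).card =
        ∏ r : Fin 3, ∏ t, (fam3 A B C r ((w (r - u)).1 t)).card := by
      refine Fintype.prod_equiv (Equiv.addRight u) _ _ ?_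
      intro r
      simp
    rw [h2, h3, Finset.prod_congr rfl fun r _ => h1 r, Fin.prod_univ_three, hm]
    rfl
  have henum : ∀ u w, ∃ f : Fin m → (Fin 3 × Fin N → ℕ), Function.Injective f ∧
      ∀ x, f x ∈ S u w := by
    intro u w
    let e := (S u w).equivFinOfCardEq (hScard u w)
    exact ⟨fun x => (e.symm x : Fin 3 × Fin N → ℕ),
      fun x y hxy => e.symm.injective (Subtype.ext hxy), fun x => (e.symm x).2⟩
  choose f hf hfS using henum
  have m0 : ∀ (r : Fin 3) (k : ι) (x : Fin m) (q : Fin 3 × Fin N),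
      f r k x q ∈ fam3 A B C (q.1 + r) ((k q.1).1 q.2) :=
    fun r k x q => Fintype.mem_piFinset.1 (hfS r k x) q
  have m00 : ∀ (k : ι) (x : Fin m) (q : Fin 3 × Fin N),
      f 0 k x q ∈ fam3 A B C q.1 ((k q.1).1 q.2) := fun k x q => by
    have := m0 0 k x q
    rwa [add_zero] at this
  let X' : ι → Fin m → Fin m → Set ((Fin 3 × Fin N → Ω) × (Fin 3 × Fin N → Ω)) :=
    fun i α β => pairs fun q => fam3 X Y Z q.1 ((i q.1).1 q.2) (f 0 i α q) (f 1 i β q)
  let Y' : ι → Fin m → Fin m → Set ((Fin 3 × Fin N → Ω) × (Fin 3 × Fin N → Ω)) :=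
    fun i β γ => pairs fun q => fam3 X Y Z (q.1 + 1) ((i q.1).1 q.2) (f 1 i β q) (f 2 i γ q)
  let Z' : ι → Fin m → Fin m → Set ((Fin 3 × Fin N → Ω) × (Fin 3 × Fin N → Ω)) :=
    fun i γ α => pairs fun q => fam3 X Y Z (q.1 + 2) ((i q.1).1 q.2) (f 2 i γ q) (f 0 i α q)
  have hκ : Fintype.card (Fin 3 × Fin N) = 3 * N := by
    rw [Fintype.card_prod, Fintype.card_fin, Fintype.card_fin]
  have hCF : CF (Fin 3 × Fin N → H) (fun _ : ι => (univ : Finset (Fin m))) (fun _ => univ)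
      (fun _ => univ) X' Y' Z' :=
    { invX := fun i a _ b _ e he g q =>
        (fam_cf h q.1).invX _ _ (m00 i a q) _ (m0 1 i b q) _ (he q) (g q)
      invY := fun i b _ c _ e he g q =>
        (fam_cf h q.1).invY _ _ (m0 1 i b q) _ (m0 2 i c q) _ (he q) (g q)
      invZ := fun i c _ a _ e he g q =>
        (fam_cf h q.1).invZ _ _ (m0 2 i c q) _ (m00 i a q) _ (he q) (g q)
      freeX := fun i a _ b _ e he g hg => funext fun q =>
        (fam_cf h q.1).freeX _ _ (m00 i a q) _ (m0 1 i b q) _ (he q) (g q)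
          (Prod.ext (congrFun (congrArg Prod.fst hg) q) (congrFun (congrArg Prod.snd hg) q))
      freeY := fun i b _ c _ e he g hg => funext fun q =>
        (fam_cf h q.1).freeY _ _ (m0 1 i b q) _ (m0 2 i c q) _ (he q) (g q)
          (Prod.ext (congrFun (congrArg Prod.fst hg) q) (congrFun (congrArg Prod.snd hg) q))
      freeZ := fun i c _ a _ e he g hg => funext fun q =>
        (fam_cf h q.1).freeZ _ _ (m0 2 i c q) _ (m00 i a q) _ (he q) (g q)
          (Prod.ext (congrFun (congrArg Prod.fst hg) q) (congrFun (congrArg Prod.snd hg) q))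
      only := by
        intro i j k α _ β _ β' _ γ _ γ' _ α' _ p q r hp hq hr
        have hcoord : ∀ x : Fin 3 × Fin N, (i x.1).1 x.2 = (j x.1).1 x.2 ∧
            (j x.1).1 x.2 = (k x.1).1 x.2 ∧ f 0 i α x = f 0 k α' x ∧ f 1 i β x = f 1 j β' x ∧
            f 2 j γ x = f 2 k γ' x := fun x =>
          (fam_cf h x.1).only _ _ _ _ (m00 i α x) _ (m0 1 i β x) _ (m0 1 j β' x) _ (m0 2 j γ x)
            _ (m0 2 k γ' x) _ (m00 k α' x) (p x) (q x) (r x) (hp x) (hq x) (hr x)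
        have hij : i = j := by
          funext r
          apply Subtype.ext
          funext t
          exact (hcoord (r, t)).1
        have hjk : j = k := by
          funext r
          apply Subtype.ext
          funext t
          exact (hcoord (r, t)).2.1
        subst hij
        subst hjk
        refine ⟨rfl, rfl, ?_, ?_, ?_⟩
        · exact hf 0 i (funext fun q => (hcoord q).2.2.1)
        · exact hf 1 i (funext fun q => (hcoord q).2.2.2.1)
        · exact hf 2 i (funext fun q => (hcoord q).2.2.2.2)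
      oneX := fun i a _ b _ c _ p q hp => by
        have h1 : ∀ x : Fin 3 × Fin N, ∃! r : Ω,
            (q x, r) ∈ fam3 X Y Z (x.1 + 1) ((i x.1).1 x.2) (f 1 i b x) (f 2 i c x) ∧
            (r, p x) ∈ fam3 X Y Z (x.1 + 2) ((i x.1).1 x.2) (f 2 i c x) (f 0 i a x) := fun x =>
          (fam_cf h x.1).oneX _ _ (m00 i a x) _ (m0 1 i b x) _ (m0 2 i c x) (p x) (q x) (hp x)
        exact unique_pi h1
      oneY := fun i a _ b _ c _ q r hp => by
        have h1 : ∀ x : Fin 3 × Fin N, ∃! p : Ω,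
            (r x, p) ∈ fam3 X Y Z (x.1 + 2) ((i x.1).1 x.2) (f 2 i c x) (f 0 i a x) ∧
            (p, q x) ∈ fam3 X Y Z x.1 ((i x.1).1 x.2) (f 0 i a x) (f 1 i b x) := fun x =>
          (fam_cf h x.1).oneY _ _ (m00 i a x) _ (m0 1 i b x) _ (m0 2 i c x) (q x) (r x) (hp x)
        exact unique_pi h1
      oneZ := fun i a _ b _ c _ r p hp => by
        have h1 : ∀ x : Fin 3 × Fin N, ∃! q : Ω,
            (p x, q) ∈ fam3 X Y Z x.1 ((i x.1).1 x.2) (f 0 i a x) (f 1 i b x) ∧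
            (q, r x) ∈ fam3 X Y Z (x.1 + 1) ((i x.1).1 x.2) (f 1 i b x) (f 2 i c x) := fun x =>
          (fam_cf h x.1).oneZ _ _ (m00 i a x) _ (m0 1 i b x) _ (m0 2 i c x) (r x) (p x) (hp x)
        exact unique_pi h1 }
  have hsize : ∀ i a b, (∏ t, s (w₀ t)) ^ 3 ≤ Nat.card (X' i a b) := by
    intro i a b
    have e1 : Nat.card (X' i a b) = ∏ q : Fin 3 × Fin N,
        Nat.card (fam3 X Y Z q.1 ((i q.1).1 q.2) (f 0 i a q) (f 1 i b q)) := card_pairs _
    rw [e1]
    have e2 : (∏ t, s (w₀ t)) ^ 3 = ∏ q : Fin 3 × Fin N, s ((i q.1).1 q.2) := by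
      have e3 : ∀ r : Fin 3, ∏ t, s ((i r).1 t) = ∏ t, s (w₀ t) := fun r =>
        N580.prod_eq_of_typ s ((i r).2.trans hw₀.symm)
      rw [Fintype.prod_prod_type, Finset.prod_congr rfl fun r _ => e3 r, Finset.prod_const,
        Finset.card_univ, Fintype.card_fin]
    rw [e2]
    exact Finset.prod_le_prod' fun q _ =>
      fam_card hX hY hZ q.1 _ _ (m00 i a q) _ (m0 1 i b q)
  have key := hB (Fin 3 × Fin N → Ω) (Fin 3 × Fin N → H) F J hJ ι m ((∏ t, s (w₀ t)) ^ 3)
    X' Y' Z' hCF hsize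
  have hle : Module.finrank F J ≤ Fintype.card (Fin 3 × Fin N → H) := by
    have := Submodule.finrank_le J
    rwa [Module.finrank_fintype_fun_eq_card] at this
  have hpos : (0 : ℝ) < Fintype.card (Fin 3 × Fin N → H) := by
    exact_mod_cast Fintype.card_pos
  have key2 : (Fintype.card ι : ℝ) * (m : ℝ) ^ 2 * (∏ t, (s (w₀ t) : ℝ)) ^ 3 *
      (Fintype.card (Fin 3 × Fin N → H) : ℝ) ≤
      27 * (Fintype.card (Fin 3 × Fin N → Ω) : ℝ) ^ 2 *
        ((Fintype.card (Fin 3 × Fin N → H) : ℝ) - Module.finrank F J) := by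
    have h1 : ((Fintype.card ι * m ^ 2 * (∏ t, s (w₀ t)) ^ 3 *
        Fintype.card (Fin 3 × Fin N → H) : ℕ) : ℝ) ≤
        ((27 * Fintype.card (Fin 3 × Fin N → Ω) ^ 2 *
          (Fintype.card (Fin 3 × Fin N → H) - Module.finrank F J) : ℕ) : ℝ) :=
      Nat.cast_le.2 key
    rw [Nat.cast_mul, Nat.cast_mul, Nat.cast_mul, Nat.cast_mul, Nat.cast_mul,
      Nat.cast_sub hle] at h1
    simpa only [Nat.cast_pow, Nat.cast_prod, Nat.cast_ofNat] using h1
  have hΩ : (Fintype.card (Fin 3 × Fin N → Ω) : ℝ) ^ 2 = (Fintype.card Ω : ℝ) ^ (6 * N) := by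
    rw [Fintype.card_fun, hκ, Nat.cast_pow, ← pow_mul]
    congr 1
    ring
  rw [hcardι, Nat.cast_pow, hΩ] at key2
  have key3 : ((Finset.univ.filter fun w : Fin N → I => N580.typ w = τ).card : ℝ) ^ 3 *
      (m : ℝ) ^ 2 * (∏ t, (s (w₀ t) : ℝ)) ^ 3 * (Fintype.card (Fin 3 × Fin N → H) : ℝ) ≤
      27 * (Fintype.card Ω : ℝ) ^ (6 * N) * t * (Fintype.card (Fin 3 × Fin N → H) : ℝ) := by
    refine key2.trans ?_
    calc 27 * (Fintype.card Ω : ℝ) ^ (6 * N) *
        ((Fintype.card (Fin 3 × Fin N → H) : ℝ) - Module.finrank F J)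
        ≤ 27 * (Fintype.card Ω : ℝ) ^ (6 * N) *
          (t * (Fintype.card (Fin 3 × Fin N → H) : ℝ)) := by gcongr
      _ = _ := by ring
  exact le_of_mul_le_mul_right key3 hpos

end Pool.Agent.N726.CC
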