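import Pool.Agent.N726.CC.Stm4
import Pool.Agent.N726.BG.Sect
import Pool.Agent.N726.BG.Ela2
import Pool.Agent.N726.BG.Elb2
import Pool.Agent.N726.BG.Ext
import Pool.Agent.N726.BG.Lrg
import Pool.Agent.N726.BG.Sec

/-!
# Good subgroups (S_GDS)

Project CC3 (helper726); this file by helper2.
-/

set_option autoImplicit false

namespace Pool.Agent.N726.CC

open Finset
open Pool.Agent.N726.BG

namespace Gds

theorem good_mono {H : Type} [Group H] [Fintype H] {ρ ρ' : ℝ} (h : Good H ρ) (hle : ρ ≤ ρ') :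
    Good H ρ' := by
  obtain ⟨F, hF, J, hJ, hd⟩ := h
  exact ⟨F, hF, J, hJ, hd.trans (mul_le_mul_of_nonneg_right hle (Nat.cast_nonneg _))⟩

theorem exp_mono {r d : ℕ} (N : ℕ) (h : r ≤ 20 * d) :
    Real.exp (-(d : ℝ) / 18) ^ (3 * N) ≤ Real.exp (-(r : ℝ) / 360) ^ (3 * N) := by
  refine pow_le_pow_left₀ (Real.exp_pos _).le (Real.exp_le_exp.2 ?_) _
  have : (r : ℝ) ≤ 20 * d := by exact_mod_cast h
  linarith

theorem ext_good {p : ℕ} [Fact p.Prime] {P : Type} [Group P] [Fintype P] {Z : Subgroup P}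
    {r z : ℕ} (hP : Ext p P Z r z) (N : ℕ) :
    Good (Fin 3 × Fin N → P) (Real.exp (-(r : ℝ) / 18) ^ (3 * N)) := by
  classical
  obtain ⟨c, ⟨e⟩⟩ := ext_bil p (Fin 3 × Fin N → P) _ _ _ (hP.pi (Fin 3 × Fin N))
  have h4 := (good_bil ela2 elb2 p (Fin (Fintype.card (Fin 3 × Fin N) * r))
    (Fin (Fintype.card (Fin 3 × Fin N) * z)) c).congr e.symm
  have h5 : Real.exp (-(Fintype.card (Fin (Fintype.card (Fin 3 × Fin N) * r)) : ℝ) / 18) =
      Real.exp (-(r : ℝ) / 18) ^ (3 * N) := by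
    rw [← Real.exp_nat_mul]
    congr 1
    simp only [Fintype.card_prod, Fintype.card_fin]
    push_cast
    ring
  rw [h5] at h4
  convert h4

theorem elem_good {p : ℕ} [Fact p.Prime] (z N : ℕ) :
    Good (Fin 3 × Fin N → Multiplicative (Fin z → ZMod p))
      (Real.exp (-(z : ℝ) / 18) ^ (3 * N)) := by
  classical
  have h1 := (elem p ((Fin 3 × Fin N) × Fin z)).congr (reidx p (Fin 3 × Fin N) (Fin z))
  have h2 : Real.exp (-(Fintype.card ((Fin 3 × Fin N) × Fin z) : ℝ) / 18) =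
      Real.exp (-(z : ℝ) / 18) ^ (3 * N) := by
    rw [← Real.exp_nat_mul]
    congr 1
    simp only [Fintype.card_prod, Fintype.card_fin]
    push_cast
    ring
  rw [h2] at h1
  convert h1

end Gds

theorem gds : S_GDS := by
  classical
  intro H _ _ K hK p r hp hcomm hpow hr
  have : Fact p.Prime := ⟨hp⟩
  obtain ⟨Ω, hΩ1, hΩ2, hΩ3⟩ := sec H p r K hK hcomm hpow hr
  obtain ⟨P, Z, d, z, hE, hvz⟩ := lrg p Ω hΩ1 hΩ2 r hΩ3
  have hfin' : Fintype P := Fintype.ofFinite P
  have hφ : Function.Injective (Ω.subtype.comp P.subtype) :=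
    Ω.subtype_injective.comp P.subtype_injective
  rcases hvz with h6 | h6
  · refine ⟨P, inferInstance, hfin', Ω.subtype.comp P.subtype, hφ, fun N _ => ?_⟩
    exact Gds.good_mono (Gds.ext_good hE N) (Gds.exp_mono N h6)
  · let hZ : CommGroup Z := { (inferInstance : Group Z) with
      mul_comm := fun a b => Subtype.ext (hE.central a a.2 b) }
    obtain ⟨ψ, hψ⟩ := exists_hom hp Z (fun x => Subtype.ext (hE.zpow x x.2)) hE.cardZ
    refine ⟨Multiplicative (Fin z → ZMod p), inferInstance, inferInstance,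
      (Ω.subtype.comp P.subtype).comp (Z.subtype.comp ψ),
      hφ.comp (Z.subtype_injective.comp hψ), fun N _ => ?_⟩
    exact Gds.good_mono (Gds.elem_good z N) (Gds.exp_mono N h6)

end Pool.Agent.N726.CC
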