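import Pool.Agent.N726.CC.Stm4
import Pool.Agent.N726.BG.Pow

/-!
# The tensor power trick for coherent configurations (helper744, after `Mn.lean`)
-/

namespace Pool.Agent.N726.CC

open Finset
open Pool.Agent.N726.BG

namespace Mno

theorem power {I : Type} [Fintype I] [DecidableEq I] (A B C : I → Finset ℕ) (s : I → ℕ)
    (ρ c : ℝ) (hρ : 0 < ρ) (_hc : 0 ≤ c) (N : ℕ) (hN : 1 ≤ N)
    (hcls : ∀ (τ : I → Fin (N + 1)) (w₀ : Fin N → I), N580.typ w₀ = τ →
      ((Finset.univ.filter fun w : Fin N → I => N580.typ w = τ).card : ℝ) ^ 3 *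
        (((∏ t, (A (w₀ t)).card) * (∏ t, (B (w₀ t)).card) * (∏ t, (C (w₀ t)).card) : ℕ) : ℝ) ^ 2 *
        (∏ t, (s (w₀ t) : ℝ)) ^ 3 ≤ 27 * c ^ (6 * N) * ρ ^ (3 * N))
    (σ : I → ℝ) (hσ0 : ∀ i, 0 ≤ σ i)
    (hσ : ∀ i, σ i ^ 3 = (((A i).card : ℝ) * (B i).card * (C i).card) ^ 2 * (s i : ℝ) ^ 3) :
    (∑ i, σ i) ^ (3 * N) ≤ ((N + 1 : ℕ) : ℝ) ^ (3 * Fintype.card I + 2) *
      (9 * (ρ * c ^ 2) ^ (3 * N)) := by
  classical
  set X : (I → Fin (N + 1)) → ℝ := fun τ =>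
    ∑ w ∈ Finset.univ.filter (fun w : Fin N → I => N580.typ w = τ), ∏ t, σ (w t) with hX
  have hX0 : ∀ τ, 0 ≤ X τ := fun τ =>
    Finset.sum_nonneg fun w _ => Finset.prod_nonneg fun t _ => hσ0 _
  have hsum : (∑ i, σ i) ^ N = ∑ τ, X τ := by
    rw [Fintype.sum_pow, hX]
    exact (Finset.sum_fiberwise (s := (Finset.univ : Finset (Fin N → I)))
      (g := fun w => (N580.typ w : I → Fin (N + 1))) (f := fun w => ∏ t, σ (w t))).symm
  set T : ℝ := (ρ * c ^ 2) ^ (3 * N) with hT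
  have hT0 : 0 ≤ T := by positivity
  have hTe : T = c ^ (6 * N) * ρ ^ (3 * N) := by
    rw [hT, mul_pow, ← pow_mul, mul_comm, show 2 * (3 * N) = 6 * N by ring]
  have hN2 : (27 : ℝ) ≤ 9 * ((N + 1 : ℕ) : ℝ) ^ 2 := by
    have h1 : (2 : ℝ) ≤ ((N + 1 : ℕ) : ℝ) := by exact_mod_cast (by omega : 2 ≤ N + 1)
    nlinarith
  have hX3 : ∀ τ, X τ ^ 3 ≤ 9 * ((N + 1 : ℕ) : ℝ) ^ 2 * T := by
    intro τ
    by_cases hτ : ∃ w₀ : Fin N → I, N580.typ w₀ = τ
    · obtain ⟨w₀, hw₀⟩ := hτ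
      have h1 : X τ = (Finset.univ.filter (fun w : Fin N → I => N580.typ w = τ)).card *
          ∏ t, σ (w₀ t) := by
        simp only [hX]
        rw [← nsmul_eq_mul, ← Finset.sum_const]
        refine Finset.sum_congr rfl fun w hw => ?_
        exact N580.prod_eq_of_typ σ ((Finset.mem_filter.1 hw).2.trans hw₀.symm)
      have h2 : (∏ t, σ (w₀ t)) ^ 3 = (((∏ t, (A (w₀ t)).card) * (∏ t, (B (w₀ t)).card) *
          (∏ t, (C (w₀ t)).card) : ℕ) : ℝ) ^ 2 * (∏ t, (s (w₀ t) : ℝ)) ^ 3 := by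
        rw [← Finset.prod_pow, Finset.prod_congr rfl fun t _ => hσ (w₀ t)]
        rw [Finset.prod_mul_distrib, Finset.prod_pow, Finset.prod_mul_distrib,
          Finset.prod_mul_distrib, Finset.prod_pow]
        push_cast
        rfl
      rw [h1, mul_pow, h2, ← mul_assoc]
      refine (hcls τ w₀ hw₀).trans ?_
      calc 27 * c ^ (6 * N) * ρ ^ (3 * N) = 27 * T := by rw [hTe]; ring
        _ ≤ _ := mul_le_mul_of_nonneg_right hN2 hT0
    · have h1 : X τ = 0 := by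
        simp only [hX]
        refine Finset.sum_eq_zero fun w hw => ?_
        exact absurd ⟨w, (Finset.mem_filter.1 hw).2⟩ hτ
      rw [h1, zero_pow three_ne_zero]
      positivity
  obtain ⟨τ₀, -, hτ₀⟩ := Finset.exists_max_image (Finset.univ : Finset (I → Fin (N + 1))) X
    ⟨fun _ => 0, Finset.mem_univ _⟩
  have h4 : (∑ i, σ i) ^ N ≤ ((N + 1 : ℕ) : ℝ) ^ Fintype.card I * X τ₀ := by
    rw [hsum]
    calc ∑ τ, X τ ≤ ∑ _τ : I → Fin (N + 1), X τ₀ :=
          Finset.sum_le_sum fun τ _ => hτ₀ τ (Finset.mem_univ _)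
      _ = _ := by
        rw [Finset.sum_const, Finset.card_univ, Fintype.card_fun, Fintype.card_fin, nsmul_eq_mul]
        push_cast
        rfl
  have hs1 : 0 ≤ (∑ i, σ i) ^ N := pow_nonneg (Finset.sum_nonneg fun i _ => hσ0 i) _
  calc (∑ i, σ i) ^ (3 * N) = ((∑ i, σ i) ^ N) ^ 3 := by rw [← pow_mul, mul_comm]
    _ ≤ (((N + 1 : ℕ) : ℝ) ^ Fintype.card I * X τ₀) ^ 3 := pow_le_pow_left₀ hs1 h4 3
    _ = ((N + 1 : ℕ) : ℝ) ^ (3 * Fintype.card I) * X τ₀ ^ 3 := by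
        rw [mul_pow, ← pow_mul, mul_comm (Fintype.card I) 3]
    _ ≤ ((N + 1 : ℕ) : ℝ) ^ (3 * Fintype.card I) * (9 * ((N + 1 : ℕ) : ℝ) ^ 2 * T) :=
        mul_le_mul_of_nonneg_left (hX3 τ₀) (by positivity)
    _ = _ := by
        rw [pow_add]
        ring

end Mno

theorem mno (h : S_CLO) : S_MNO := by
  intro Ω H _ _ _ _ ρ hρ hgood I _ A B C X Y Z s hCF hX hY hZ
  classical
  set σ : I → ℝ := fun i =>
    (((A i).card * (B i).card * (C i).card : ℕ) : ℝ) ^ ((2 : ℝ) / 3) * s i with hσ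
  rcases Nat.eq_zero_or_pos (Fintype.card Ω) with hΩ | hΩ
  · have hemp : IsEmpty Ω := Fintype.card_eq_zero_iff.1 hΩ
    have h0 : ∀ i, σ i = 0 := by
      intro i
      simp only [hσ]
      rcases Finset.eq_empty_or_nonempty (A i) with hA | ⟨a, ha⟩
      · rw [hA]
        simp
      rcases Finset.eq_empty_or_nonempty (B i) with hB | ⟨b, hb⟩
      · rw [hB]
        simp
      have h1 : s i ≤ 0 := by
        refine (hX i a ha b hb).trans (le_of_eq ?_)
        exact Nat.card_of_isEmpty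
      have h2 : s i = 0 := by omega
      rw [h2]
      simp
    rw [Finset.sum_eq_zero fun i _ => h0 i]
    positivity
  · have hΩr : (0 : ℝ) < Fintype.card Ω := by exact_mod_cast hΩ
    refine Pow.growth (∑ i, σ i) (ρ * (Fintype.card Ω : ℝ) ^ 2) (by positivity)
      (3 * Fintype.card I + 2) ?_
    intro N hN
    refine Mno.power A B C s ρ (Fintype.card Ω) hρ hΩr.le N hN
      (fun τ w₀ hw => h Ω H N (ρ ^ (3 * N)) (by positivity) (hgood N hN) I A B C X Y Z s hCF hX hY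
        hZ τ w₀ hw) σ
      (fun i => by simp only [hσ]; positivity) (fun i => ?_)
    simp only [hσ]
    rw [mul_pow, ← Real.rpow_natCast ((((A i).card * (B i).card * (C i).card : ℕ) : ℝ) ^ _),
      ← Real.rpow_mul (by positivity)]
    have e : (2 : ℝ) / 3 * ((3 : ℕ) : ℝ) = ((2 : ℕ) : ℝ) := by
      push_cast
      norm_num
    rw [e, Real.rpow_natCast]
    push_cast
    rfl

end Pool.Agent.N726.CC
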