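import Pool.Agent.N726.CC.Stm5

/-!
# Project CC3 (helper726), leaf ORC: orbits on pairs (written by helper498)
-/

set_option autoImplicit false

namespace Pool.Agent.N726.CC

namespace Orc

variable {G Ω : Type} [Group G] [MulAction G Ω]

lemma mk_eq {p q p' q' : Ω} :
    (Quotient.mk (MulAction.orbitRel G (Ω × Ω)) (p, q) =
      Quotient.mk (MulAction.orbitRel G (Ω × Ω)) (p', q')) ↔
    ∃ g : G, g • p' = p ∧ g • q' = q := by
  rw [Quotient.eq, MulAction.orbitRel_apply, MulAction.mem_orbit_iff]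
  constructor
  · rintro ⟨g, hg⟩
    exact ⟨g, congrArg Prod.fst hg, congrArg Prod.snd hg⟩
  · rintro ⟨g, h1, h2⟩
    exact ⟨g, Prod.ext h1 h2⟩

lemma mk_smul (g : G) (p q : Ω) :
    Quotient.mk (MulAction.orbitRel G (Ω × Ω)) (g • p, g • q) =
      Quotient.mk (MulAction.orbitRel G (Ω × Ω)) (p, q) :=
  mk_eq.2 ⟨g, rfl, rfl⟩

end Orc

/-- ORC -/
theorem orc : S_ORC := by
  intro G Ω _ _ _
  refine ⟨?_, ?_, ?_⟩
  · intro p q r h
    obtain ⟨g, h1, h2⟩ := Orc.mk_eq.1 h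
    exact MulAction.injective g (h1.trans h2.symm)
  · intro p q p' q' h
    obtain ⟨g, h1, h2⟩ := Orc.mk_eq.1 h
    exact Orc.mk_eq.2 ⟨g, h2, h1⟩
  · intro p q p' q' h x y
    obtain ⟨g, h1, h2⟩ := Orc.mk_eq.1 h
    subst h1
    subst h2
    refine (Nat.card_congr ((MulAction.toPerm g).subtypeEquiv fun r => ?_)).symm
    change (_ ∧ _) ↔ (Quotient.mk _ (g • p', g • r) = x ∧ Quotient.mk _ (g • r, g • q') = y)
    rw [Orc.mk_smul, Orc.mk_smul]

end Pool.Agent.N726.CC
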