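import Pool.Agent.N726.CC.Stm4
import Pool.Agent.N726.BG.Piv

/-!
# The pivot theorem for a free action
-/

namespace Pool.Agent.N726.CC

open Finset
open Pool.Agent.N726.BG

namespace Pvo

section Pv

variable {Ω H F : Type} [Fintype Ω] [DecidableEq Ω] [Group H] [Fintype H] [DecidableEq H]
  [MulAction H Ω] [Field F]

/-- `h` is a pivot of the slice `{h | (p, h q) ∈ W}` -/
def Pv (J : Submodule F (H → F)) (W : Finset (Ω × Ω)) (k : Ω × Ω → ℤ) (p q : Ω) (h : H) : Prop :=
  ∃ u ∈ J, u h ≠ 0 ∧ (∀ h' : H, (p, h' • q) ∉ W → u h' = 0) ∧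
    (∀ h' : H, (p, h' • q) ∈ W → k (p, h' • q) < k (p, h • q) → u h' = 0)

omit [Fintype Ω] [DecidableEq Ω] [DecidableEq H] in
theorem Pv.shift {J : Submodule F (H → F)} (hJ : Iso J) {W : Finset (Ω × Ω)} {k : Ω × Ω → ℤ}
    {p q : Ω} {h : H} (hp : Pv J W k p q h) : Pv J W k p (h • q) 1 := by
  obtain ⟨u, hu, h0, h1, h2⟩ := hp
  refine ⟨fun h' => u (h' * h), hJ.inv u hu h, by simpa using h0, ?_, ?_⟩
  · intro h' hh'
    rw [← mul_smul] at hh'
    exact h1 _ hh'
  · intro h' hh' hlt
    rw [← mul_smul] at hh' hlt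
    rw [one_smul] at hlt
    exact h2 _ hh' hlt

open Classical in
theorem bad_le {J : Submodule F (H → F)} (hJ : Iso J) (W : Finset (Ω × Ω)) (k : Ω × Ω → ℤ)
    (p : Ω) :
    (Finset.univ.filter fun q => (p, q) ∈ W ∧ ¬ Pv J W k p q (1 : H)).card * Fintype.card H ≤
      Fintype.card Ω * (Fintype.card H - Module.finrank F J) := by
  set B := Finset.univ.filter fun q => (p, q) ∈ W ∧ ¬ Pv J W k p q (1 : H) with hB
  -- the non-pivots of the slices
  let N : Ω → Finset H := fun t => Finset.univ.filter fun h => h • t ∈ B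
  have hN : ∀ t, (N t).card ≤ Fintype.card H - Module.finrank F J := by
    intro t
    have h1 := piv1 F H J (Finset.univ.filter fun h => (p, h • t) ∈ W)
      (fun h => k (p, h • t)) (N t) ?_
    · omega
    · intro y hy
      have hy' : y • t ∈ B := (Finset.mem_filter.1 hy).2
      rw [hB, Finset.mem_filter] at hy'
      refine ⟨Finset.mem_filter.2 ⟨Finset.mem_univ _, hy'.2.1⟩, ?_⟩
      rintro ⟨v, hv, h0, h1, h2⟩
      apply hy'.2.2
      refine Pv.shift hJ ⟨v, hv, h0, ?_, ?_⟩
      · intro h' hh'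
        refine h1 h' ?_
        rw [Finset.mem_filter]
        exact fun hc => hh' hc.2
      · intro h' hh' hlt
        exact h2 h' (Finset.mem_filter.2 ⟨Finset.mem_univ _, hh'⟩) hlt
  calc B.card * Fintype.card H = (B ×ˢ (Finset.univ : Finset H)).card := by
        rw [Finset.card_product, Finset.card_univ]
    _ ≤ (Finset.univ.sigma N).card := by
        refine Finset.card_le_card_of_injOn
          (fun q => (⟨q.2⁻¹ • q.1, q.2⟩ : (_ : Ω) × H)) ?_ ?_
        · intro q hq
          have hq' := Finset.mem_product.1 (Finset.mem_coe.1 hq)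
          refine Finset.mem_coe.2 (Finset.mem_sigma.2 ⟨Finset.mem_univ _, ?_⟩)
          refine Finset.mem_filter.2 ⟨Finset.mem_univ _, ?_⟩
          change q.2 • (q.2⁻¹ • q.1) ∈ B
          rw [smul_inv_smul]
          exact hq'.1
        · rintro ⟨x, h⟩ _ ⟨x', h'⟩ _ he
          simp only [Sigma.mk.injEq, heq_eq_eq] at he
          obtain ⟨he1, he2⟩ := he
          subst he2
          have := MulAction.injective (h⁻¹) he1
          rw [this]
    _ = ∑ t, (N t).card := Finset.card_sigma _ _
    _ ≤ ∑ _t : Ω, (Fintype.card H - Module.finrank F J) :=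
        Finset.sum_le_sum fun t _ => hN t
    _ = _ := by rw [Finset.sum_const, Finset.card_univ, smul_eq_mul]

end Pv

end Pvo

open Pvo

theorem pvo : S_PVO := by
  intro Ω H F _ _ _ _ _ _ _ hfree J hJ X Y Z kx ky kz iX iY iZ ikx iky ikz hk hinj T hT huniq
    h2inj h3inj
  classical
  have h1inj : ∀ t ∈ T, ∀ t' ∈ T, t.1 = t'.1 → t.2.1 = t'.2.1 → t = t' := by
    intro t ht t' ht' he1 he2
    obtain ⟨b1, b2, b3, b4⟩ := hT t' ht'
    rw [← he1] at b3
    rw [← he2] at b2
    rw [← he1, ← he2] at b4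
    have := huniq t ht t'.2.2 b2 b3 b4
    exact Prod.ext he1 (Prod.ext he2 this.symm)
  -- one of the three is not a pivot
  have key : ∀ t ∈ T, ¬ (Pv J X kx t.1 t.2.1 (1 : H) ∧ Pv J Y ky t.2.1 t.2.2 (1 : H) ∧
      Pv J Z kz t.2.2 t.1 (1 : H)) := by
    rintro ⟨p, q, r⟩ ht ⟨⟨u, hu, u0, u1, u2⟩, ⟨v, hv, v0, v1, v2⟩, ⟨w, hw, w0, w1, w2⟩⟩
    obtain ⟨hx, hy, hz, hsum⟩ := hT _ ht
    simp only [one_smul] at hx hy hz hsum u0 u1 u2 v0 v1 v2 w0 w1 w2
    have htri := hJ.tri u hu v hv w hw
    have hterm : ∀ g h : H, u g * v h * w (g * h)⁻¹ ≠ 0 → g = 1 ∧ h = 1 := by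
      intro g h hne
      have hug : u g ≠ 0 := fun h0 => hne (by rw [h0]; ring)
      have hvh : v h ≠ 0 := fun h0 => hne (by rw [h0]; ring)
      have hwgh : w (g * h)⁻¹ ≠ 0 := fun h0 => hne (by rw [h0]; ring)
      have mx : (p, g • q) ∈ X := by
        by_contra hc; exact hug (u1 _ hc)
      have my : (q, h • r) ∈ Y := by
        by_contra hc; exact hvh (v1 _ hc)
      have mz : (r, (g * h)⁻¹ • p) ∈ Z := by
        by_contra hc; exact hwgh (w1 _ hc)
      have lx : kx (p, q) ≤ kx (p, g • q) := by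
        by_contra hc; exact hug (u2 _ mx (not_le.1 hc))
      have ly : ky (q, r) ≤ ky (q, h • r) := by
        by_contra hc; exact hvh (v2 _ my (not_le.1 hc))
      have lz : kz (r, p) ≤ kz (r, (g * h)⁻¹ • p) := by
        by_contra hc; exact hwgh (w2 _ mz (not_le.1 hc))
      have ey : g • ((q, h • r) : Ω × Ω) = (g • q, (g * h) • r) := by
        rw [Prod.smul_mk, mul_smul]
      have ez : (g * h) • ((r, (g * h)⁻¹ • p) : Ω × Ω) = ((g * h) • r, p) := by
        rw [Prod.smul_mk, smul_inv_smul]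
      have my2 : (g • q, (g * h) • r) ∈ Y := by
        rw [← ey]; exact iY g _ my
      have mz2 : ((g * h) • r, p) ∈ Z := by
        rw [← ez]; exact iZ (g * h) _ mz
      have wy : ky (g • q, (g * h) • r) = ky (q, h • r) := by
        rw [← ey]; exact iky g _
      have wz : kz ((g * h) • r, p) = kz (r, (g * h)⁻¹ • p) := by
        rw [← ez]; exact ikz (g * h) _
      have hle := hk p (g • q) ((g * h) • r) mx my2 mz2
      have e1 : kx (p, q) = kx (p, g • q) := by omega
      obtain ⟨h', hh'⟩ := hinj _ hx _ mx e1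
      rw [Prod.smul_mk, Prod.mk.injEq] at hh'
      have e2 : h' = 1 := hfree h' p hh'.1.symm
      have e3 : g • q = q := by rw [hh'.2, e2, one_smul]
      have e4 : g = 1 := hfree g q e3
      subst e4
      rw [one_mul] at mz2 wz wy
      refine ⟨rfl, ?_⟩
      have e5 : h • r = r := by
        refine huniq _ ht _ my mz2 ?_
        simp only
        rw [wz]
        rw [one_mul] at hle lz
        rw [one_smul] at e1 hle
        rw [one_smul] at wy
        omega
      exact hfree h r e5
    have hsum1 : ∑ g : H, ∑ h : H, u g * v h * w (g * h)⁻¹ = u 1 * v 1 * w 1 := by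
      rw [Finset.sum_eq_single 1]
      · rw [Finset.sum_eq_single 1]
        · simp
        · intro h _ hh
          by_contra hne
          exact hh (hterm _ _ hne).2
        · intro h; exact absurd (Finset.mem_univ _) h
      · intro g _ hg
        refine Finset.sum_eq_zero fun h _ => ?_
        by_contra hne
        exact hg (hterm _ _ hne).1
      · intro h; exact absurd (Finset.mem_univ _) h
    rw [hsum1] at htri
    exact mul_ne_zero (mul_ne_zero u0 v0) w0 htri
  set c := Fintype.card H - Module.finrank F J with hc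
  -- the three sets of bad pairs
  let b1 : Ω → Finset Ω := fun p => Finset.univ.filter fun q => (p, q) ∈ X ∧ ¬ Pv J X kx p q (1 : H)
  let b2 : Ω → Finset Ω := fun p => Finset.univ.filter fun q => (p, q) ∈ Y ∧ ¬ Pv J Y ky p q (1 : H)
  let b3 : Ω → Finset Ω := fun p => Finset.univ.filter fun q => (p, q) ∈ Z ∧ ¬ Pv J Z kz p q (1 : H)
  have hb1 : ∀ s, (b1 s).card * Fintype.card H ≤ Fintype.card Ω * c := bad_le hJ X kx
  have hb2 : ∀ s, (b2 s).card * Fintype.card H ≤ Fintype.card Ω * c := bad_le hJ Y ky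
  have hb3 : ∀ s, (b3 s).card * Fintype.card H ≤ Fintype.card Ω * c := bad_le hJ Z kz
  have hcover : T.card ≤
      (Finset.univ.sigma b1).card + (Finset.univ.sigma b2).card + (Finset.univ.sigma b3).card := by
    set S1 := T.filter fun t => ¬ Pv J X kx t.1 t.2.1 (1 : H) with hS1
    set S2 := T.filter fun t => ¬ Pv J Y ky t.2.1 t.2.2 (1 : H) with hS2
    set S3 := T.filter fun t => ¬ Pv J Z kz t.2.2 t.1 (1 : H) with hS3
    have hsub : T ⊆ (S1 ∪ S2) ∪ S3 := by
      intro t ht
      have := key t ht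
      rw [Finset.mem_union, Finset.mem_union, hS1, hS2, hS3, Finset.mem_filter, Finset.mem_filter,
        Finset.mem_filter]
      by_cases c1 : Pv J X kx t.1 t.2.1 (1 : H)
      · by_cases c2 : Pv J Y ky t.2.1 t.2.2 (1 : H)
        · right
          exact ⟨ht, fun c3 => this ⟨c1, c2, c3⟩⟩
        · left; right
          exact ⟨ht, c2⟩
      · left; left
        exact ⟨ht, c1⟩
    have l1 : S1.card ≤ (Finset.univ.sigma b1).card := by
      refine Finset.card_le_card_of_injOn (fun t => (⟨t.1, t.2.1⟩ : (_ : Ω) × Ω)) ?_ ?_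
      · intro t ht
        have ht := Finset.mem_filter.1 (Finset.mem_coe.1 ht)
        exact Finset.mem_coe.2 (Finset.mem_sigma.2 ⟨Finset.mem_univ _,
          Finset.mem_filter.2 ⟨Finset.mem_univ _, (hT _ ht.1).1, ht.2⟩⟩)
      · intro t ht t' ht' he
        have ht := Finset.mem_filter.1 (Finset.mem_coe.1 ht)
        have ht' := Finset.mem_filter.1 (Finset.mem_coe.1 ht')
        simp only [Sigma.mk.injEq, heq_eq_eq] at he
        exact h1inj _ ht.1 _ ht'.1 he.1 he.2
    have l2 : S2.card ≤ (Finset.univ.sigma b2).card := by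
      refine Finset.card_le_card_of_injOn (fun t => (⟨t.2.1, t.2.2⟩ : (_ : Ω) × Ω)) ?_ ?_
      · intro t ht
        have ht := Finset.mem_filter.1 (Finset.mem_coe.1 ht)
        exact Finset.mem_coe.2 (Finset.mem_sigma.2 ⟨Finset.mem_univ _,
          Finset.mem_filter.2 ⟨Finset.mem_univ _, (hT _ ht.1).2.1, ht.2⟩⟩)
      · intro t ht t' ht' he
        have ht := Finset.mem_filter.1 (Finset.mem_coe.1 ht)
        have ht' := Finset.mem_filter.1 (Finset.mem_coe.1 ht')
        simp only [Sigma.mk.injEq, heq_eq_eq] at he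
        exact h2inj _ ht.1 _ ht'.1 (Prod.ext he.1 he.2)
    have l3 : S3.card ≤ (Finset.univ.sigma b3).card := by
      refine Finset.card_le_card_of_injOn (fun t => (⟨t.2.2, t.1⟩ : (_ : Ω) × Ω)) ?_ ?_
      · intro t ht
        have ht := Finset.mem_filter.1 (Finset.mem_coe.1 ht)
        exact Finset.mem_coe.2 (Finset.mem_sigma.2 ⟨Finset.mem_univ _,
          Finset.mem_filter.2 ⟨Finset.mem_univ _, (hT _ ht.1).2.2.1, ht.2⟩⟩)
      · intro t ht t' ht' he
        have ht := Finset.mem_filter.1 (Finset.mem_coe.1 ht)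
        have ht' := Finset.mem_filter.1 (Finset.mem_coe.1 ht')
        simp only [Sigma.mk.injEq, heq_eq_eq] at he
        exact h3inj _ ht.1 _ ht'.1 he.2 he.1
    calc T.card ≤ ((S1 ∪ S2) ∪ S3).card := Finset.card_le_card hsub
      _ ≤ (S1.card + S2.card) + S3.card :=
          (Finset.card_union_le _ _).trans (Nat.add_le_add_right (Finset.card_union_le _ _) _)
      _ ≤ _ := by omega
  have hsum : ∀ b : Ω → Finset Ω, (∀ s, (b s).card * Fintype.card H ≤ Fintype.card Ω * c) →
      (Finset.univ.sigma b).card * Fintype.card H ≤ Fintype.card Ω * (Fintype.card Ω * c) := by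
    intro b hb
    rw [Finset.card_sigma, Finset.sum_mul]
    calc ∑ s, (b s).card * Fintype.card H ≤ ∑ _s : Ω, Fintype.card Ω * c :=
          Finset.sum_le_sum fun s _ => hb s
      _ = _ := by rw [Finset.sum_const, Finset.card_univ, smul_eq_mul]
  have g1 := hsum b1 hb1
  have g2 := hsum b2 hb2
  have g3 := hsum b3 hb3
  calc T.card * Fintype.card H
      ≤ ((Finset.univ.sigma b1).card + (Finset.univ.sigma b2).card +
          (Finset.univ.sigma b3).card) * Fintype.card H := Nat.mul_le_mul_right _ hcover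
    _ ≤ 3 * Fintype.card Ω ^ 2 * c := by
        have : 3 * Fintype.card Ω ^ 2 * c =
          Fintype.card Ω * (Fintype.card Ω * c) + Fintype.card Ω * (Fintype.card Ω * c) +
          Fintype.card Ω * (Fintype.card Ω * c) := by ring
        rw [this, Nat.add_mul, Nat.add_mul]
        omega

end Pool.Agent.N726.CC
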