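import Mathlib
import Pool.Agent.N726.CC.Asm5
import Pool.Agent.N726.CC.Pvo
import Pool.Agent.N726.CC.Bk2
import Pool.Agent.N726.CC.Bko
import Pool.Agent.N726.CC.Clo
import Pool.Agent.N726.CC.Mno
import Pool.Agent.N726.CC.Gds
import Pool.Agent.N726.CC.Adk
import Pool.Agent.N726.CC.Orc

/-!
# Barriers for coherent configurations: final form
-/

set_option autoImplicit false

namespace Pool.Agent.N726.CC

open Finset

theorem mno_final : S_MNO := mno (clo (bko (bk2 pvo)))

/-- the colour of a pair in the configuration of the orbits of `G` on pairs -/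
def orb (G : Type) [Group G] {Ω : Type} [MulAction G Ω] (p q : Ω) :
    MulAction.orbitRel.Quotient G (Ω × Ω) :=
  Quotient.mk (MulAction.orbitRel G (Ω × Ω)) (p, q)

theorem orb_smul (G : Type) [Group G] {Ω : Type} [MulAction G Ω] (g : G) (p q : Ω) :
    orb G (g • p) (g • q) = orb G p q := by
  unfold orb
  rw [Quotient.eq]
  exact MulAction.orbitRel_apply.2 ⟨g, rfl⟩

theorem mem_class_iff (G : Type) [Group G] {Ω : Type} [MulAction G Ω] (X : Ω × Ω)
    (x : MulAction.orbitRel.Quotient G (Ω × Ω)) (hX : orb G X.1 X.2 = x) (e : Ω × Ω) :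
    orb G e.1 e.2 = x ↔ e ∈ MulAction.orbit G X := by
  subst hX
  unfold orb
  rw [Quotient.eq]
  exact MulAction.orbitRel_apply

theorem size_orb_eq (G : Type) [Group G] {Ω : Type} [MulAction G Ω] (X : Ω × Ω)
    (x : MulAction.orbitRel.Quotient G (Ω × Ω)) (hX : orb G X.1 X.2 = x) :
    size (orb G (Ω := Ω)) x = Nat.card (MulAction.orbit G X) :=
  Nat.card_congr (Equiv.subtypeEquivRight fun e => mem_class_iff G X x hX e)

theorem size_orb_le (G : Type) [Group G] [Finite G] {Ω : Type} [MulAction G Ω]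
    (x : MulAction.orbitRel.Quotient G (Ω × Ω)) :
    size (orb G (Ω := Ω)) x ≤ Nat.card G := by
  obtain ⟨X, rfl⟩ := Quotient.exists_rep x
  refine le_trans (le_of_eq (size_orb_eq G X _ rfl)) ?_
  refine Nat.card_le_card_of_surjective (fun g : G => (⟨g • X, MulAction.mem_orbit X g⟩ :
    MulAction.orbit G X)) ?_
  rintro ⟨_, g, rfl⟩
  exact ⟨g, rfl⟩

theorem stab_of_size (G : Type) [Group G] [Finite G] {Ω : Type} [MulAction G Ω]
    (x : MulAction.orbitRel.Quotient G (Ω × Ω)) (hx : size (orb G (Ω := Ω)) x = Nat.card G)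
    (e : Ω × Ω) (he : orb G e.1 e.2 = x) (g : G) (hg : g • e = e) : g = 1 := by
  rw [size_orb_eq G e x he] at hx
  have h1 := Nat.card_congr (MulAction.orbitProdStabilizerEquivGroup G e)
  rw [Nat.card_prod, hx] at h1
  have hpos : 0 < Nat.card G := Nat.card_pos
  have h2 : Nat.card (MulAction.stabilizer G e) = 1 := by
    have h3 : Nat.card G * Nat.card (MulAction.stabilizer G e) = Nat.card G * 1 := by
      rw [h1, mul_one]
    exact Nat.eq_of_mul_eq_mul_left hpos h3
  have h4 := (Nat.card_eq_one_iff_unique.1 h2).1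
  have h5 : (⟨g, hg⟩ : MulAction.stabilizer G e) = 1 := Subsingleton.elim _ _
  exact congrArg Subtype.val h5

/-- classes of size `|G|` are regular -/
theorem free_of_size (G : Type) [Group G] [Finite G] {Ω : Type} [MulAction G Ω]
    (H : Subgroup G) (x : MulAction.orbitRel.Quotient G (Ω × Ω))
    (hx : size (orb G (Ω := Ω)) x = Nat.card G) :
    Nat.card G ≤ Nat.card (freePairs H (orb G (Ω := Ω)) x) := by
  rw [← hx]
  refine le_of_eq (Nat.card_congr (Equiv.subtypeEquivRight fun e => ?_))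
  constructor
  · intro he
    refine ⟨he, fun h hh => ?_⟩
    exact Subtype.ext (stab_of_size G x hx e he h hh)
  · intro he
    exact he.1

/-- the regular configuration of a group -/
theorem coherent_regular (G : Type) [Group G] : Coherent (fun p q : G => p⁻¹ * q) := by
  constructor
  · intro p q r h
    have h1 : p⁻¹ * p = q⁻¹ * r := h
    rw [inv_mul_cancel] at h1
    have h2 : q * 1 = q * (q⁻¹ * r) := by rw [← h1]
    rw [mul_one, mul_inv_cancel_left] at h2
    exact h2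
  · intro p q p' q' h
    have h1 : p⁻¹ * q = p'⁻¹ * q' := h
    change q⁻¹ * p = q'⁻¹ * p'
    have h2 := congrArg (·⁻¹) h1
    simp only [mul_inv_rev, inv_inv] at h2
    exact h2
  · intro p q p' q' h x y
    have h1 : p⁻¹ * q = p'⁻¹ * q' := h
    have e1 : ∀ r, p'⁻¹ * (p' * p⁻¹ * r) = p⁻¹ * r := fun r => by group
    have e2 : ∀ r, (p' * p⁻¹ * r)⁻¹ * q' = r⁻¹ * q := fun r => by
      calc (p' * p⁻¹ * r)⁻¹ * q' = r⁻¹ * p * (p'⁻¹ * q') := by group
        _ = r⁻¹ * q := by rw [← h1]; group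
    have e3 : ∀ r, p⁻¹ * (p * p'⁻¹ * r) = p'⁻¹ * r := fun r => by group
    have e4 : ∀ r, (p * p'⁻¹ * r)⁻¹ * q = r⁻¹ * q' := fun r => by
      calc (p * p'⁻¹ * r)⁻¹ * q = r⁻¹ * p' * (p⁻¹ * q) := by group
        _ = r⁻¹ * q' := by rw [h1]; group
    exact Nat.card_congr
      { toFun := fun r => ⟨p' * p⁻¹ * r.1, (e1 r.1).trans r.2.1, (e2 r.1).trans r.2.2⟩
        invFun := fun r => ⟨p * p'⁻¹ * r.1, (e3 r.1).trans r.2.1, (e4 r.1).trans r.2.2⟩
        left_inv := fun r => Subtype.ext (by simp [mul_assoc])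
        right_inv := fun r => Subtype.ext (by simp [mul_assoc]) }

/-- the simultaneous triple product property gives classes of the regular configuration -/
theorem regular_realizes (G : Type) [Group G] (I : Type) (l m n : I → ℕ)
    (α : ∀ i, Fin (l i) → G) (β : ∀ i, Fin (m i) → G) (γ : ∀ i, Fin (n i) → G)
    (h : ∀ i j k (a : Fin (l i)) (a' : Fin (l j)) (b : Fin (m j)) (b' : Fin (m k)) (c : Fin (n k))
      (c' : Fin (n i)), α i a * (α j a')⁻¹ * (β j b * (β k b')⁻¹) * (γ k c * (γ i c')⁻¹) = 1 →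
      i = j ∧ j = k ∧ (a : ℕ) = a' ∧ (b : ℕ) = b' ∧ (c : ℕ) = c') :
    RealizesC (fun p q : G => p⁻¹ * q) l m n (fun i a b => (α i a)⁻¹ * β i b)
      (fun i b e => (β i b)⁻¹ * γ i e) (fun i e a => (γ i e)⁻¹ * α i a) := by
  constructor
  · intro i j k a b b' e e' a' p q r h1 h2 h3
    change p⁻¹ * q = (α i a)⁻¹ * β i b at h1
    change q⁻¹ * r = (β j b')⁻¹ * γ j e at h2
    change r⁻¹ * p = (γ k e')⁻¹ * α k a' at h3
    have h4 : ((α i a)⁻¹ * β i b) * ((β j b')⁻¹ * γ j e) * ((γ k e')⁻¹ * α k a') = 1 := by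
      rw [← h1, ← h2, ← h3]
      group
    have h5 : α k a' * (α i a)⁻¹ * (β i b * (β j b')⁻¹) * (γ j e * (γ k e')⁻¹) = 1 := by
      calc α k a' * (α i a)⁻¹ * (β i b * (β j b')⁻¹) * (γ j e * (γ k e')⁻¹)
          = α k a' * (((α i a)⁻¹ * β i b) * ((β j b')⁻¹ * γ j e) * ((γ k e')⁻¹ * α k a')) *
            (α k a')⁻¹ := by group
        _ = 1 := by rw [h4]; group
    obtain ⟨e1, e2, e3, e4, e5⟩ := h k i j a' a b b' e e' h5
    exact ⟨e2, (e1.trans e2).symm, e3.symm, e4, e5⟩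
  · intro i a b e p q h1
    change p⁻¹ * q = (α i a)⁻¹ * β i b at h1
    refine ⟨q * ((β i b)⁻¹ * γ i e), ⟨by group, ?_⟩, ?_⟩
    · have h2 : p = q * ((β i b)⁻¹ * α i a) := by
        have h3 : q = p * ((α i a)⁻¹ * β i b) := by rw [← h1]; group
        rw [h3]; group
      rw [h2]; group
    · rintro r ⟨hr, -⟩
      rw [← hr]; group
  · intro i a b e q r h1
    change q⁻¹ * r = (β i b)⁻¹ * γ i e at h1
    refine ⟨r * ((γ i e)⁻¹ * α i a), ⟨by group, ?_⟩, ?_⟩
    · have h3 : r = q * ((β i b)⁻¹ * γ i e) := by rw [← h1]; group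
      rw [h3]; group
    · rintro p ⟨hr, -⟩
      rw [← hr]; group
  · intro i a b e r p h1
    change r⁻¹ * p = (γ i e)⁻¹ * α i a at h1
    refine ⟨p * ((α i a)⁻¹ * β i b), ⟨by group, ?_⟩, ?_⟩
    · have h3 : p = r * ((γ i e)⁻¹ * α i a) := by rw [← h1]; group
      rw [h3]; group
    · rintro q ⟨hr, -⟩
      rw [← hr]; group

end Pool.Agent.N726.CC
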