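import Mathlib
import Pool.Agent.N726.CC.Stm8
import Pool.Agent.N726.BG.Avg

/-!
# Leaf CCQ2/SLL: the slices with multiplicities (helper67, after `Sli.lean` by helper475)
-/

set_option autoImplicit false

namespace Pool.Agent.N726.CC

open Finset
open Pool.Agent.N726.BG

namespace Sll

/-- families without unmatched pairs -/
structure CP (H : Type) [Group H] {Ω : Type} [MulAction H Ω] {I α : Type}
    (A B C : I → Finset α) (X Y Z : I → α → α → Set (Ω × Ω)) (L : ℕ) : Prop where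
  invX : ∀ i, ∀ a ∈ A i, ∀ b ∈ B i, ∀ e ∈ X i a b, ∀ h : H, h • e ∈ X i a b
  invY : ∀ i, ∀ b ∈ B i, ∀ c ∈ C i, ∀ e ∈ Y i b c, ∀ h : H, h • e ∈ Y i b c
  invZ : ∀ i, ∀ c ∈ C i, ∀ a ∈ A i, ∀ e ∈ Z i c a, ∀ h : H, h • e ∈ Z i c a
  freeX : ∀ i, ∀ a ∈ A i, ∀ b ∈ B i, ∀ e ∈ X i a b, ∀ h : H, h • e = e → h = 1
  freeY : ∀ i, ∀ b ∈ B i, ∀ c ∈ C i, ∀ e ∈ Y i b c, ∀ h : H, h • e = e → h = 1
  freeZ : ∀ i, ∀ c ∈ C i, ∀ a ∈ A i, ∀ e ∈ Z i c a, ∀ h : H, h • e = e → h = 1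
  only : ∀ i j k, ∀ a ∈ A i, ∀ b ∈ B i, ∀ b' ∈ B j, ∀ c ∈ C j, ∀ c' ∈ C k, ∀ a' ∈ A k,
    ∀ p q r, (p, q) ∈ X i a b → (q, r) ∈ Y j b' c → (r, p) ∈ Z k c' a' →
    i = j ∧ j = k ∧ a = a' ∧ b = b' ∧ c = c'
  upX : ∀ i, ∀ a ∈ A i, ∀ b ∈ B i, ∀ c ∈ C i, ∀ p q, (p, q) ∈ X i a b →
    Nat.card {r // (q, r) ∈ Y i b c ∧ (r, p) ∈ Z i c a} ≤ L
  upY : ∀ i, ∀ a ∈ A i, ∀ b ∈ B i, ∀ c ∈ C i, ∀ q r, (q, r) ∈ Y i b c →
    Nat.card {p // (r, p) ∈ Z i c a ∧ (p, q) ∈ X i a b} ≤ L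
  upZ : ∀ i, ∀ a ∈ A i, ∀ b ∈ B i, ∀ c ∈ C i, ∀ r p, (r, p) ∈ Z i c a →
    Nat.card {q // (p, q) ∈ X i a b ∧ (q, r) ∈ Y i b c} ≤ L
  disX : ∀ i j, ∀ a ∈ A i, ∀ b ∈ B i, ∀ a' ∈ A j, ∀ b' ∈ B j, ∀ e, e ∈ X i a b →
    e ∈ X j a' b' → i = j ∧ a = a' ∧ b = b'
  disY : ∀ i j, ∀ a ∈ B i, ∀ b ∈ C i, ∀ a' ∈ B j, ∀ b' ∈ C j, ∀ e, e ∈ Y i a b →
    e ∈ Y j a' b' → i = j ∧ a = a' ∧ b = b'
  disZ : ∀ i j, ∀ a ∈ C i, ∀ b ∈ A i, ∀ a' ∈ C j, ∀ b' ∈ A j, ∀ e, e ∈ Z i a b →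
    e ∈ Z j a' b' → i = j ∧ a = a' ∧ b = b'

/-- the pairs which lie in a triangle -/
def pr {Ω I α : Type} (C : I → Finset α) (X Y Z : I → α → α → Set (Ω × Ω)) :
    I → α → α → Set (Ω × Ω) :=
  fun i a b => {e | e ∈ X i a b ∧ ∃ c ∈ C i, ∃ t, (e.2, t) ∈ Y i b c ∧ (t, e.1) ∈ Z i c a}

section

variable {Ω H : Type} [Fintype Ω] [Group H] [Fintype H] [MulAction H Ω] {I α : Type}

/-- from `CW` to the pairs in triangles -/
theorem ofCW {A B C : I → Finset α} {X Y Z : I → α → α → Set (Ω × Ω)} {L : ℕ}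
    (h : CW H A B C X Y Z (fun _ => 0) (fun _ => 0) (fun _ => 0) L) :
    CP H A B C (pr C X Y Z) (pr A Y Z X) (pr B Z X Y) L := by
  have only : ∀ i j k, ∀ a ∈ A i, ∀ b ∈ B i, ∀ b' ∈ B j, ∀ c ∈ C j, ∀ c' ∈ C k, ∀ a' ∈ A k,
      ∀ p q r, (p, q) ∈ X i a b → (q, r) ∈ Y j b' c → (r, p) ∈ Z k c' a' →
      i = j ∧ j = k ∧ a = a' ∧ b = b' ∧ c = c' := by
    intro i j k a ha b hb b' hb' c hc c' hc' a' ha' p q r h1 h2 h3
    rcases h.pos i j k a ha b hb b' hb' c hc c' hc' a' ha' p q r h1 h2 h3 with h0 | h0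
    · simp at h0
    · exact h0
  refine
  { invX := ?_, invY := ?_, invZ := ?_
    freeX := fun i a ha b hb e he => h.freeX i a ha b hb e he.1
    freeY := fun i b hb c hc e he => h.freeY i b hb c hc e he.1
    freeZ := fun i c hc a ha e he => h.freeZ i c hc a ha e he.1
    only := fun i j k a ha b hb b' hb' c hc c' hc' a' ha' p q r h1 h2 h3 =>
      only i j k a ha b hb b' hb' c hc c' hc' a' ha' p q r h1.1 h2.1 h3.1
    upX := ?_, upY := ?_, upZ := ?_, disX := ?_, disY := ?_, disZ := ?_ }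
  · rintro i a ha b hb e ⟨he, c, hc, t, h1, h2⟩ k
    exact ⟨h.invX i a ha b hb e he k, c, hc, k • t, h.invY i b hb c hc _ h1 k,
      h.invZ i c hc a ha _ h2 k⟩
  · rintro i a ha b hb e ⟨he, c, hc, t, h1, h2⟩ k
    exact ⟨h.invY i a ha b hb e he k, c, hc, k • t, h.invZ i b hb c hc _ h1 k,
      h.invX i c hc a ha _ h2 k⟩
  · rintro i a ha b hb e ⟨he, c, hc, t, h1, h2⟩ k
    exact ⟨h.invZ i a ha b hb e he k, c, hc, k • t, h.invX i b hb c hc _ h1 k,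
      h.invY i c hc a ha _ h2 k⟩
  · intro i a ha b hb c hc p q hp
    refine le_trans ?_ (h.upX i a ha b hb c hc p q hp.1)
    exact Nat.card_le_card_of_injective (fun x => ⟨x.1, x.2.1.1, x.2.2.1⟩)
      fun x y hxy => Subtype.ext (by simpa using hxy)
  · intro i a ha b hb c hc p q hp
    refine le_trans ?_ (h.upY i a ha b hb c hc p q hp.1)
    exact Nat.card_le_card_of_injective (fun x => ⟨x.1, x.2.1.1, x.2.2.1⟩)
      fun x y hxy => Subtype.ext (by simpa using hxy)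
  · intro i a ha b hb c hc p q hp
    refine le_trans ?_ (h.upZ i a ha b hb c hc p q hp.1)
    exact Nat.card_le_card_of_injective (fun x => ⟨x.1, x.2.1.1, x.2.2.1⟩)
      fun x y hxy => Subtype.ext (by simpa using hxy)
  · rintro i j a ha b hb a' ha' b' hb' ⟨p, q⟩ ⟨h1, c, hc, t, h2, h3⟩ ⟨h4, -⟩
    obtain ⟨e1, e2, e3, e4, e5⟩ := only j i i a' ha' b' hb' b hb c hc c hc a ha p q t h4 h2 h3
    exact ⟨e1.symm, e3.symm, e4.symm⟩
  · rintro i j b hb c hc b' hb' c' hc' ⟨q, r⟩ ⟨h1, a, ha, t, h2, h3⟩ ⟨h4, -⟩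
    obtain ⟨e1, e2, e3, e4, e5⟩ := only i j i a ha b hb b' hb' c' hc' c hc a ha t q r h3 h4 h2
    exact ⟨e1, e4, e5.symm⟩
  · rintro i j c hc a ha c' hc' a' ha' ⟨r, p⟩ ⟨h1, b, hb, t, h2, h3⟩ ⟨h4, -⟩
    obtain ⟨e1, e2, e3, e4, e5⟩ := only i i j a ha b hb b hb c hc c' hc' a' ha' p t r h2 h3 h4
    exact ⟨e2, e5, e3⟩

omit [Fintype Ω] [Fintype H] in
theorem rot {A B C : I → Finset α} {X Y Z : I → α → α → Set (Ω × Ω)} {L : ℕ}
    (h : CP H A B C X Y Z L) :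
    CP H B C A Y Z X L where
  invX := h.invY
  invY := h.invZ
  invZ := h.invX
  freeX := h.freeY
  freeY := h.freeZ
  freeZ := h.freeX
  only := by
    intro i j k a ha b hb b' hb' c hc c' hc' a' ha' p q r h1 h2 h3
    obtain ⟨e1, e2, e3, e4, e5⟩ := h.only k i j c' hc' a' ha' a ha b hb b' hb' c hc r p q h3 h1 h2
    exact ⟨e2, e2.symm.trans e1.symm, e4.symm, e5, e3.symm⟩
  upX := fun i b hb c hc a ha q r hq => h.upY i a ha b hb c hc q r hq
  upY := fun i b hb c hc a ha r p hr => h.upZ i a ha b hb c hc r p hr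
  upZ := fun i b hb c hc a ha p q hp => h.upX i a ha b hb c hc p q hp
  disX := h.disY
  disY := h.disZ
  disZ := h.disX

open Classical in
/-- the `h` with `(p, h q) ∈ X` -/
noncomputable def xs (H : Type) [Group H] [Fintype H] [MulAction H Ω] (X : Set (Ω × Ω)) (p q : Ω) :
    Finset H := univ.filter fun h : H => (p, h • q) ∈ X

open Classical in
/-- the triangles -/
noncomputable def tr (H : Type) [Group H] [Fintype H] [MulAction H Ω] (X Y Z : Set (Ω × Ω))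
    (p q r : Ω) : Finset (H × H) :=
  univ.filter fun w : H × H => (p, w.1 • q) ∈ X ∧ (q, w.2 • r) ∈ Y ∧ (r, (w.1 * w.2)⁻¹ • p) ∈ Z

open Classical in
/-- the stabilizer -/
noncomputable def st (H : Type) [Group H] [Fintype H] [MulAction H Ω] (p : Ω) : Finset H :=
  univ.filter fun h : H => h • p = p

theorem mem_xs {X : Set (Ω × Ω)} {p q : Ω} {h : H} : h ∈ xs H X p q ↔ (p, h • q) ∈ X := by
  unfold xs; simp

theorem mem_tr {X Y Z : Set (Ω × Ω)} {p q r : Ω} {w : H × H} : w ∈ tr H X Y Z p q r ↔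
    (p, w.1 • q) ∈ X ∧ (q, w.2 • r) ∈ Y ∧ (r, (w.1 * w.2)⁻¹ • p) ∈ Z := by
  unfold tr; simp

theorem mem_st {p : Ω} {h : H} : h ∈ st H p ↔ h • p = p := by
  unfold st; simp

/-- rotation of the triangles -/
def ro (H : Type) [Group H] : H × H ≃ H × H where
  toFun w := (w.2, (w.1 * w.2)⁻¹)
  invFun w := ((w.1 * w.2)⁻¹, w.1)
  left_inv w := by ext <;> simp
  right_inv w := by ext <;> simp

theorem tr_rot (X Y Z : Set (Ω × Ω)) (p q r : Ω) :
    (tr H X Y Z p q r).card = (tr H Y Z X q r p).card := by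
  refine Finset.card_equiv (ro H) fun w => ?_
  rw [mem_tr, mem_tr]
  show _ ↔ (q, w.2 • r) ∈ Y ∧ (r, (w.1 * w.2)⁻¹ • p) ∈ Z ∧ (p, (w.2 * (w.1 * w.2)⁻¹)⁻¹ • q) ∈ X
  have : (w.2 * (w.1 * w.2)⁻¹)⁻¹ = w.1 := by simp
  rw [this]
  tauto

variable {A B C : I → Finset α} {X Y Z : I → α → α → Set (Ω × Ω)} {L : ℕ}

theorem b1 (h : CP H A B C X Y Z L) {i : I} {a b c : α} (ha : a ∈ A i) (hb : b ∈ B i)
    (hc : c ∈ C i) (p q r : Ω) : (tr H (X i a b) (Y i b c) (Z i c a) p q r).card ≤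
      ((st H r).card * L) * (xs H (X i a b) p q).card := by
  classical
  refine Finset.card_le_mul_card_image_of_maps_to (f := Prod.fst) (fun w hw => ?_) _ fun x _ => ?_
  · exact mem_xs.2 (mem_tr.1 hw).1
  · have key : ∀ w ∈ Finset.filter (fun w : H × H => w.1 = x)
          (tr H (X i a b) (Y i b c) (Z i c a) p q r), w.1 = x ∧ (p, x • q) ∈ X i a b ∧
          ((x • q, (x * w.2) • r) ∈ Y i b c ∧ ((x * w.2) • r, p) ∈ Z i c a) := by
      intro w hw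
      rw [Finset.mem_filter, mem_tr] at hw
      obtain ⟨⟨h1, h2, h3⟩, h4⟩ := hw
      rw [h4] at h1 h3
      refine ⟨h4, h1, ?_, ?_⟩
      · have := h.invY i b hb c hc _ h2 x
        rwa [Prod.smul_mk, smul_smul] at this
      · have := h.invZ i c hc a ha _ h3 (x * w.2)
        rwa [Prod.smul_mk, smul_smul, mul_inv_cancel, one_smul] at this
    rcases (Finset.filter (fun w : H × H => w.1 = x)
      (tr H (X i a b) (Y i b c) (Z i c a) p q r)).eq_empty_or_nonempty with h0 | ⟨w0, hw0⟩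
    · rw [h0]; simp
    · obtain ⟨k1, k2, k3⟩ := key w0 hw0
      have hL := h.upX i a ha b hb c hc p (x • q) k2
      rw [Nat.card_eq_fintype_card, Fintype.card_subtype] at hL
      refine le_trans ?_ (Nat.mul_le_mul_left _ hL)
      refine Finset.card_le_mul_card_image_of_maps_to (f := fun w : H × H => (x * w.2) • r)
        (fun w hw => ?_) _ fun t _ => ?_
      · rw [Finset.mem_filter]
        exact ⟨Finset.mem_univ _, (key w hw).2.2⟩
      · rcases (Finset.filter (fun w : H × H => (x * w.2) • r = t)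
          (Finset.filter (fun w : H × H => w.1 = x)
          (tr H (X i a b) (Y i b c) (Z i c a) p q r))).eq_empty_or_nonempty with h1 | ⟨w1, hw1⟩
        · rw [h1]; simp
        · rw [Finset.mem_filter] at hw1
          refine Finset.card_le_card_of_injOn (fun w => w1.2⁻¹ * w.2) (fun w hw => ?_) ?_
          · rw [Finset.mem_coe, Finset.mem_filter] at hw
            rw [Finset.mem_coe, mem_st]
            show (w1.2⁻¹ * w.2) • r = r
            have := hw.2.trans hw1.2.symm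
            rw [mul_smul, mul_smul] at this
            have h5 := smul_left_cancel x this
            rw [mul_smul, h5, smul_smul, inv_mul_cancel, one_smul]
          · intro w hw w' hw' he
            rw [Finset.mem_coe, Finset.mem_filter] at hw hw'
            obtain ⟨l1, -, -⟩ := key w hw.1
            obtain ⟨l2, -, -⟩ := key w' hw'.1
            exact Prod.ext (l1.trans l2.symm) (mul_left_cancel he)

theorem b4 (h : CP H A B C X Y Z L) {i : I} {a b : α} (ha : a ∈ A i) (hb : b ∈ B i)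
    (p q : Ω) (hn : (xs H (X i a b) p q).Nonempty) :
    (st H p).card * (st H q).card ≤ (xs H (X i a b) p q).card := by
  classical
  obtain ⟨x, hx⟩ := hn
  rw [mem_xs] at hx
  rw [← Finset.card_product]
  refine Finset.card_le_card_of_injOn (fun k => k.1 * x * k.2) (fun k hk => ?_) ?_
  · rw [Finset.mem_coe, Finset.mem_product, mem_st, mem_st] at hk
    rw [Finset.mem_coe, mem_xs]
    have h1 := h.invX i a ha b hb _ hx k.1
    rw [Prod.smul_mk, hk.1, smul_smul] at h1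
    show (p, (k.1 * x * k.2) • q) ∈ X i a b
    rwa [mul_smul, hk.2]
  · intro k hk k' hk' he
    rw [Finset.mem_coe, Finset.mem_product, mem_st, mem_st] at hk hk'
    have he' : k.1 * x * k.2 = k'.1 * x * k'.2 := he
    have hu : k'.1⁻¹ * k.1 * x = x * (k'.2 * k.2⁻¹) := by
      have : k.1 * x = k'.1 * x * k'.2 * k.2⁻¹ := by rw [← he']; group
      rw [mul_assoc, this]; group
    have h1 : (k'.1⁻¹ * k.1) • ((p, x • q) : Ω × Ω) = (p, x • q) := by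
      rw [Prod.smul_mk]
      congr 1
      · rw [mul_smul, hk.1, inv_smul_eq_iff, hk'.1]
      · rw [smul_smul, hu, mul_smul, mul_smul]
        congr 1
        have : k.2⁻¹ • q = q := by rw [inv_smul_eq_iff, hk.2]
        rw [this, hk'.2]
    have h2 := h.freeX i a ha b hb _ hx _ h1
    have h3 : k.1 = k'.1 := by
      rw [inv_mul_eq_one] at h2
      exact h2.symm
    refine Prod.ext h3 ?_
    rw [h3] at he'
    exact mul_left_cancel he'

theorem key (h : CP H A B C X Y Z L) {i : I} {a b c : α} (ha : a ∈ A i) (hb : b ∈ B i)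
    (hc : c ∈ C i) (p q r : Ω) : (tr H (X i a b) (Y i b c) (Z i c a) p q r).card ^ 2 ≤
      L ^ 2 * ((xs H (X i a b) p q).card * ((xs H (Y i b c) q r).card * (xs H (Z i c a) r p).card)) := by
  have h' := rot h
  have h'' := rot h'
  have e1 := b1 h ha hb hc p q r
  have e2 := b1 h' hb hc ha q r p
  have e3 := b1 h'' hc ha hb r p q
  rw [← tr_rot] at e2
  rw [← tr_rot, ← tr_rot] at e3
  obtain ⟨n, hn⟩ : ∃ n, n = (tr H (X i a b) (Y i b c) (Z i c a) p q r).card := ⟨_, rfl⟩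
  rw [← hn] at e1 e2 e3 ⊢
  rcases Nat.eq_zero_or_pos n with h0 | h0
  · rw [h0]; simp
  · have hne : (tr H (X i a b) (Y i b c) (Z i c a) p q r).Nonempty := Finset.card_pos.1 (hn ▸ h0)
    obtain ⟨w, hw⟩ := hne
    rw [mem_tr] at hw
    have f1 := b4 h ha hb p q ⟨_, mem_xs.2 hw.1⟩
    have f2 := b4 h' hb hc q r ⟨_, mem_xs.2 hw.2.1⟩
    have f3 := b4 h'' hc ha r p ⟨_, mem_xs.2 hw.2.2⟩
    obtain ⟨x, hx⟩ : ∃ x, x = (xs H (X i a b) p q).card := ⟨_, rfl⟩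
    obtain ⟨y, hy⟩ : ∃ x, x = (xs H (Y i b c) q r).card := ⟨_, rfl⟩
    obtain ⟨z, hz⟩ : ∃ x, x = (xs H (Z i c a) r p).card := ⟨_, rfl⟩
    obtain ⟨u, hu⟩ : ∃ x, x = (st H p).card := ⟨_, rfl⟩
    obtain ⟨v, hv⟩ : ∃ x, x = (st H q).card := ⟨_, rfl⟩
    obtain ⟨t, ht⟩ : ∃ x, x = (st H r).card := ⟨_, rfl⟩
    rw [← hx, ← ht] at e1
    rw [← hy, ← hu] at e2
    rw [← hz, ← hv] at e3
    rw [← hx, ← hu, ← hv] at f1
    rw [← hy, ← hv, ← ht] at f2
    rw [← hz, ← ht, ← hu] at f3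
    rw [← hx, ← hy, ← hz]
    have g1 : n * n * n ≤ t * L * x * (u * L * y) * (v * L * z) :=
      Nat.mul_le_mul (Nat.mul_le_mul e1 e2) e3
    have g2 : u * v * (v * t) * (t * u) ≤ x * y * z :=
      Nat.mul_le_mul (Nat.mul_le_mul f1 f2) f3
    have g3 : (n ^ 2) ^ 3 ≤ (L ^ 2 * (x * (y * z))) ^ 3 := by
      calc (n ^ 2) ^ 3 = (n * n * n) * (n * n * n) := by ring
        _ ≤ (t * L * x * (u * L * y) * (v * L * z)) * (t * L * x * (u * L * y) * (v * L * z)) :=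
          Nat.mul_le_mul g1 g1
        _ = (u * v * (v * t) * (t * u)) * (L ^ 6 * (x * (y * z)) ^ 2) := by ring
        _ ≤ (x * y * z) * (L ^ 6 * (x * (y * z)) ^ 2) := Nat.mul_le_mul_right _ g2
        _ = (L ^ 2 * (x * (y * z))) ^ 3 := by ring
    exact le_of_pow_le_pow_left₀ (by norm_num) (Nat.zero_le _) g3

/-- disjointness -/
theorem dis (h : CP H A B C X Y Z L) (s : Finset I) (p q : Ω) :
    ∑ i ∈ s, ∑ a ∈ A i, ∑ b ∈ B i, (xs H (X i a b) p q).card ≤ nfr H A B X p q := by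
  classical
  have e1 : nfr H A B X p q =
      (univ.filter fun h : H => ∃ i, ∃ a ∈ A i, ∃ b ∈ B i, (p, h • q) ∈ X i a b).card := by
    unfold nfr
    rw [Nat.card_eq_fintype_card, Fintype.card_subtype]
  have e2 : ∑ i ∈ s, ∑ a ∈ A i, ∑ b ∈ B i, (xs H (X i a b) p q).card =
      ∑ l ∈ s.sigma (fun i => A i ×ˢ B i), (xs H (X l.1 l.2.1 l.2.2) p q).card := by
    rw [Finset.sum_sigma]
    refine Finset.sum_congr rfl fun i _ => ?_
    rw [Finset.sum_product]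
  rw [e1, e2, ← Finset.card_biUnion]
  · refine Finset.card_le_card fun x hx => ?_
    rw [Finset.mem_biUnion] at hx
    obtain ⟨l, hl, hx⟩ := hx
    rw [Finset.mem_sigma, Finset.mem_product] at hl
    rw [Finset.mem_filter]
    exact ⟨Finset.mem_univ _, l.1, l.2.1, hl.2.1, l.2.2, hl.2.2, mem_xs.1 hx⟩
  · rintro ⟨i, a, b⟩ hl ⟨i', a', b'⟩ hl' hne
    rw [Finset.mem_coe, Finset.mem_sigma, Finset.mem_product] at hl hl'
    rw [Function.onFun, Finset.disjoint_left]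
    intro x hx hx'
    apply hne
    rw [mem_xs] at hx hx'
    obtain ⟨f1, f2, f3⟩ := h.disX i i' a hl.2.1 b hl.2.2 a' hl'.2.1 b' hl'.2.2 _ hx hx'
    subst f1; subst f2; subst f3
    rfl

end

end Sll

namespace Sll

/-- the numerical end -/
theorem num (N m h D L : ℝ) (hN : N ≤ L * m) (hm : 0 < m) (hL : 1 ≤ L) (hh : 0 < h) (hD : 0 < D)
    (hDh : D ≤ h) (hmix : (N - m ^ 2 / h) ^ 2 * D ≤ h * m ^ 2) : m ^ 2 * D ≤ 4 * L ^ 2 * h ^ 3 := by
  rcases le_or_gt m (2 * L * h) with h1 | h1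
  · calc m ^ 2 * D ≤ (2 * L * h) ^ 2 * h :=
          mul_le_mul (pow_le_pow_left₀ hm.le h1 2) hDh hD.le (by positivity)
      _ = 4 * L ^ 2 * h ^ 3 := by ring
  · have h2 : L * m ≤ m ^ 2 / (2 * h) := by
      rw [le_div_iff₀ (by positivity)]
      nlinarith
    have h3 : m ^ 2 / h = m ^ 2 / (2 * h) + m ^ 2 / (2 * h) := by
      field_simp; ring
    have h4 : m ^ 2 / (2 * h) ≤ m ^ 2 / h - N := by linarith
    have h5 : (m ^ 2 / (2 * h)) ^ 2 ≤ (N - m ^ 2 / h) ^ 2 := by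
      have h6 : 0 ≤ m ^ 2 / (2 * h) := by positivity
      have := pow_le_pow_left₀ h6 h4 2
      linarith [show (N - m ^ 2 / h) ^ 2 = (m ^ 2 / h - N) ^ 2 by ring]
    have h7 : (m ^ 2 / (2 * h)) ^ 2 * D ≤ h * m ^ 2 :=
      (mul_le_mul_of_nonneg_right h5 hD.le).trans hmix
    have h8 : m ^ 2 * D ≤ 4 * h ^ 3 := by
      rw [div_pow, div_mul_eq_mul_div, div_le_iff₀ (by positivity)] at h7
      have h9 : m ^ 2 * (m ^ 2 * D) ≤ m ^ 2 * (4 * h ^ 3) := by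
        calc m ^ 2 * (m ^ 2 * D) = (m ^ 2) ^ 2 * D := by ring
          _ ≤ h * m ^ 2 * (2 * h) ^ 2 := h7
          _ = m ^ 2 * (4 * h ^ 3) := by ring
      exact le_of_mul_le_mul_left h9 (by positivity)
    have h10 : 4 * h ^ 3 ≤ 4 * L ^ 2 * h ^ 3 := by
      have : (1 : ℝ) ≤ L ^ 2 := one_le_pow₀ hL
      nlinarith [pow_pos hh 3]
    linarith

theorem main (Ω H : Type) [Fintype Ω] [Group H] [Fintype H] [DecidableEq H]
    [MulAction H Ω] (D : ℕ) (hD : 1 ≤ D) (hDh : D ≤ Fintype.card H) (hmix : Mixing H D)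
    (I α : Type) [Fintype I] (A B C : I → Finset α) (X Y Z : I → α → α → Set (Ω × Ω)) (L : ℕ)
    (hL : 1 ≤ L) (h : CP H A B C X Y Z L) (p q r : Ω) :
    nfr H A B X p q * nfr H B C Y q r * nfr H C A Z r p * D ≤ 4 * L ^ 2 * Fintype.card H ^ 3 := by
  classical
  have h' := rot h
  have h'' := rot h'
  obtain ⟨XX, hXX⟩ : ∃ s : Finset H, s = univ.filter fun h : H => ∃ i, ∃ a ∈ A i, ∃ b ∈ B i,
    (p, h • q) ∈ X i a b := ⟨_, rfl⟩
  obtain ⟨YY, hYY⟩ : ∃ s : Finset H, s = univ.filter fun h : H => ∃ i, ∃ b ∈ B i, ∃ c ∈ C i,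
    (q, h • r) ∈ Y i b c := ⟨_, rfl⟩
  obtain ⟨ZZ, hZZ⟩ : ∃ s : Finset H, s = univ.filter fun h : H => ∃ i, ∃ c ∈ C i, ∃ a ∈ A i,
    (r, h • p) ∈ Z i c a := ⟨_, rfl⟩
  have eX : nfr H A B X p q = XX.card := by
    unfold nfr
    rw [Nat.card_eq_fintype_card, Fintype.card_subtype, hXX]
  have eY : nfr H B C Y q r = YY.card := by
    unfold nfr
    rw [Nat.card_eq_fintype_card, Fintype.card_subtype, hYY]
  have eZ : nfr H C A Z r p = ZZ.card := by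
    unfold nfr
    rw [Nat.card_eq_fintype_card, Fintype.card_subtype, hZZ]
  -- the number of solutions
  obtain ⟨N, hN⟩ : ∃ N : ℕ, N = ((XX ×ˢ YY).filter fun q => (q.1 * q.2)⁻¹ ∈ ZZ).card := ⟨_, rfl⟩
  obtain ⟨s, hs⟩ : ∃ s : Finset I, s = univ := ⟨_, rfl⟩
  have hNle : N ≤ ∑ i ∈ s, ∑ a ∈ A i, ∑ b ∈ B i, ∑ c ∈ C i,
      (tr H (X i a b) (Y i b c) (Z i c a) p q r).card := by
    have e2 : ∑ i ∈ s, ∑ a ∈ A i, ∑ b ∈ B i, ∑ c ∈ C i,
        (tr H (X i a b) (Y i b c) (Z i c a) p q r).card =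
        ∑ l ∈ s.sigma (fun i => A i ×ˢ (B i ×ˢ C i)),
          (tr H (X l.1 l.2.1 l.2.2.1) (Y l.1 l.2.2.1 l.2.2.2) (Z l.1 l.2.2.2 l.2.1) p q r).card := by
      rw [Finset.sum_sigma]
      refine Finset.sum_congr rfl fun i _ => ?_
      rw [Finset.sum_product]
      refine Finset.sum_congr rfl fun a _ => ?_
      rw [Finset.sum_product]
    rw [hN, e2]
    refine le_trans (Finset.card_le_card fun w hw => ?_) Finset.card_biUnion_le
    rw [Finset.mem_filter, Finset.mem_product, hXX, hYY, hZZ, Finset.mem_filter, Finset.mem_filter,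
      Finset.mem_filter] at hw
    obtain ⟨⟨⟨-, i, a, ha, b, hb, h1⟩, ⟨-, j, b', hb', c, hc, h2⟩⟩, ⟨-, k, c', hc', a', ha', h3⟩⟩ := hw
    have g2 := h.invY j b' hb' c hc _ h2 w.1
    have g3 := h.invZ k c' hc' a' ha' _ h3 (w.1 * w.2)
    rw [Prod.smul_mk, smul_smul] at g2
    rw [Prod.smul_mk, smul_smul, mul_inv_cancel, one_smul] at g3
    obtain ⟨f1, f2, f3, f4, f5⟩ := h.only i j k a ha b hb b' hb' c hc c' hc' a' ha' p _ _ h1 g2 g3
    subst f1; subst f2; subst f3; subst f4; subst f5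
    rw [Finset.mem_biUnion]
    refine ⟨⟨i, a, b, c⟩, ?_, mem_tr.2 ⟨h1, h2, h3⟩⟩
    rw [Finset.mem_sigma, Finset.mem_product, Finset.mem_product, hs]
    exact ⟨Finset.mem_univ _, ha, hb, hc⟩
  -- real sums
  obtain ⟨X', hX'⟩ : ∃ f : I → ℝ, f = fun i => ∑ a ∈ A i, ∑ b ∈ B i,
    ((xs H (X i a b) p q).card : ℝ) := ⟨_, rfl⟩
  obtain ⟨Y', hY'⟩ : ∃ f : I → ℝ, f = fun i => ∑ b ∈ B i, ∑ c ∈ C i,
    ((xs H (Y i b c) q r).card : ℝ) := ⟨_, rfl⟩
  obtain ⟨Z', hZ'⟩ : ∃ f : I → ℝ, f = fun i => ∑ c ∈ C i, ∑ a ∈ A i,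
    ((xs H (Z i c a) r p).card : ℝ) := ⟨_, rfl⟩
  have pX : ∀ i, 0 ≤ X' i := fun i => by rw [hX']; positivity
  have pY : ∀ i, 0 ≤ Y' i := fun i => by rw [hY']; positivity
  have pZ : ∀ i, 0 ≤ Z' i := fun i => by rw [hZ']; positivity
  have sX : ∑ i ∈ s, X' i ≤ XX.card := by
    rw [← eX, hX']
    have := dis h s p q
    have h2 : (∑ i ∈ s, ∑ a ∈ A i, ∑ b ∈ B i, ((xs H (X i a b) p q).card : ℝ)) ≤
      nfr H A B X p q := by exact_mod_cast this
    exact h2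
  have sY : ∑ i ∈ s, Y' i ≤ YY.card := by
    rw [← eY, hY']
    have := dis h' s q r
    have h2 : (∑ i ∈ s, ∑ b ∈ B i, ∑ c ∈ C i, ((xs H (Y i b c) q r).card : ℝ)) ≤
      nfr H B C Y q r := by exact_mod_cast this
    exact h2
  have sZ : ∑ i ∈ s, Z' i ≤ ZZ.card := by
    rw [← eZ, hZ']
    have := dis h'' s r p
    have h2 : (∑ i ∈ s, ∑ c ∈ C i, ∑ a ∈ A i, ((xs H (Z i c a) r p).card : ℝ)) ≤
      nfr H C A Z r p := by exact_mod_cast this
    exact h2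
  have hi : ∀ i ∈ s, (∑ a ∈ A i, ∑ b ∈ B i, ∑ c ∈ C i,
      ((tr H (X i a b) (Y i b c) (Z i c a) p q r).card : ℝ)) ≤
      L * (Real.sqrt (X' i) * Real.sqrt (Y' i * Z' i)) := by
    intro i _
    have g1 : (∑ a ∈ A i, ∑ b ∈ B i, ∑ c ∈ C i,
        ((tr H (X i a b) (Y i b c) (Z i c a) p q r).card : ℝ)) ≤
        L * ∑ a ∈ A i, ∑ b ∈ B i, ∑ c ∈ C i, Real.sqrt ((xs H (X i a b) p q).card) *
          Real.sqrt ((xs H (Y i b c) q r).card) * Real.sqrt ((xs H (Z i c a) r p).card) := by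
      simp only [Finset.mul_sum]
      refine sum_le_sum fun a ha => sum_le_sum fun b hb => sum_le_sum fun c hc => ?_
      rw [mul_assoc (Real.sqrt _), ← Real.sqrt_mul (Nat.cast_nonneg _),
        ← Real.sqrt_mul (Nat.cast_nonneg _)]
      have hk := key h ha hb hc p q r
      have hk' : (((tr H (X i a b) (Y i b c) (Z i c a) p q r).card : ℝ)) ^ 2 ≤
          (L : ℝ) ^ 2 * ((xs H (X i a b) p q).card *
            ((xs H (Y i b c) q r).card * (xs H (Z i c a) r p).card)) := by exact_mod_cast hk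
      refine (Real.le_sqrt_of_sq_le hk').trans (le_of_eq ?_)
      rw [Real.sqrt_mul (by positivity), Real.sqrt_sq (Nat.cast_nonneg _)]
    refine g1.trans (mul_le_mul_of_nonneg_left ?_ (Nat.cast_nonneg _))
    rw [← Real.sqrt_mul (pX i)]
    refine Real.le_sqrt_of_sq_le ?_
    refine (Avg.loomis (A i) (B i) (C i) (fun a b => Real.sqrt ((xs H (X i a b) p q).card))
      (fun b c => Real.sqrt ((xs H (Y i b c) q r).card))
      (fun c a => Real.sqrt ((xs H (Z i c a) r p).card))).trans (le_of_eq ?_)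
    rw [hX', hY', hZ']
    simp only [Real.sq_sqrt (Nat.cast_nonneg _)]
  have hN2 : (N : ℝ) ≤ L * Real.sqrt (XX.card * YY.card * ZZ.card) := by
    have g1 : (N : ℝ) ≤ L * ∑ i ∈ s, Real.sqrt (X' i) * Real.sqrt (Y' i * Z' i) := by
      rw [Finset.mul_sum]
      refine le_trans ?_ (sum_le_sum hi)
      exact_mod_cast hNle
    have g2 : (∑ i ∈ s, Real.sqrt (X' i) * Real.sqrt (Y' i * Z' i)) ^ 2 ≤
        (∑ i ∈ s, X' i) * ∑ i ∈ s, Y' i * Z' i := by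
      refine (Finset.sum_mul_sq_le_sq_mul_sq _ _ _).trans (le_of_eq ?_)
      congr 1
      · exact sum_congr rfl fun i _ => Real.sq_sqrt (pX i)
      · exact sum_congr rfl fun i _ => Real.sq_sqrt (mul_nonneg (pY i) (pZ i))
    have g3 : ∑ i ∈ s, Y' i * Z' i ≤ (∑ i ∈ s, Y' i) * ∑ i ∈ s, Z' i := by
      rw [Finset.sum_mul]
      refine sum_le_sum fun i hi => mul_le_mul_of_nonneg_left ?_ (pY i)
      exact Finset.single_le_sum (fun j _ => pZ j) hi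
    refine g1.trans (mul_le_mul_of_nonneg_left (Real.le_sqrt_of_sq_le ?_) (Nat.cast_nonneg _))
    calc (∑ i ∈ s, Real.sqrt (X' i) * Real.sqrt (Y' i * Z' i)) ^ 2
        ≤ (∑ i ∈ s, X' i) * ∑ i ∈ s, Y' i * Z' i := g2
      _ ≤ (∑ i ∈ s, X' i) * ((∑ i ∈ s, Y' i) * ∑ i ∈ s, Z' i) :=
          mul_le_mul_of_nonneg_left g3 (sum_nonneg fun i _ => pX i)
      _ ≤ XX.card * (YY.card * ZZ.card) := by
          refine mul_le_mul sX (mul_le_mul sY sZ (sum_nonneg fun i _ => pZ i) (Nat.cast_nonneg _))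
            (mul_nonneg (sum_nonneg fun i _ => pY i) (sum_nonneg fun i _ => pZ i))
            (Nat.cast_nonneg _)
      _ = _ := by ring
  rw [eX, eY, eZ]
  have hm := hmix XX YY ZZ
  have hN' : ((((XX ×ˢ YY).filter fun q => (q.1 * q.2)⁻¹ ∈ ZZ).card : ℕ) : ℝ) = N := by
    rw [hN]
  rcases Nat.eq_zero_or_pos (XX.card * YY.card * ZZ.card) with h0 | h0
  · rw [h0]; simp
  · obtain ⟨t, ht⟩ : ∃ t : ℝ, t = XX.card * YY.card * ZZ.card := ⟨_, rfl⟩
    have ht0 : 0 < t := by rw [ht]; exact_mod_cast h0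
    have hsq : Real.sqrt t ^ 2 = t := Real.sq_sqrt ht0.le
    have := num N (Real.sqrt t) (Fintype.card H) D L (by rw [ht]; exact hN2)
      (Real.sqrt_pos.2 ht0) (by exact_mod_cast hL)
      (by exact_mod_cast (lt_of_lt_of_le (Nat.lt_of_lt_of_le Nat.zero_lt_one hD) hDh))
      (by exact_mod_cast hD) (by exact_mod_cast hDh) (by
        rw [hsq, ht]
        convert hm using 4
        exact hN'.symm)
    rw [hsq, ht] at this
    exact_mod_cast this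

end Sll

open Sll in
theorem sll : S_SLL := by
  intro Ω H _ _ _ _ _ D hD hDh hmix I α _ A B C X Y Z L hL h p q r
  have hm := main Ω H D hD hDh hmix I α A B C _ _ _ L hL (ofCW h) p q r
  unfold nfr at hm
  have e1 : Nat.card {h : H // ∃ i, ∃ a ∈ A i, ∃ b ∈ B i, ∃ c ∈ C i,
      ∃ t, (p, h • q) ∈ X i a b ∧ (h • q, t) ∈ Y i b c ∧ (t, p) ∈ Z i c a} =
      Nat.card {h : H // ∃ i, ∃ a ∈ A i, ∃ b ∈ B i, (p, h • q) ∈ pr C X Y Z i a b} := by
    refine Nat.card_congr (Equiv.subtypeEquivRight fun k => ?_)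
    constructor
    · rintro ⟨i, a, ha, b, hb, c, hc, t, h1, h2, h3⟩
      exact ⟨i, a, ha, b, hb, h1, c, hc, t, h2, h3⟩
    · rintro ⟨i, a, ha, b, hb, h1, c, hc, t, h2, h3⟩
      exact ⟨i, a, ha, b, hb, c, hc, t, h1, h2, h3⟩
  have e2 : Nat.card {h : H // ∃ i, ∃ a ∈ A i, ∃ b ∈ B i, ∃ c ∈ C i,
      ∃ t, (t, q) ∈ X i a b ∧ (q, h • r) ∈ Y i b c ∧ (h • r, t) ∈ Z i c a} =
      Nat.card {h : H // ∃ i, ∃ b ∈ B i, ∃ c ∈ C i, (q, h • r) ∈ pr A Y Z X i b c} := by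
    refine Nat.card_congr (Equiv.subtypeEquivRight fun k => ?_)
    constructor
    · rintro ⟨i, a, ha, b, hb, c, hc, t, h1, h2, h3⟩
      exact ⟨i, b, hb, c, hc, h2, a, ha, t, h3, h1⟩
    · rintro ⟨i, b, hb, c, hc, h2, a, ha, t, h3, h1⟩
      exact ⟨i, a, ha, b, hb, c, hc, t, h1, h2, h3⟩
  have e3 : Nat.card {h : H // ∃ i, ∃ a ∈ A i, ∃ b ∈ B i, ∃ c ∈ C i,
      ∃ t, (h • p, t) ∈ X i a b ∧ (t, r) ∈ Y i b c ∧ (r, h • p) ∈ Z i c a} =
      Nat.card {h : H // ∃ i, ∃ c ∈ C i, ∃ a ∈ A i, (r, h • p) ∈ pr B Z X Y i c a} := by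
    refine Nat.card_congr (Equiv.subtypeEquivRight fun k => ?_)
    constructor
    · rintro ⟨i, a, ha, b, hb, c, hc, t, h1, h2, h3⟩
      exact ⟨i, c, hc, a, ha, h3, b, hb, t, h1, h2⟩
    · rintro ⟨i, c, hc, a, ha, h3, b, hb, t, h1, h2⟩
      exact ⟨i, a, ha, b, hb, c, hc, t, h1, h2, h3⟩
  rw [e1, e2, e3]
  exact hm

end Pool.Agent.N726.CC
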